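import Mathlib

/-!
Numeric part: convex integer sequences whose affine stretches of small slope are short compared
with their end values.
-/

namespace Pool.Agent.helper356_nill

structure ConvRun (g : ℕ → ℤ) (β : ℤ) : Prop where
  nonneg : ∀ i, 0 ≤ g i
  conv : ∀ i, 2 * g (i + 1) ≤ g i + g (i + 2)
  run : ∀ (i m : ℕ) (d : ℤ), |d| < β → g i + g (i + 2 * m) = 2 * g (i + m) →
    g (i + 2 * m) = g i + 2 * m * d → β * (2 * m) ≤ g i ∧ β * (2 * m) ≤ g (i + 2 * m)

namespace ConvRun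

variable {g : ℕ → ℤ} {β : ℤ}

theorem mono (h : ConvRun g β) : Monotone (fun i => g (i + 1) - g i) := by
  apply monotone_nat_of_le_succ
  intro i
  have := h.conv i
  show g (i + 1) - g i ≤ g (i + 1 + 1) - g (i + 1)
  have h2 : i + 1 + 1 = i + 2 := rfl
  rw [h2]; linarith

theorem seg_eq {g : ℕ → ℤ} (p : ℕ) (d : ℤ) (z : ℕ) (h : ∀ i, p ≤ i → i < p + z → g (i + 1) - g i = d) :
    ∀ t, t ≤ z → g (p + t) = g p + t * d := by
  intro t
  induction t with
  | zero => intro _; simp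
  | succ t ih =>
    intro ht
    have h1 := ih (by omega)
    have h2 := h (p + t) (by omega) (by omega)
    have h3 : p + (t + 1) = p + t + 1 := by ring
    rw [h3]; push_cast; linarith

theorem seg_ge {g : ℕ → ℤ} (p : ℕ) (d : ℤ) (z : ℕ) (h : ∀ i, p ≤ i → i < p + z → d ≤ g (i + 1) - g i) :
    ∀ t, t ≤ z → g p + t * d ≤ g (p + t) := by
  intro t
  induction t with
  | zero => intro _; simp
  | succ t ih =>
    intro ht
    have h1 := ih (by omega)
    have h2 := h (p + t) (by omega) (by omega)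
    have h3 : p + (t + 1) = p + t + 1 := by ring
    rw [h3]; push_cast; linarith

theorem seg_le {g : ℕ → ℤ} (p : ℕ) (d : ℤ) (z : ℕ) (h : ∀ i, p ≤ i → i < p + z → g (i + 1) - g i ≤ d) :
    ∀ t, t ≤ z → g (p + t) ≤ g p + t * d := by
  intro t
  induction t with
  | zero => intro _; simp
  | succ t ih =>
    intro ht
    have h1 := ih (by omega)
    have h2 := h (p + t) (by omega) (by omega)
    have h3 : p + (t + 1) = p + t + 1 := by ring
    rw [h3]; push_cast; linarith

/-- the run bound -/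
theorem run' (h : ConvRun g β) (hβ : 1 ≤ β) (p z : ℕ) (d : ℤ) (hd : |d| < β)
    (hs : ∀ i, p ≤ i → i < p + z → g (i + 1) - g i = d) :
    β * z ≤ g p + β ∧ β * z ≤ g (p + z) + β := by
  have hseg := seg_eq p d z hs
  obtain ⟨m, hm⟩ : ∃ m, z = 2 * m ∨ z = 2 * m + 1 := ⟨z / 2, by omega⟩
  -- the left aligned stretch
  have hL := h.run p m d hd (by
      rw [hseg (2 * m) (by omega), hseg m (by omega)]; push_cast; ring) (by
      rw [hseg (2 * m) (by omega)]; push_cast; ring)
  -- the right aligned stretch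
  rcases hm with hm | hm
  · subst hm
    push_cast
    exact ⟨by linarith [hL.1], by linarith [hL.2]⟩
  · subst hm
    have hR := h.run (p + 1) m d hd (by
      have e1 : p + 1 + 2 * m = p + (2 * m + 1) := by ring
      have e2 : p + 1 + m = p + (m + 1) := by ring
      rw [e1, e2, hseg (2 * m + 1) (by omega), hseg (m + 1) (by omega), hseg 1 (by omega)]
      push_cast; ring) (by
      have e1 : p + 1 + 2 * m = p + (2 * m + 1) := by ring
      rw [e1, hseg (2 * m + 1) (by omega), hseg 1 (by omega)]; push_cast; ring)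
    have e1 : p + 1 + 2 * m = p + (2 * m + 1) := by ring
    rw [e1] at hR
    push_cast
    exact ⟨by linarith [hL.1], by linarith [hR.2]⟩

/-- first index, at most `J`, from which the slopes are at least `d` -/
theorem exists_q (g : ℕ → ℤ) (J : ℕ) (d : ℤ) : ∃ i, J ≤ i ∨ d ≤ g (i + 1) - g i := ⟨J, Or.inl le_rfl⟩

open Classical in
noncomputable def q (g : ℕ → ℤ) (J : ℕ) (d : ℤ) : ℕ := Nat.find (exists_q g J d)

theorem q_le (g : ℕ → ℤ) (J : ℕ) (d : ℤ) : q g J d ≤ J := by
  classical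
  exact Nat.find_min' (exists_q g J d) (Or.inl le_rfl)

theorem lt_q {g : ℕ → ℤ} {J : ℕ} {d : ℤ} {i : ℕ} (hi : i < q g J d) : g (i + 1) - g i < d := by
  classical
  have := Nat.find_min (exists_q g J d) hi
  push Not at this
  exact this.2

theorem q_spec (h : ConvRun g β) {J : ℕ} {d : ℤ} {i : ℕ} (hi : q g J d ≤ i) (hJ : i < J) :
    d ≤ g (i + 1) - g i := by
  classical
  have h1 := Nat.find_spec (exists_q g J d)
  rcases h1 with h1 | h1
  · exfalso
    change J ≤ q g J d at h1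
    omega
  · change d ≤ g (q g J d + 1) - g (q g J d) at h1
    exact h1.trans (h.mono hi)

theorem q_mono (g : ℕ → ℤ) (J : ℕ) {d d' : ℤ} (hd : d ≤ d') : q g J d ≤ q g J d' := by
  classical
  apply Nat.find_min' (exists_q g J d)
  rcases Nat.find_spec (exists_q g J d') with h1 | h1
  · exact Or.inl h1
  · exact Or.inr (hd.trans h1)

/-- length of the stretch of slope `d` -/
theorem stretch (h : ConvRun g β) (hβ : 1 ≤ β) (J : ℕ) (d : ℤ) (hd : |d| < β) :
    β * ((q g J (d + 1) : ℤ) - q g J d) ≤ g (q g J d) + β ∧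
    β * ((q g J (d + 1) : ℤ) - q g J d) ≤ g (q g J (d + 1)) + β := by
  have hle := q_mono g J (show d ≤ d + 1 by omega)
  have h1 := h.run' hβ (q g J d) (q g J (d + 1) - q g J d) d hd (by
    intro i hi1 hi2
    have hi3 : i < q g J (d + 1) := by omega
    have h2 := lt_q hi3
    have h3 := q_le g J (d + 1)
    have h4 := h.q_spec hi1 (by omega)
    omega)
  have h5 : q g J d + (q g J (d + 1) - q g J d) = q g J (d + 1) := by omega
  rw [h5] at h1
  push_cast [hle] at h1
  exact h1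

theorem g_right (h : ConvRun g β) (J : ℕ) (d : ℤ) {i : ℕ} (hi : q g J d ≤ i) (hJ : i ≤ J) :
    g (q g J d) + ((i : ℤ) - q g J d) * d ≤ g i := by
  have h1 := seg_ge (g := g) (q g J d) d (i - q g J d) (by
    intro k hk1 hk2
    exact h.q_spec hk1 (by omega)) (i - q g J d) le_rfl
  have h5 : q g J d + (i - q g J d) = i := by omega
  rw [h5] at h1
  push_cast [hi] at h1
  exact h1

theorem g_left (_h : ConvRun g β) (J : ℕ) (d : ℤ) {i : ℕ} (hi : i ≤ q g J d) :
    g (q g J d) ≤ g i + ((q g J d : ℤ) - i) * (d - 1) := by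
  have h1 := seg_le (g := g) i (d - 1) (q g J d - i) (by
    intro k hk1 hk2
    have := lt_q (g := g) (J := J) (d := d) (i := k) (by omega)
    omega) (q g J d - i) le_rfl
  have h5 : i + (q g J d - i) = q g J d := by omega
  rw [h5] at h1
  push_cast [hi] at h1
  exact h1

theorem right_sum (h : ConvRun g β) (hβ : 1 ≤ β) (J : ℕ) (s : ℕ) (hs : (s : ℤ) + 1 ≤ β) :
    β * ((q g J (s + 1) : ℤ) - q g J 1) ≤ s * (g (q g J (s + 1)) + β) := by
  induction s with
  | zero => simp
  | succ s ih =>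
    have h1 := ih (by push_cast at hs; omega)
    have hd : |((s : ℤ) + 1)| < β := by rw [abs_of_nonneg (by positivity)]; push_cast at hs; omega
    have h2 := (h.stretch hβ J ((s : ℤ) + 1) hd).1
    have h3 := h.g_right J ((s : ℤ) + 1) (i := q g J ((s : ℤ) + 1 + 1))
      (q_mono g J (by omega)) (q_le _ _ _)
    have h4 : (0 : ℤ) ≤ ((q g J ((s : ℤ) + 1 + 1) : ℤ) - q g J ((s : ℤ) + 1)) * ((s : ℤ) + 1) := by
      have : q g J ((s : ℤ) + 1) ≤ q g J ((s : ℤ) + 1 + 1) := q_mono g J (by omega)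
      have h6 : (0 : ℤ) ≤ (q g J ((s : ℤ) + 1 + 1) : ℤ) - q g J ((s : ℤ) + 1) := by
        have : (q g J ((s : ℤ) + 1) : ℤ) ≤ q g J ((s : ℤ) + 1 + 1) := by exact_mod_cast this
        linarith
      positivity
    push_cast
    nlinarith

theorem left_sum (h : ConvRun g β) (hβ : 1 ≤ β) (J : ℕ) (s : ℕ) (hs : (s : ℤ) + 1 ≤ β) :
    β * ((q g J 0 : ℤ) - q g J (-s)) ≤ s * (g (q g J (-s)) + β) := by
  induction s with
  | zero => simp
  | succ s ih =>
    have h1 := ih (by push_cast at hs; omega)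
    have hd : |(-(s : ℤ) - 1)| < β := by
      rw [abs_of_nonpos (by omega)]; push_cast at hs; omega
    have h2 := (h.stretch hβ J (-(s : ℤ) - 1) hd).2
    have e1 : -(s : ℤ) - 1 + 1 = -s := by ring
    have e2 : -(((s + 1 : ℕ)) : ℤ) = -(s : ℤ) - 1 := by push_cast; ring
    rw [e1] at h2
    rw [e2]
    have h6 : q g J (-(s : ℤ) - 1) ≤ q g J (-(s : ℤ)) := q_mono g J (by omega)
    have h3 := h.g_left J (-(s : ℤ)) h6
    have h6' : (q g J (-(s : ℤ) - 1) : ℤ) ≤ q g J (-(s : ℤ)) := by exact_mod_cast h6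
    have h4 : ((q g J (-(s : ℤ)) : ℤ) - q g J (-(s : ℤ) - 1)) * (-(s : ℤ) - 1) ≤ 0 := by
      apply mul_nonpos_of_nonneg_of_nonpos <;> omega
    push_cast
    nlinarith

/-- Main numeric estimate. -/
theorem main (h : ConvRun g β) (hβ : 1 ≤ β) (J s : ℕ) (hs : 1 ≤ s)
    (hsβ : (s : ℤ) * (2 * s - 1) ≤ 2 * β) (hsβ' : (s : ℤ) ≤ β) :
    (s : ℤ) * J - s * (2 * s - 1) ≤ g 0 + g J := by
  obtain ⟨r, rfl⟩ : ∃ r, s = r + 1 := ⟨s - 1, by omega⟩
  have hr := h.right_sum hβ J r (by exact_mod_cast hsβ')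
  have hl := h.left_sum hβ J r (by exact_mod_cast hsβ')
  have h0 := h.stretch hβ J 0 (by simpa using (by omega : 0 < β))
  simp only [zero_add] at h0
  -- outer parts
  have hR := h.g_right J ((r : ℤ) + 1) (i := J) (q_le _ _ _) le_rfl
  have hL := h.g_left J (-(r : ℤ)) (i := 0) (Nat.zero_le _)
  have hA1 := h.g_right J 1 (i := q g J ((r : ℤ) + 1)) (q_mono g J (by omega)) (q_le _ _ _)
  have hA0 := h.g_left J 0 (i := q g J (-(r : ℤ))) (q_mono g J (by omega))
  have hm1 : (q g J 1 : ℤ) ≤ q g J ((r : ℤ) + 1) := by exact_mod_cast q_mono g J (by omega)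
  have hm0 : (q g J (-(r : ℤ)) : ℤ) ≤ q g J 0 := by exact_mod_cast q_mono g J (by omega)
  have hg1 : g (q g J 1) ≤ g (q g J ((r : ℤ) + 1)) := by linarith
  have hg0 : g (q g J 0) ≤ g (q g J (-(r : ℤ))) := by nlinarith
  set a : ℤ := (q g J (-(r : ℤ)) : ℤ) with ha
  set c : ℤ := (q g J ((r : ℤ) + 1) : ℤ) with hc
  set A0 : ℤ := g (q g J (-(r : ℤ))) with hA0'
  set A1 : ℤ := g (q g J ((r : ℤ) + 1)) with hA1'
  have hA0n : 0 ≤ A0 := h.nonneg _
  have hA1n : 0 ≤ A1 := h.nonneg _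
  have hrn : (0 : ℤ) ≤ r := by positivity
  -- total length of the small slope part
  have hZ : 2 * β * (c - a) ≤ (2 * r + 1) * (A0 + A1 + 2 * β) := by
    nlinarith [h0.1, h0.2]
  push_cast at hsβ hL ⊢
  have hG : A0 + A1 + (r + 1) * (J - (c - a)) ≤ g 0 + g J := by nlinarith
  have hZ2 : 2 * β * ((r + 1) * (c - a)) ≤ 2 * β * (A0 + A1 + (r + 1) * (2 * r + 1)) := by
    have e1 : 2 * β * ((r + 1) * (c - a)) ≤ (r + 1) * ((2 * r + 1) * (A0 + A1 + 2 * β)) := by
      nlinarith
    have e2 : ((r : ℤ) + 1) * (2 * r + 1) * (A0 + A1) ≤ 2 * β * (A0 + A1) := by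
      apply mul_le_mul_of_nonneg_right _ (by linarith)
      linarith
    nlinarith
  have hZ3 : (r + 1) * (c - a) ≤ A0 + A1 + (r + 1) * (2 * r + 1) :=
    le_of_mul_le_mul_left hZ2 (by linarith)
  nlinarith

/-- Sharper estimate for slope two. -/
theorem main_two (h : ConvRun g β) (hβ : 2 ≤ β) (J : ℕ) :
    2 * (J : ℤ) - 4 ≤ g 0 + g J := by
  have h0 := (h.stretch (by omega) J 0 (by simpa using (by omega : 0 < β))).1
  have h1 := (h.stretch (by omega) J 1 (by simpa using (by omega : 1 < β))).1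
  have hm1 := (h.stretch (by omega) J (-1) (by simpa using (by omega : 1 < β))).2
  simp only [zero_add] at h0
  norm_num at h1 hm1
  have hR := h.g_right J 2 (i := J) (q_le _ _ _) le_rfl
  have hL := h.g_left J (-1) (i := 0) (Nat.zero_le _)
  have hm01 : (q g J 0 : ℤ) ≤ q g J 1 := by exact_mod_cast q_mono g J (by omega)
  have hm12 : (q g J 1 : ℤ) ≤ q g J 2 := by exact_mod_cast q_mono g J (by omega)
  have hm10 : (q g J (-1) : ℤ) ≤ q g J 0 := by exact_mod_cast q_mono g J (by omega)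
  have hA1 := h.g_right J 1 (i := q g J 2) (q_mono g J (by omega)) (q_le _ _ _)
  have hA0 := h.g_left J 0 (i := q g J (-1)) (q_mono g J (by omega))
  have hA2 := h.g_right J 0 (i := q g J 1) (q_mono g J (by omega)) (q_le _ _ _)
  have hA3 := h.g_left J 1 (i := q g J 0) (q_mono g J (by omega))
  set γ : ℤ := g (q g J 0) with hγ
  have hγ1 : g (q g J 1) = γ := by
    apply le_antisymm <;> linarith
  have hγ0 : 0 ≤ γ := h.nonneg _
  rw [hγ1] at h1 hA1
  push_cast at hL
  set z0 : ℤ := (q g J 1 : ℤ) - q g J 0 with hz0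
  set z1 : ℤ := (q g J 2 : ℤ) - q g J 1 with hz1
  set zm : ℤ := (q g J 0 : ℤ) - q g J (-1) with hzm
  have hG : 2 * γ + 2 * J - z1 - zm - 2 * z0 ≤ g 0 + g J := by nlinarith
  have hsum : β * (z1 + zm + 2 * z0) ≤ 4 * γ + 4 * β := by nlinarith
  have h5 : z1 + zm + 2 * z0 ≤ 2 * γ + 4 := by
    have : β * (z1 + zm + 2 * z0) ≤ β * (2 * γ + 4) := by nlinarith
    exact le_of_mul_le_mul_left this (by linarith)
  linarith

end ConvRun

end Pool.Agent.helper356_nill
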