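import Mathlib
import Pool.Agent.helper356_nill.Numeric

/-!
Abstract part: an integer valued function on the integer vectors which behaves like the support
function of a smooth lattice polytope all of whose facets are at lattice distance at least `β`.
-/

namespace Pool.Agent.helper356_nill

open Matrix

/-- The properties of the support function that are used. -/
structure GoodSupport (n : ℕ) (b : (Fin n → ℤ) → ℤ) (β : ℤ) : Prop where
  sub : ∀ w w', b (w + w') ≤ b w + b w'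
  hom : ∀ (k : ℕ) w, b (k • w) = k * b w
  key : ∀ w w', b w + b w' = b (w + w') →
    ∃ (e : Module.Basis (Fin n) ℤ (Fin n → ℤ)) (c : Fin n → ℤ), (∀ j, β ≤ c j) ∧
      (∀ j, w ⬝ᵥ e j ≤ 0) ∧ (∀ j, w' ⬝ᵥ e j ≤ 0) ∧
      b w = -∑ j, c j * (w ⬝ᵥ e j) ∧ b w' = -∑ j, c j * (w' ⬝ᵥ e j)

/-- An integer vector orthogonal to a basis is zero. -/
theorem eq_zero_of_dot_basis {n : ℕ} (e : Module.Basis (Fin n) ℤ (Fin n → ℤ)) (w : Fin n → ℤ)
    (h : ∀ j, w ⬝ᵥ e j = 0) : w = 0 := by
  have h2 : ∀ x : Fin n → ℤ, w ⬝ᵥ x = 0 := by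
    intro x
    have hx := e.sum_repr x
    rw [← hx, dotProduct_sum]
    apply Finset.sum_eq_zero
    intro j _
    rw [dotProduct_smul, h j, smul_zero]
  exact dotProduct_eq_zero w h2

namespace GoodSupport

variable {n : ℕ} {b : (Fin n → ℤ) → ℤ} {β : ℤ}

theorem zero (hb : GoodSupport n b β) : b 0 = 0 := by
  have := hb.hom 0 0
  simpa using this

theorem exists_ne (e : Module.Basis (Fin n) ℤ (Fin n → ℤ)) {w : Fin n → ℤ} (hw : w ≠ 0) :
    ∃ j, w ⬝ᵥ e j ≠ 0 := by
  by_contra hcon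
  push Not at hcon
  exact hw (eq_zero_of_dot_basis e w hcon)

/-- lower bound for a sum of nonnegative terms by one term -/
theorem lower (hβ : 1 ≤ β) {c : Fin n → ℤ} (hc : ∀ j, β ≤ c j) {x : Fin n → ℤ}
    (hx : ∀ j, x j ≤ 0) (j : Fin n) : β * (- x j) ≤ -∑ j, c j * x j := by
  have h1 : -∑ j, c j * x j = ∑ j, c j * (- x j) := by
    rw [← Finset.sum_neg_distrib]; congr 1; ext j; ring
  rw [h1]
  calc β * (- x j) ≤ c j * (- x j) := by
        apply mul_le_mul_of_nonneg_right (hc j); have := hx j; omega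
    _ ≤ ∑ j, c j * (- x j) := by
        apply Finset.single_le_sum (f := fun j => c j * (- x j)) _ (Finset.mem_univ j)
        intro i _
        have h2 := hc i
        have h3 := hx i
        have : 0 ≤ c i := by omega
        have h4 : 0 ≤ - x i := by omega
        positivity

theorem pos (hb : GoodSupport n b β) (hβ : 1 ≤ β) {w : Fin n → ℤ} (hw : w ≠ 0) : β ≤ b w := by
  obtain ⟨e, c, hc, hwe, -, hbw, -⟩ := hb.key w 0 (by rw [hb.zero]; simp)
  obtain ⟨j, hj⟩ := exists_ne e hw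
  have h1 := lower hβ hc hwe j
  rw [← hbw] at h1
  have h2 := hwe j
  have h3 : 1 ≤ -(w ⬝ᵥ e j) := by omega
  nlinarith

theorem nonneg (hb : GoodSupport n b β) (hβ : 1 ≤ β) (w : Fin n → ℤ) : 0 ≤ b w := by
  by_cases hw : w = 0
  · rw [hw, hb.zero]
  · have := hb.pos hβ hw; omega

/-- Along a stretch where `b` is affine with slope of absolute value less than `β`,
both end values are at least `β` times the (even) length. -/
theorem run (hb : GoodSupport n b β) (hβ : 1 ≤ β) {l : Fin n → ℤ} (hl : l ≠ 0)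
    (w : Fin n → ℤ) (m : ℕ) (d : ℤ) (hd : |d| < β)
    (h1 : b w + b (w - (2 * m) • l) = 2 * b (w - m • l))
    (h2 : b (w - (2 * m) • l) = b w + 2 * m * d) :
    β * (2 * m) ≤ b w ∧ β * (2 * m) ≤ b (w - (2 * m) • l) := by
  rcases Nat.eq_zero_or_pos m with hm | hm
  · subst hm
    simp only [Nat.cast_zero, mul_zero, zero_smul, sub_zero]
    exact ⟨hb.nonneg hβ w, hb.nonneg hβ w⟩
  have h3 : b w + b (w - (2 * m) • l) = b (w + (w - (2 * m) • l)) := by
    rw [h1]
    have : w + (w - (2 * m) • l) = 2 • (w - m • l) := by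
      rw [smul_sub, smul_smul, two_smul]; abel
    rw [this, hb.hom]; norm_num
  obtain ⟨e, c, hc, hwe, hwe', hbw, hbw'⟩ := hb.key _ _ h3
  have hx : ∀ j, (w - (2 * m) • l) ⬝ᵥ e j = w ⬝ᵥ e j - 2 * m * (l ⬝ᵥ e j) := by
    intro j
    rw [sub_dotProduct, smul_dotProduct]
    simp
  have hmm : (1 : ℤ) ≤ m := by exact_mod_cast hm
  -- slope formula
  have hslope : d = ∑ j, c j * (l ⬝ᵥ e j) := by
    have h4 : b (w - (2 * m) • l) = b w + 2 * m * ∑ j, c j * (l ⬝ᵥ e j) := by
      rw [hbw', hbw, Finset.mul_sum, ← Finset.sum_neg_distrib, ← Finset.sum_neg_distrib,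
        ← Finset.sum_add_distrib]
      apply Finset.sum_congr rfl
      intro j _
      rw [hx j]; ring
    rw [h2] at h4
    have h5 : 2 * (m : ℤ) * d = 2 * m * ∑ j, c j * (l ⬝ᵥ e j) := by linarith
    exact mul_left_cancel₀ (by omega) h5
  -- both signs occur
  have hposs : ∃ j, 1 ≤ l ⬝ᵥ e j := by
    by_contra hcon
    push Not at hcon
    have hle : ∀ j, l ⬝ᵥ e j ≤ 0 := fun j => by have := hcon j; omega
    obtain ⟨j, hj⟩ := exists_ne e hl
    have h6 := lower hβ hc hle j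
    have h7 := hle j
    have h8 : 1 ≤ -(l ⬝ᵥ e j) := by omega
    rw [← hslope] at h6
    have h9 : β ≤ β * -(l ⬝ᵥ e j) := by nlinarith
    have := neg_abs_le d
    omega
  have hnegs : ∃ j, l ⬝ᵥ e j ≤ -1 := by
    by_contra hcon
    push Not at hcon
    have hle : ∀ j, -(l ⬝ᵥ e j) ≤ 0 := fun j => by have := hcon j; omega
    obtain ⟨j, hj⟩ := exists_ne e hl
    have h6 := lower hβ hc hle j
    have h7 := hle j
    have h8 : 1 ≤ (l ⬝ᵥ e j) := by omega
    have h10 : -∑ j, c j * -(l ⬝ᵥ e j) = d := by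
      rw [hslope, ← Finset.sum_neg_distrib]; congr 1; ext j; ring
    rw [h10] at h6
    have h9 : β ≤ β * - -(l ⬝ᵥ e j) := by nlinarith
    have := le_abs_self d
    omega
  constructor
  · obtain ⟨j, hj⟩ := hnegs
    have h6 := lower hβ hc hwe j
    rw [← hbw] at h6
    have h7 := hwe' j
    rw [hx j] at h7
    have h8 : 2 * (m : ℤ) ≤ - (w ⬝ᵥ e j) := by nlinarith
    nlinarith
  · obtain ⟨j, hj⟩ := hposs
    have h6 := lower hβ hc hwe' j
    rw [← hbw'] at h6
    have h7 := hwe j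
    have h8 : 2 * (m : ℤ) ≤ - ((w - (2 * m) • l) ⬝ᵥ e j) := by rw [hx j]; nlinarith
    nlinarith

theorem convRun (hb : GoodSupport n b β) (hβ : 1 ≤ β) {l : Fin n → ℤ} (hl : l ≠ 0)
    (Y : Fin n → ℤ) : ConvRun (fun i => b (Y - i • l)) β where
  nonneg i := hb.nonneg hβ _
  conv i := by
    show 2 * b (Y - (i + 1) • l) ≤ b (Y - i • l) + b (Y - (i + 2) • l)
    have h1 := hb.sub (Y - i • l) (Y - (i + 2) • l)
    have h2 : (Y - i • l) + (Y - (i + 2) • l) = 2 • (Y - (i + 1) • l) := by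
      rw [smul_sub, smul_smul, two_smul, add_smul, mul_add, add_smul, mul_one, two_mul, add_smul]
      abel
    rw [h2, hb.hom] at h1
    exact_mod_cast h1
  run i m d hd h1 h2 := by
    have e1 : Y - (i + 2 * m) • l = (Y - i • l) - (2 * m) • l := by rw [add_smul]; abel
    have e2 : Y - (i + m) • l = (Y - i • l) - m • l := by rw [add_smul]; abel
    simp only [e1, e2] at h1 h2 ⊢
    exact hb.run hβ hl (Y - i • l) m d hd h1 h2

theorem main (hb : GoodSupport n b β) (hβ : 1 ≤ β) {l : Fin n → ℤ} (hl : l ≠ 0)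
    (Y : Fin n → ℤ) (J s : ℕ) (hs : 1 ≤ s)
    (hsβ : (s : ℤ) * (2 * s - 1) ≤ 2 * β) (hsβ' : (s : ℤ) ≤ β) :
    (s : ℤ) * J - s * (2 * s - 1) ≤ b Y + b (Y - J • l) := by
  have := (hb.convRun hβ hl Y).main hβ J s hs hsβ hsβ'
  simpa using this

theorem main_two (hb : GoodSupport n b β) (hβ : 2 ≤ β) {l : Fin n → ℤ} (hl : l ≠ 0)
    (Y : Fin n → ℤ) (J : ℕ) :
    2 * (J : ℤ) - 4 ≤ b Y + b (Y - J • l) := by
  have := (hb.convRun (by omega) hl Y).main_two hβ J
  simpa using this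

end GoodSupport

end Pool.Agent.helper356_nill
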