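import Mathlib

/-!
Definitions: lattice polytopes, faces, vertices, edges, smooth lattice polytopes, facet normals.
-/

namespace Pool.Agent.helper356_nill

open Matrix

/-- An integer vector viewed as a real vector. -/
def toR {n : ℕ} (z : Fin n → ℤ) : Fin n → ℝ := fun i => (z i : ℝ)

/-- A lattice polytope is the convex hull of finitely many integer points. -/
def IsLatticePolytope {n : ℕ} (P : Set (Fin n → ℝ)) : Prop :=
  ∃ V : Finset (Fin n → ℤ), P = convexHull ℝ (toR '' (V : Set (Fin n → ℤ)))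

/-- The face of `P` on which the linear functional `φ` is maximal. -/
def faceOf {n : ℕ} (P : Set (Fin n → ℝ)) (φ : Fin n → ℝ) : Set (Fin n → ℝ) :=
  {x | x ∈ P ∧ ∀ y ∈ P, φ ⬝ᵥ y ≤ φ ⬝ᵥ x}

/-- `v` is a vertex of `P`: the set `{v}` is a face. -/
def IsVertex {n : ℕ} (P : Set (Fin n → ℝ)) (v : Fin n → ℝ) : Prop :=
  ∃ φ : Fin n → ℝ, faceOf P φ = {v}

/-- The segment from `v` to `w` is an edge (a one-dimensional face) of `P`. -/
def IsEdge {n : ℕ} (P : Set (Fin n → ℝ)) (v w : Fin n → ℝ) : Prop :=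
  v ≠ w ∧ ∃ φ : Fin n → ℝ, faceOf P φ = segment ℝ v w

/-- Primitive integer vectors. -/
def IsPrimitive {n : ℕ} (d : Fin n → ℤ) : Prop :=
  d ≠ 0 ∧ ∀ (k : ℤ) (e : Fin n → ℤ), d = k • e → k = 1 ∨ k = -1

/-- The primitive integer vectors pointing from `v` along the edges of `P` at `v`. -/
def edgeDirs {n : ℕ} (P : Set (Fin n → ℝ)) (v : Fin n → ℝ) : Set (Fin n → ℤ) :=
  {d | IsPrimitive d ∧ ∃ w, IsEdge P v w ∧ ∃ t : ℝ, 0 < t ∧ w = v + t • toR d}

/-- `P` is smooth: every vertex lies on exactly `n` edges, and the primitive vectors along these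
edges form a basis of the integer lattice. -/
def IsSmooth {n : ℕ} (P : Set (Fin n → ℝ)) : Prop :=
  ∀ v, IsVertex P v → {w | IsEdge P v w}.ncard = n ∧
    ∃ b : Module.Basis (Fin n) ℤ (Fin n → ℤ), Set.range b = edgeDirs P v

/-- `u` is the primitive outer normal of a facet: the face of `P` on which `u` is maximal contains
`n` affinely independent points. -/
def IsFacetNormal {n : ℕ} (P : Set (Fin n → ℝ)) (u : Fin n → ℤ) : Prop :=
  IsPrimitive u ∧ ∃ p : Fin n → (Fin n → ℝ), AffineIndependent ℝ p ∧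
    ∀ i, p i ∈ faceOf P (toR u)

end Pool.Agent.helper356_nill
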