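import Mathlib
import Pool.Agent.helper356_nill.Defs

/-!
Elementary facts about faces of lattice polytopes.
-/

namespace Pool.Agent.helper356_nill

open Matrix

variable {n : ℕ}

theorem toR_add (x y : Fin n → ℤ) : toR (x + y) = toR x + toR y := by
  ext i; simp [toR]

theorem toR_sub (x y : Fin n → ℤ) : toR (x - y) = toR x - toR y := by
  ext i; simp [toR]

theorem toR_neg (x : Fin n → ℤ) : toR (-x) = - toR x := by
  ext i; simp [toR]

theorem toR_zero : toR (0 : Fin n → ℤ) = 0 := by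
  ext i; simp [toR]

theorem toR_smul (k : ℤ) (x : Fin n → ℤ) : toR (k • x) = (k : ℝ) • toR x := by
  ext i; simp [toR]

theorem toR_nsmul (k : ℕ) (x : Fin n → ℤ) : toR (k • x) = (k : ℝ) • toR x := by
  ext i; simp [toR]

theorem toR_sum {ι : Type*} (s : Finset ι) (f : ι → (Fin n → ℤ)) :
    toR (∑ i ∈ s, f i) = ∑ i ∈ s, toR (f i) := by
  ext i; simp [toR, Finset.sum_apply]

theorem toR_dot (x y : Fin n → ℤ) : toR x ⬝ᵥ toR y = ((x ⬝ᵥ y : ℤ) : ℝ) := by
  simp [toR, dotProduct]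

theorem toR_injective : Function.Injective (toR : (Fin n → ℤ) → (Fin n → ℝ)) := by
  intro x y h
  ext i
  have := congrFun h i
  simpa [toR] using this

theorem dot_pos {x : Fin n → ℝ} (hx : x ≠ 0) : 0 < x ⬝ᵥ x := by
  have h1 : 0 ≤ x ⬝ᵥ x := by
    simp only [dotProduct]; exact Finset.sum_nonneg (fun i _ => mul_self_nonneg _)
  rcases h1.eq_or_lt with h | h
  · exact absurd (dotProduct_self_eq_zero.mp h.symm) hx
  · exact h

/-- strict version of Cauchy-Schwarz for the farthest point -/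
theorem dot_lt_of_farthest {s t : Fin n → ℝ} (hst : t ≠ s) (h : t ⬝ᵥ t ≤ s ⬝ᵥ s) :
    s ⬝ᵥ t < s ⬝ᵥ s := by
  have h1 : 0 < (t - s) ⬝ᵥ (t - s) := dot_pos (sub_ne_zero.mpr hst)
  rw [sub_dotProduct, dotProduct_sub, dotProduct_sub, dotProduct_comm t s] at h1
  linarith

/-- In a finite nonempty set of points, some maximizer of `g` is the unique maximizer of a
functional of the form `T • g + s`. -/
theorem exists_exposed (S : Finset (Fin n → ℝ)) (hS : S.Nonempty) (g : Fin n → ℝ) :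
    ∃ s ∈ S, ∃ T : ℝ, (∀ t ∈ S, g ⬝ᵥ t ≤ g ⬝ᵥ s) ∧
      ∀ t ∈ S, t ≠ s → (T • g + s) ⬝ᵥ t < (T • g + s) ⬝ᵥ s := by
  classical
  obtain ⟨s0, hs0, hmax0⟩ := Finset.exists_max_image S (fun x => g ⬝ᵥ x) hS
  set F := S.filter (fun x => g ⬝ᵥ x = g ⬝ᵥ s0) with hF
  have hFne : F.Nonempty := ⟨s0, by simp [hF, hs0]⟩
  obtain ⟨s, hs, hmax⟩ := Finset.exists_max_image F (fun x => x ⬝ᵥ x) hFne
  have hsS : s ∈ S := (Finset.mem_filter.mp hs).1
  have hgs : g ⬝ᵥ s = g ⬝ᵥ s0 := (Finset.mem_filter.mp hs).2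
  have hev : ∀ t ∈ S, ∀ᶠ T : ℝ in Filter.atTop,
      t ≠ s → (T • g + s) ⬝ᵥ t < (T • g + s) ⬝ᵥ s := by
    intro t ht
    by_cases hgt : g ⬝ᵥ t = g ⬝ᵥ s0
    · apply Filter.Eventually.of_forall
      intro T hts
      have h1 := dot_lt_of_farthest hts (hmax t (by simp [hF, ht, hgt]))
      rw [add_dotProduct, add_dotProduct, smul_dotProduct, smul_dotProduct, hgt, hgs]
      linarith
    · have hlt : g ⬝ᵥ t < g ⬝ᵥ s := by
        rw [hgs]; exact lt_of_le_of_ne (hmax0 t ht) hgt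
      filter_upwards [Filter.eventually_gt_atTop ((s ⬝ᵥ t - s ⬝ᵥ s) / (g ⬝ᵥ s - g ⬝ᵥ t))] with T hT _
      rw [div_lt_iff₀ (by linarith)] at hT
      rw [add_dotProduct, add_dotProduct, smul_dotProduct, smul_dotProduct, smul_eq_mul,
        smul_eq_mul]
      nlinarith
  rw [← Filter.eventually_all_finset] at hev
  obtain ⟨T, hT⟩ := hev.exists
  exact ⟨s, hsS, T, fun t ht => by rw [hgs]; exact hmax0 t ht, hT⟩

/-- A linear inequality valid on the generating points is valid on the polytope. -/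
theorem dot_le_of_convexHull {W : Set (Fin n → ℝ)} {φ : Fin n → ℝ} {M : ℝ}
    (h : ∀ x ∈ W, φ ⬝ᵥ x ≤ M) {x : Fin n → ℝ} (hx : x ∈ convexHull ℝ W) : φ ⬝ᵥ x ≤ M := by
  have hconv : Convex ℝ {x : Fin n → ℝ | φ ⬝ᵥ x ≤ M} := by
    apply convex_halfSpace_le
    exact ⟨fun x y => dotProduct_add φ x y, fun c x => dotProduct_smul c φ x⟩
  exact convexHull_min (fun x hx => h x hx) hconv hx

/-- The face of a polytope is the convex hull of the generating points in it. -/
theorem faceOf_convexHull {W : Set (Fin n → ℝ)} {φ : Fin n → ℝ} {M : ℝ}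
    (h : ∀ x ∈ W, φ ⬝ᵥ x ≤ M) (hne : ∃ x ∈ W, φ ⬝ᵥ x = M) :
    faceOf (convexHull ℝ W) φ = convexHull ℝ {x | x ∈ W ∧ φ ⬝ᵥ x = M} := by
  obtain ⟨x0, hx0, hx0M⟩ := hne
  set G := {x | x ∈ W ∧ φ ⬝ᵥ x = M} with hG
  have hGle : ∀ x ∈ convexHull ℝ G, φ ⬝ᵥ x = M := by
    intro x hx
    apply le_antisymm
    · exact dot_le_of_convexHull (fun y hy => hy.2.le) hx
    · have h1 : (-φ) ⬝ᵥ x ≤ -M :=
        dot_le_of_convexHull (fun y hy => by rw [neg_dotProduct, hy.2]) hx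
      rw [neg_dotProduct] at h1
      linarith
  have hconv : Convex ℝ ({x : Fin n → ℝ | φ ⬝ᵥ x < M} ∪ convexHull ℝ G) := by
    intro x hx y hy a b ha hb hab
    have hle : ∀ z ∈ ({x : Fin n → ℝ | φ ⬝ᵥ x < M} ∪ convexHull ℝ G), φ ⬝ᵥ z ≤ M := by
      intro z hz
      rcases hz with hz | hz
      · exact le_of_lt hz
      · exact (hGle z hz).le
    rcases ha.eq_or_lt with ha0 | ha0
    · have hb1 : b = 1 := by rw [← ha0] at hab; linarith
      rw [← ha0, hb1]; simpa using hy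
    rcases hb.eq_or_lt with hb0 | hb0
    · have ha1 : a = 1 := by rw [← hb0] at hab; linarith
      rw [← hb0, ha1]; simpa using hx
    rcases hx with hx | hx
    · left
      show φ ⬝ᵥ (a • x + b • y) < M
      rw [dotProduct_add, dotProduct_smul, dotProduct_smul, smul_eq_mul, smul_eq_mul]
      have h1 : φ ⬝ᵥ x < M := hx
      have h2 := hle y hy
      have h3 : a * (φ ⬝ᵥ x) < a * M := mul_lt_mul_of_pos_left h1 ha0
      have h4 : b * (φ ⬝ᵥ y) ≤ b * M := mul_le_mul_of_nonneg_left h2 hb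
      have h5 : a * M + b * M = M := by rw [← add_mul, hab, one_mul]
      linarith
    · rcases hy with hy | hy
      · left
        show φ ⬝ᵥ (a • x + b • y) < M
        rw [dotProduct_add, dotProduct_smul, dotProduct_smul, smul_eq_mul, smul_eq_mul]
        have h1 : φ ⬝ᵥ y < M := hy
        have h2 := hGle x hx
        have h3 : b * (φ ⬝ᵥ y) < b * M := mul_lt_mul_of_pos_left h1 hb0
        have h5 : a * M + b * M = M := by rw [← add_mul, hab, one_mul]
        rw [h2]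
        linarith
      · right
        exact (convex_convexHull ℝ G) hx hy ha hb hab
  have hsub : convexHull ℝ W ⊆ ({x : Fin n → ℝ | φ ⬝ᵥ x < M} ∪ convexHull ℝ G) := by
    apply convexHull_min _ hconv
    intro x hx
    rcases (h x hx).eq_or_lt with h1 | h1
    · right; exact subset_convexHull ℝ G ⟨hx, h1⟩
    · left; exact h1
  ext x
  constructor
  · intro hx
    rcases hsub hx.1 with h1 | h1
    · have h2 := hx.2 x0 (subset_convexHull ℝ W hx0)
      have h3 : φ ⬝ᵥ x < M := h1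
      linarith
    · exact h1
  · intro hx
    refine ⟨convexHull_mono (fun y hy => hy.1) hx, ?_⟩
    intro y hy
    rw [hGle x hx]
    exact dot_le_of_convexHull h hy

/-- vertices belong to the generating set -/
theorem IsVertex.mem {W : Set (Fin n → ℝ)} (hW : W.Finite) {v : Fin n → ℝ}
    (hv : IsVertex (convexHull ℝ W) v) : v ∈ W ∧ ∃ φ : Fin n → ℝ,
      ∀ x ∈ W, x ≠ v → φ ⬝ᵥ x < φ ⬝ᵥ v := by
  obtain ⟨φ, hφ⟩ := hv
  have hvP : v ∈ faceOf (convexHull ℝ W) φ := by rw [hφ]; rfl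
  have hWne : W.Nonempty := by
    rw [← convexHull_nonempty_iff (𝕜 := ℝ)]
    exact ⟨v, hvP.1⟩
  obtain ⟨x0, hx0, hmax⟩ := hW.exists_maximalFor (fun x => φ ⬝ᵥ x) W hWne
  have hmax' : ∀ x ∈ W, φ ⬝ᵥ x ≤ φ ⬝ᵥ x0 := by
    intro x hx
    rcases le_total (φ ⬝ᵥ x) (φ ⬝ᵥ x0) with h | h
    · exact h
    · exact hmax hx h
  have hface := faceOf_convexHull hmax' ⟨x0, hx0, rfl⟩
  rw [hφ] at hface
  have hx0v : x0 = v := by
    have : x0 ∈ ({v} : Set (Fin n → ℝ)) := by
      rw [hface]; exact subset_convexHull ℝ _ ⟨hx0, rfl⟩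
    exact this
  subst hx0v
  refine ⟨hx0, φ, ?_⟩
  intro x hx hne
  rcases (hmax' x hx).eq_or_lt with h | h
  · exfalso; apply hne
    have : x ∈ ({x0} : Set (Fin n → ℝ)) := by
      rw [hface]; exact subset_convexHull ℝ _ ⟨hx, h⟩
    exact this
  · exact h

end Pool.Agent.helper356_nill
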