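import Mathlib
import Pool.Agent.helper356_nill.Faces

/-!
The edge cone theorem: at a vertex of a polytope, a functional that does not increase along the
edges is maximal at the vertex.
-/

namespace Pool.Agent.helper356_nill

open Matrix

variable {n : ℕ}

theorem exists_edge_up {W : Set (Fin n → ℝ)} (hW : W.Finite) {v : Fin n → ℝ}
    (hv : IsVertex (convexHull ℝ W) v) (g : Fin n → ℝ) {x : Fin n → ℝ}
    (hx : x ∈ convexHull ℝ W) (hgx : g ⬝ᵥ v < g ⬝ᵥ x) :
    ∃ w ∈ W, IsEdge (convexHull ℝ W) v w ∧ g ⬝ᵥ v < g ⬝ᵥ w := by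
  classical
  obtain ⟨hvW, φ, hφ⟩ := hv.mem hW
  obtain ⟨x1, hx1, hgx1⟩ : ∃ x1 ∈ W, g ⬝ᵥ v < g ⬝ᵥ x1 := by
    by_contra hcon
    push Not at hcon
    have := dot_le_of_convexHull hcon hx
    linarith
  have hx1v : x1 ≠ v := by rintro rfl; exact lt_irrefl _ hgx1
  set D : Finset (Fin n → ℝ) := hW.toFinset.erase v with hD
  have hDmem : ∀ x, x ∈ D ↔ x ≠ v ∧ x ∈ W := by
    intro x; simp [hD]
  set a : (Fin n → ℝ) → ℝ := fun x => φ ⬝ᵥ v - φ ⬝ᵥ x with ha
  have hapos : ∀ x ∈ D, 0 < a x := by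
    intro x hx
    have := (hDmem x).mp hx
    have := hφ x this.2 this.1
    simp only [ha]; linarith
  set s : (Fin n → ℝ) → (Fin n → ℝ) := fun x => (a x)⁻¹ • (x - v) with hs
  have hsx : ∀ x ∈ D, x = v + a x • s x := by
    intro x hx
    simp only [hs]
    rw [smul_smul, mul_inv_cancel₀ (hapos x hx).ne', one_smul]; abel
  have hx1D : x1 ∈ D := (hDmem x1).mpr ⟨hx1v, hx1⟩
  obtain ⟨s0, hs0, T, hgmax, huniq⟩ := exists_exposed (D.image s) ⟨s x1, Finset.mem_image_of_mem s hx1D⟩ g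
  set g' : Fin n → ℝ := T • g + s0 with hg'
  set lam : ℝ := g' ⬝ᵥ s0 with hlam
  set ψ : Fin n → ℝ := g' + lam • φ with hψ
  have hψx : ∀ x ∈ D, ψ ⬝ᵥ x = ψ ⬝ᵥ v + a x * (g' ⬝ᵥ s x - lam) := by
    intro x hx
    have h1 : g' ⬝ᵥ x = g' ⬝ᵥ v + a x * (g' ⬝ᵥ s x) := by
      conv_lhs => rw [hsx x hx]
      rw [dotProduct_add, dotProduct_smul, smul_eq_mul]
    have e1 : ∀ y, ψ ⬝ᵥ y = g' ⬝ᵥ y + lam * (φ ⬝ᵥ y) := by
      intro y
      rw [hψ, add_dotProduct g' (lam • φ) y, smul_dotProduct, smul_eq_mul]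
    rw [e1, e1, h1]
    simp only [ha]; ring
  have hψle : ∀ x ∈ W, ψ ⬝ᵥ x ≤ ψ ⬝ᵥ v := by
    intro x hx
    by_cases hxv : x = v
    · rw [hxv]
    · have hxD : x ∈ D := (hDmem x).mpr ⟨hxv, hx⟩
      rw [hψx x hxD]
      by_cases hss : s x = s0
      · rw [hss]; simp [hlam]
      · have := huniq (s x) (Finset.mem_image_of_mem s hxD) hss
        have h2 := hapos x hxD
        nlinarith
  have hψeq : ∀ x ∈ D, ψ ⬝ᵥ x = ψ ⬝ᵥ v → s x = s0 := by
    intro x hxD hxe
    by_contra hss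
    have := huniq (s x) (Finset.mem_image_of_mem s hxD) hss
    have h2 := hapos x hxD
    rw [hψx x hxD] at hxe
    nlinarith
  -- the farthest point of the face
  obtain ⟨x0, hx0D, hx0s⟩ := Finset.mem_image.mp hs0
  set G : Finset (Fin n → ℝ) := D.filter (fun x => s x = s0) with hG
  have hGne : G.Nonempty := ⟨x0, by simp [hG, hx0D, hx0s]⟩
  obtain ⟨w, hwG, hwmax⟩ := Finset.exists_max_image G a hGne
  have hwD : w ∈ D := (Finset.mem_filter.mp hwG).1
  have hws : s w = s0 := (Finset.mem_filter.mp hwG).2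
  have hww := (hDmem w).mp hwD
  have hweq : w = v + a w • s0 := by rw [← hws]; exact hsx w hwD
  have hface := faceOf_convexHull hψle ⟨v, hvW, rfl⟩
  have hseg : convexHull ℝ {x | x ∈ W ∧ ψ ⬝ᵥ x = ψ ⬝ᵥ v} = segment ℝ v w := by
    apply Set.Subset.antisymm
    · apply convexHull_min _ (convex_segment v w)
      intro x hx
      by_cases hxv : x = v
      · rw [hxv]; exact left_mem_segment ℝ v w
      · have hxD : x ∈ D := (hDmem x).mpr ⟨hxv, hx.1⟩
        have hss := hψeq x hxD hx.2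
        have hxG : x ∈ G := by simp [hG, hxD, hss]
        have h1 := hwmax x hxG
        have h2 := hapos x hxD
        have h3 := hapos w hwD
        rw [segment_eq_image']
        refine ⟨a x / a w, ⟨by positivity, by rw [div_le_one h3]; exact h1⟩, ?_⟩
        have h4 : w - v = a w • s0 := by
          have h9 := hsx w hwD
          rw [hws] at h9
          exact sub_eq_iff_eq_add'.mpr h9
        show v + (a x / a w) • (w - v) = x
        rw [h4, smul_smul, div_mul_cancel₀ _ h3.ne']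
        conv_rhs => rw [hsx x hxD, hss]
    · apply (convex_convexHull ℝ _).segment_subset
      · exact subset_convexHull ℝ _ ⟨hvW, rfl⟩
      · apply subset_convexHull ℝ _
        refine ⟨hww.2, ?_⟩
        rw [hψx w hwD, hws]; simp [hlam]
  refine ⟨w, hww.2, ⟨hww.1.symm, ψ, ?_⟩, ?_⟩
  · rw [hface, hseg]
  · have h1 := hgmax (s x1) (Finset.mem_image_of_mem s hx1D)
    have h2 : 0 < g ⬝ᵥ s x1 := by
      have h3 : g ⬝ᵥ x1 = g ⬝ᵥ v + a x1 * (g ⬝ᵥ s x1) := by
        conv_lhs => rw [hsx x1 hx1D]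
        rw [dotProduct_add, dotProduct_smul, smul_eq_mul]
      have h4 := hapos x1 hx1D
      by_contra hcon
      push Not at hcon
      nlinarith
    have h5 := hapos w hwD
    have h6 : g ⬝ᵥ w = g ⬝ᵥ v + a w * (g ⬝ᵥ s0) := by
      have h9 : g ⬝ᵥ w = g ⬝ᵥ (v + a w • s0) := congrArg (fun y => g ⬝ᵥ y) hweq
      rw [h9, dotProduct_add, dotProduct_smul, smul_eq_mul]
    rw [h6]
    have h7 : 0 < g ⬝ᵥ s0 := by linarith
    have h8 : 0 < a w * (g ⬝ᵥ s0) := mul_pos h5 h7
    linarith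

/-- Every nonzero integer vector is a positive multiple of a primitive one. -/
theorem exists_primitive {z : Fin n → ℤ} (hz : z ≠ 0) :
    ∃ (k : ℤ) (d : Fin n → ℤ), 0 < k ∧ IsPrimitive d ∧ z = k • d := by
  classical
  have hne : (Finset.univ : Finset (Fin n)).Nonempty := by
    by_contra h
    rw [Finset.not_nonempty_iff_eq_empty] at h
    apply hz
    ext i
    have : i ∈ (Finset.univ : Finset (Fin n)) := Finset.mem_univ i
    rw [h] at this
    exact absurd this (Finset.notMem_empty i)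
  obtain ⟨d, hd, hgcd⟩ := Finset.extract_gcd z hne
  set k := Finset.univ.gcd z with hk
  have hzk : z = k • d := by
    ext i; rw [Pi.smul_apply, smul_eq_mul]; exact hd i (Finset.mem_univ i)
  have hk0 : k ≠ 0 := by
    intro h; apply hz; rw [hzk, h, zero_smul]
  have hknn : 0 ≤ k := by
    have h1 : normalize k = k := Finset.normalize_gcd
    exact Int.nonneg_of_normalize_eq_self h1
  refine ⟨k, d, lt_of_le_of_ne hknn (Ne.symm hk0), ⟨?_, ?_⟩, hzk⟩
  · rintro rfl; apply hz; rw [hzk, smul_zero]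
  · intro k' e hke
    have h1 : k' ∣ Finset.univ.gcd d := by
      apply Finset.dvd_gcd
      intro i _
      exact ⟨e i, by rw [hke]; simp⟩
    rw [hgcd] at h1
    have h2 : IsUnit k' := isUnit_of_dvd_one h1
    exact Int.isUnit_iff.mp h2

end Pool.Agent.helper356_nill
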