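import Mathlib
import Pool.Agent.helper356_nill.Cone
import Pool.Agent.helper356_nill.Abstract

/-!
The support function of a smooth lattice polytope with the origin in its interior.
-/

namespace Pool.Agent.helper356_nill

open Matrix

variable {n : ℕ}

/-- Values of the support function at integer vectors. -/
noncomputable def bZ (V : Finset (Fin n → ℤ)) (hV : V.Nonempty) (w : Fin n → ℤ) : ℤ :=
  V.sup' hV (fun v => w ⬝ᵥ v)

theorem le_bZ {V : Finset (Fin n → ℤ)} (hV : V.Nonempty) (w : Fin n → ℤ) {v : Fin n → ℤ}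
    (hv : v ∈ V) : w ⬝ᵥ v ≤ bZ V hV w :=
  Finset.le_sup' (fun v => w ⬝ᵥ v) hv

theorem exists_bZ {V : Finset (Fin n → ℤ)} (hV : V.Nonempty) (w : Fin n → ℤ) :
    ∃ v ∈ V, bZ V hV w = w ⬝ᵥ v :=
  Finset.exists_mem_eq_sup' hV (fun v => w ⬝ᵥ v)

theorem dot_le_bZ {V : Finset (Fin n → ℤ)} (hV : V.Nonempty) (w : Fin n → ℤ) {x : Fin n → ℝ}
    (hx : x ∈ convexHull ℝ (toR '' (V : Set (Fin n → ℤ)))) : toR w ⬝ᵥ x ≤ bZ V hV w := by
  apply dot_le_of_convexHull _ hx
  rintro _ ⟨v, hv, rfl⟩
  rw [toR_dot]
  exact_mod_cast le_bZ hV w hv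

theorem bZ_sub {V : Finset (Fin n → ℤ)} (hV : V.Nonempty) (w w' : Fin n → ℤ) :
    bZ V hV (w + w') ≤ bZ V hV w + bZ V hV w' := by
  obtain ⟨v, hv, h⟩ := exists_bZ hV (w + w')
  rw [h, add_dotProduct]
  have h1 := le_bZ hV w hv
  have h2 := le_bZ hV w' hv
  linarith

theorem bZ_hom {V : Finset (Fin n → ℤ)} (hV : V.Nonempty) (k : ℕ) (w : Fin n → ℤ) :
    bZ V hV (k • w) = k * bZ V hV w := by
  apply le_antisymm
  · obtain ⟨v, hv, h⟩ := exists_bZ hV (k • w)
    rw [h, smul_dotProduct, nsmul_eq_mul]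
    exact mul_le_mul_of_nonneg_left (le_bZ hV w hv) (by positivity)
  · obtain ⟨v, hv, h⟩ := exists_bZ hV w
    rw [h]
    have h1 := le_bZ hV (k • w) hv
    rw [smul_dotProduct, nsmul_eq_mul] at h1
    exact h1

theorem exists_vertex {V : Finset (Fin n → ℤ)} (hV : V.Nonempty) (w : Fin n → ℤ) :
    ∃ v ∈ V, IsVertex (convexHull ℝ (toR '' (V : Set (Fin n → ℤ)))) (toR v) ∧
      w ⬝ᵥ v = bZ V hV w := by
  classical
  obtain ⟨s, hs, T, hmax, huniq⟩ := exists_exposed (V.image toR) (hV.image _) (toR w)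
  obtain ⟨v, hv, rfl⟩ := Finset.mem_image.mp hs
  refine ⟨v, hv, ⟨T • toR w + toR v, ?_⟩, ?_⟩
  · have hle : ∀ x ∈ toR '' (V : Set (Fin n → ℤ)),
        (T • toR w + toR v) ⬝ᵥ x ≤ (T • toR w + toR v) ⬝ᵥ toR v := by
      intro x hx
      by_cases hxv : x = toR v
      · rw [hxv]
      · apply (huniq x _ hxv).le
        obtain ⟨y, hy, rfl⟩ := hx
        exact Finset.mem_image_of_mem _ hy
    rw [faceOf_convexHull hle ⟨toR v, ⟨v, hv, rfl⟩, rfl⟩]
    have : {x | x ∈ toR '' (V : Set (Fin n → ℤ)) ∧
        (T • toR w + toR v) ⬝ᵥ x = (T • toR w + toR v) ⬝ᵥ toR v} = {toR v} := by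
      ext x
      simp only [Set.mem_ofPred_eq, Set.mem_singleton_iff]
      constructor
      · rintro ⟨hx, hxe⟩
        by_contra hxv
        obtain ⟨y, hy, rfl⟩ := hx
        have := huniq (toR y) (Finset.mem_image_of_mem _ hy) hxv
        linarith
      · rintro rfl
        exact ⟨⟨v, hv, rfl⟩, rfl⟩
    rw [this, convexHull_singleton]
  · apply le_antisymm (le_bZ hV w hv)
    obtain ⟨v', hv', h⟩ := exists_bZ hV w
    rw [h]
    have := hmax (toR v') (Finset.mem_image_of_mem _ hv')
    rw [toR_dot, toR_dot] at this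
    exact_mod_cast this

/-- minus the dual basis, as integer vectors -/
noncomputable def dualVec (b : Module.Basis (Fin n) ℤ (Fin n → ℤ)) (j : Fin n) : Fin n → ℤ :=
  fun i => -(b.repr (Pi.single i 1) j)

theorem dualVec_dot (b : Module.Basis (Fin n) ℤ (Fin n → ℤ)) (j : Fin n) (x : Fin n → ℤ) :
    dualVec b j ⬝ᵥ x = -(b.repr x j) := by
  have hx : x = ∑ i, x i • (Pi.single i (1 : ℤ) : Fin n → ℤ) := by
    ext k
    simp [Finset.sum_apply, Pi.single_apply]
  conv_rhs => rw [hx]
  rw [map_sum, Finsupp.coe_finsetSum, Finset.sum_apply]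
  simp only [map_smul, Finsupp.smul_apply, smul_eq_mul, dotProduct, dualVec]
  rw [← Finset.sum_neg_distrib]
  apply Finset.sum_congr rfl
  intro i _
  ring

theorem dualVec_dot_basis (b : Module.Basis (Fin n) ℤ (Fin n → ℤ)) (j k : Fin n) :
    dualVec b j ⬝ᵥ b k = if k = j then -1 else 0 := by
  rw [dualVec_dot, b.repr_self, Finsupp.single_apply]
  split_ifs <;> simp

theorem dualVec_ne_zero (b : Module.Basis (Fin n) ℤ (Fin n → ℤ)) (j : Fin n) :
    dualVec b j ≠ 0 := by
  intro h
  have := dualVec_dot_basis b j j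
  rw [h] at this
  simp at this

theorem dualVec_primitive (b : Module.Basis (Fin n) ℤ (Fin n → ℤ)) (j : Fin n) :
    IsPrimitive (dualVec b j) := by
  refine ⟨dualVec_ne_zero b j, ?_⟩
  intro k e h
  have h1 := dualVec_dot_basis b j j
  rw [h, smul_dotProduct] at h1
  simp only [if_true, smul_eq_mul] at h1
  have h2 : IsUnit k := by
    rw [isUnit_iff_exists_inv]
    exact ⟨-(e ⬝ᵥ b j), by linarith⟩
  exact Int.isUnit_iff.mp h2

/-- the polytope lies in the cone spanned by the edges at a vertex -/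
theorem cone_at_vertex {V : Finset (Fin n → ℤ)} {v : Fin n → ℤ}
    (hv : IsVertex (convexHull ℝ (toR '' (V : Set (Fin n → ℤ)))) (toR v))
    (g : Fin n → ℝ)
    (hg : ∀ d ∈ edgeDirs (convexHull ℝ (toR '' (V : Set (Fin n → ℤ)))) (toR v),
      g ⬝ᵥ toR d ≤ 0) {x : Fin n → ℝ}
    (hx : x ∈ convexHull ℝ (toR '' (V : Set (Fin n → ℤ)))) : g ⬝ᵥ x ≤ g ⬝ᵥ toR v := by
  by_contra hcon
  push Not at hcon
  obtain ⟨w, ⟨w', hw', rfl⟩, hedge, hgw⟩ :=
    exists_edge_up (V.finite_toSet.image _) hv g hx hcon
  have hz : w' - v ≠ 0 := by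
    intro h
    rw [sub_eq_zero] at h
    rw [h] at hgw
    exact lt_irrefl _ hgw
  obtain ⟨k, d, hk, hd, hkd⟩ := exists_primitive hz
  have hkR : (0 : ℝ) < k := by exact_mod_cast hk
  have h1 : toR w' = toR v + (k : ℝ) • toR d := by
    rw [← toR_smul, ← hkd, toR_sub]; abel
  have h2 := hg d ⟨hd, toR w', hedge, (k : ℝ), hkR, h1⟩
  rw [h1, dotProduct_add, dotProduct_smul, smul_eq_mul] at hgw
  nlinarith

theorem exists_pos_smul_mem {P : Set (Fin n → ℝ)} (h0 : (0 : Fin n → ℝ) ∈ interior P)
    (u : Fin n → ℝ) : ∃ t : ℝ, 0 < t ∧ t • u ∈ P := by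
  have h1 : Filter.Tendsto (fun t : ℝ => t • u) (nhds 0) (nhds 0) := by
    have : Continuous (fun t : ℝ => t • u) := by fun_prop
    have h2 := this.tendsto 0
    simpa using h2
  have h2 : ∀ᶠ t in nhds (0 : ℝ), t • u ∈ P :=
    h1.eventually (mem_interior_iff_mem_nhds.mp h0)
  have h3 : ∀ᶠ t in nhdsWithin (0 : ℝ) (Set.Ioi 0), t • u ∈ P := h2.filter_mono nhdsWithin_le_nhds
  obtain ⟨t, ht1, ht2⟩ := (h3.and self_mem_nhdsWithin).exists
  exact ⟨t, ht2, ht1⟩

theorem edge_mem {P : Set (Fin n → ℝ)} {v w : Fin n → ℝ} (h : IsEdge P v w) : w ∈ P := by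
  obtain ⟨-, φ, hφ⟩ := h
  have : w ∈ faceOf P φ := by rw [hφ]; exact right_mem_segment ℝ v w
  exact this.1

/-- Main geometric statement: the support function of a smooth lattice polytope containing the
origin in its interior has the required properties. -/
theorem goodSupport {P : Set (Fin n → ℝ)} {V : Finset (Fin n → ℤ)} (hV : V.Nonempty)
    (hP : P = convexHull ℝ (toR '' (V : Set (Fin n → ℤ))))
    (h0 : (0 : Fin n → ℝ) ∈ interior P) (hs : IsSmooth P) (β : ℤ)
    (hβ : β ≤ 1 ∨ ∀ u, IsFacetNormal P u → ∀ x ∈ faceOf P (toR u), (β : ℝ) ≤ toR u ⬝ᵥ x) :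
    GoodSupport n (bZ V hV) β where
  sub := bZ_sub hV
  hom := bZ_hom hV
  key := by
    intro w w' hww
    obtain ⟨v, hvV, hvert, hvw⟩ := exists_vertex hV (w + w')
    rw [add_dotProduct] at hvw
    have h1 := le_bZ hV w hvV
    have h2 := le_bZ hV w' hvV
    have hw : w ⬝ᵥ v = bZ V hV w := by linarith
    have hw' : w' ⬝ᵥ v = bZ V hV w' := by linarith
    rw [← hP] at hvert
    obtain ⟨-, b, hb⟩ := hs (toR v) hvert
    have hbe : ∀ j, b j ∈ edgeDirs P (toR v) := fun j => by rw [← hb]; exact Set.mem_range_self j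
    have hmemP : ∀ x ∈ V, toR x ∈ P := by
      intro x hx; rw [hP]; exact subset_convexHull ℝ _ ⟨x, hx, rfl⟩
    have hneg : ∀ w : Fin n → ℤ, w ⬝ᵥ v = bZ V hV w → ∀ j, w ⬝ᵥ b j ≤ 0 := by
      intro w hw j
      obtain ⟨-, x, hx, t, ht, hxt⟩ := hbe j
      have h3 := edge_mem hx
      have h4 : toR w ⬝ᵥ x ≤ bZ V hV w := dot_le_bZ hV w (by rw [← hP]; exact h3)
      rw [hxt, dotProduct_add, dotProduct_smul, toR_dot, toR_dot, hw, smul_eq_mul] at h4
      have h5 : t * ((w ⬝ᵥ b j : ℤ) : ℝ) ≤ 0 := by linarith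
      have h6 : ((w ⬝ᵥ b j : ℤ) : ℝ) ≤ 0 := by
        by_contra hcon
        push Not at hcon
        have := mul_pos ht hcon
        linarith
      exact_mod_cast h6
    have hrep : ∀ w : Fin n → ℤ, w ⬝ᵥ v = -∑ j, (dualVec b j ⬝ᵥ v) * (w ⬝ᵥ b j) := by
      intro w
      conv_lhs => rw [← b.sum_repr v]
      rw [dotProduct_sum, ← Finset.sum_neg_distrib]
      apply Finset.sum_congr rfl
      intro j _
      rw [dotProduct_smul, dualVec_dot, smul_eq_mul]; ring
    -- the dual vectors are maximal at `v`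
    have hmax : ∀ j, ∀ x ∈ P, toR (dualVec b j) ⬝ᵥ x ≤ toR (dualVec b j) ⬝ᵥ toR v := by
      intro j x hx
      rw [hP] at hx hvert
      apply cone_at_vertex hvert (toR (dualVec b j)) _ hx
      rw [← hP, ← hb]
      rintro _ ⟨k, rfl⟩
      rw [toR_dot, dualVec_dot_basis]
      split_ifs <;> norm_num
    have hone : ∀ j, 1 ≤ dualVec b j ⬝ᵥ v := by
      intro j
      obtain ⟨t, ht, htP⟩ := exists_pos_smul_mem h0 (toR (dualVec b j))
      have h3 := hmax j _ htP
      rw [dotProduct_smul, toR_dot, toR_dot, smul_eq_mul] at h3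
      have h4 : 0 < toR (dualVec b j) ⬝ᵥ toR (dualVec b j) := by
        apply dot_pos
        intro h
        apply dualVec_ne_zero b j
        apply toR_injective
        rw [h, toR_zero]
      rw [toR_dot] at h4
      have h5 : (0 : ℝ) < ((dualVec b j ⬝ᵥ v : ℤ) : ℝ) := lt_of_lt_of_le (mul_pos ht h4) h3
      have h6 : 0 < dualVec b j ⬝ᵥ v := by exact_mod_cast h5
      omega
    have hc : ∀ j, β ≤ dualVec b j ⬝ᵥ v := by
      intro j
      rcases hβ with hβ | hβ
      · exact hβ.trans (hone j)
      · have hvface : toR v ∈ faceOf P (toR (dualVec b j)) := ⟨hmemP v hvV, fun y hy => hmax j y hy⟩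
        have hfn : IsFacetNormal P (dualVec b j) := by
          refine ⟨dualVec_primitive b j, ?_⟩
          -- the other ends of the edges
          choose hprim x hx t ht hxt using hbe
          classical
          refine ⟨fun k => if k = j then toR v else x k, ?_, ?_⟩
          · rw [affineIndependent_iff_linearIndependent_vsub ℝ _ j]
            have hlin : LinearIndependent ℝ (fun k : Fin n => t k • toR (b k)) := by
              rw [Fintype.linearIndependent_iff]
              intro a ha k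
              have h3 : toR (dualVec b k) ⬝ᵥ (∑ i, a i • (t i • toR (b i))) = 0 := by
                rw [ha, dotProduct_zero]
              rw [dotProduct_sum, Finset.sum_eq_single k] at h3
              · rw [dotProduct_smul, dotProduct_smul, toR_dot, dualVec_dot_basis] at h3
                simp only [if_true, smul_eq_mul] at h3
                have h4 := (ht k).ne'
                have h5 : a k * t k = 0 := by push_cast at h3; linarith
                rcases mul_eq_zero.mp h5 with h6 | h6
                · exact h6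
                · exact absurd h6 h4
              · intro i _ hik
                rw [dotProduct_smul, dotProduct_smul, toR_dot, dualVec_dot_basis]
                simp [hik]
              · intro h; exact absurd (Finset.mem_univ k) h
            have h7 := hlin.comp (fun i : {y // y ≠ j} => (i : Fin n)) Subtype.val_injective
            have h10 : (fun i : {y // y ≠ j} =>
                ((if (i : Fin n) = j then toR v else x (i : Fin n)) -ᵥ
                  (if j = j then toR v else x j) : Fin n → ℝ)) =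
                (fun k : Fin n => t k • toR (b k)) ∘ (fun i : {y // y ≠ j} => (i : Fin n)) := by
              ext i k
              have h8 : (i : Fin n) ≠ j := i.2
              simp only [h8, if_false, if_true, Function.comp]
              have h9 := hxt (i : Fin n)
              rw [h9]
              simp
            rw [h10]
            exact h7
          · intro k
            by_cases hkj : k = j
            · simp only [hkj, if_true]; exact hvface
            · simp only [hkj, if_false]
              refine ⟨edge_mem (hx k), ?_⟩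
              intro y hy
              have h3 : toR (dualVec b j) ⬝ᵥ x k = toR (dualVec b j) ⬝ᵥ toR v := by
                rw [hxt k, dotProduct_add, dotProduct_smul, toR_dot, toR_dot, dualVec_dot_basis]
                simp [hkj]
              rw [h3]
              exact hmax j y hy
        have h3 := hβ _ hfn _ hvface
        rw [toR_dot] at h3
        exact_mod_cast h3
    refine ⟨b, fun j => dualVec b j ⬝ᵥ v, hc, hneg w hw, hneg w' hw', ?_, ?_⟩
    · rw [← hw]; exact hrep w
    · rw [← hw']; exact hrep w'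

end Pool.Agent.helper356_nill
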