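import Mathlib
import Pool.Agent.helper356_nill.Support

/-!
From inequalities for the support function to points of `P ∩ -P`.
-/

namespace Pool.Agent.helper356_nill

open Matrix

variable {n : ℕ}

/-- real version of an inequality known at integer points -/
theorem real_of_int {V : Finset (Fin n → ℤ)} (hV : V.Nonempty) {l : Fin n → ℤ} {ν C0 : ℝ}
    (h : ∀ (Y : Fin n → ℤ) (J : ℕ), ν * J - C0 ≤ bZ V hV Y + bZ V hV (Y - J • l))
    (y : Fin n → ℝ) (a b : ℝ) (ha : ∀ v ∈ V, y ⬝ᵥ toR v ≤ a)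
    (hb : ∀ v ∈ V, (y - toR l) ⬝ᵥ toR v ≤ b) : ν ≤ a + b := by
  set C : ℝ := ∑ v ∈ V, ∑ i, |toR v i| with hC
  have hCz : ∀ v ∈ V, ∀ z : Fin n → ℝ, (∀ i, |z i| ≤ 1) → |z ⬝ᵥ toR v| ≤ C := by
    intro v hv z hz
    calc |z ⬝ᵥ toR v| ≤ ∑ i, |z i * toR v i| := by
          simp only [dotProduct]; exact Finset.abs_sum_le_sum_abs _ _
      _ ≤ ∑ i, |toR v i| := by
          apply Finset.sum_le_sum
          intro i _
          rw [abs_mul]
          have := hz i
          nlinarith [abs_nonneg (toR v i)]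
      _ ≤ C := by
          rw [hC]
          apply Finset.single_le_sum (f := fun v => ∑ i, |toR v i|) _ hv
          intro w _
          exact Finset.sum_nonneg (fun i _ => abs_nonneg _)
  have key : ∀ J : ℕ, ν * J - C0 ≤ J * (a + b) + 2 * C := by
    intro J
    set Y : Fin n → ℤ := fun i => ⌊(J : ℝ) * y i⌋ with hY
    set z : Fin n → ℝ := (J : ℝ) • y - toR Y with hz
    have hz1 : ∀ i, |z i| ≤ 1 := by
      intro i
      have e1 : z i = (J : ℝ) * y i - ⌊(J : ℝ) * y i⌋ := rfl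
      rw [e1, abs_le]
      constructor
      · have := Int.floor_le ((J : ℝ) * y i); linarith
      · have := Int.lt_floor_add_one ((J : ℝ) * y i); linarith
    have hYz : toR Y = (J : ℝ) • y - z := by rw [hz]; abel
    obtain ⟨v1, hv1, h1⟩ := exists_bZ hV Y
    obtain ⟨v2, hv2, h2⟩ := exists_bZ hV (Y - J • l)
    have e1 : ((Y ⬝ᵥ v1 : ℤ) : ℝ) ≤ J * a + C := by
      rw [← toR_dot, hYz, sub_dotProduct, smul_dotProduct, smul_eq_mul]
      have h3 := ha v1 hv1
      have h4 := (abs_le.mp (hCz v1 hv1 z hz1)).1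
      have h5 : (J : ℝ) * (y ⬝ᵥ toR v1) ≤ J * a := mul_le_mul_of_nonneg_left h3 (by positivity)
      linarith
    have e2 : (((Y - J • l) ⬝ᵥ v2 : ℤ) : ℝ) ≤ J * b + C := by
      have e3 : toR (Y - J • l) = (J : ℝ) • (y - toR l) - z := by
        rw [toR_sub, hYz, toR_nsmul, smul_sub]; abel
      rw [← toR_dot, e3, sub_dotProduct, smul_dotProduct, smul_eq_mul]
      have h3 := hb v2 hv2
      have h4 := (abs_le.mp (hCz v2 hv2 z hz1)).1
      have h5 : (J : ℝ) * ((y - toR l) ⬝ᵥ toR v2) ≤ J * b :=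
        mul_le_mul_of_nonneg_left h3 (by positivity)
      linarith
    have h3 := h Y J
    rw [h1, h2] at h3
    linarith
  by_contra hcon
  push Not at hcon
  obtain ⟨J, hJ⟩ := exists_nat_gt ((C0 + 2 * C) / (ν - (a + b)))
  rw [div_lt_iff₀ (by linarith)] at hJ
  have := key J
  nlinarith

theorem clm_apply (f : ((Fin n → ℝ) × ℝ) →L[ℝ] ℝ) (z : Fin n → ℝ) (r : ℝ) :
    f (z, r) = (fun i => f (Pi.single i 1, 0)) ⬝ᵥ z + r * f (0, 1) := by
  have h1 : (z, r) = ∑ i, z i • ((Pi.single i (1 : ℝ) : Fin n → ℝ), (0 : ℝ)) + r • ((0 : Fin n → ℝ), (1 : ℝ)) := by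
    ext k
    · simp [Prod.fst_sum, Finset.sum_apply, Pi.single_apply]
    · simp [Prod.snd_sum]
  rw [h1, map_add, map_sum, map_smul]
  simp only [map_smul, smul_eq_mul, dotProduct]
  congr 1
  apply Finset.sum_congr rfl
  intro i _
  ring

/-- duality: points of `P ∩ -P` with large value of an integer functional -/
theorem exists_point {P : Set (Fin n → ℝ)} {V : Finset (Fin n → ℤ)} (hV : V.Nonempty)
    (hP : P = convexHull ℝ (toR '' (V : Set (Fin n → ℤ)))) (h0 : (0 : Fin n → ℝ) ∈ P)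
    {l : Fin n → ℤ} {ν C0 : ℝ} (hν : 0 < ν)
    (h : ∀ (Y : Fin n → ℤ) (J : ℕ), ν * J - C0 ≤ bZ V hV Y + bZ V hV (Y - J • l)) :
    ∃ x ∈ P, -x ∈ P ∧ ν ≤ toR l ⬝ᵥ x := by
  classical
  have hPc : Convex ℝ P := by rw [hP]; exact convex_convexHull ℝ _
  have hPk : IsCompact P := by
    rw [hP]; exact (V.finite_toSet.image toR).isCompact_convexHull (𝕜 := ℝ)
  let L : ((Fin n → ℝ) × (Fin n → ℝ)) →ₗ[ℝ] ((Fin n → ℝ) × ℝ) :=
    { toFun := fun p => (p.1 + p.2, toR l ⬝ᵥ p.1)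
      map_add' := by
        intro p q
        ext1
        · show p.1 + q.1 + (p.2 + q.2) = p.1 + p.2 + (q.1 + q.2); abel
        · show toR l ⬝ᵥ (p.1 + q.1) = _; rw [dotProduct_add]; rfl
      map_smul' := by
        intro c p
        ext1
        · show c • p.1 + c • p.2 = c • (p.1 + p.2); rw [smul_add]
        · show toR l ⬝ᵥ (c • p.1) = _; rw [dotProduct_smul]; rfl }
  have hLc : Continuous L := L.continuous_of_finiteDimensional
  by_contra hcon
  push Not at hcon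
  set D := L '' (P ×ˢ P) with hD
  have hDc : Convex ℝ D := (hPc.prod hPc).linear_image L
  have hDk : IsCompact D := (hPk.prod hPk).image hLc
  set R : Set ((Fin n → ℝ) × ℝ) := {0} ×ˢ Set.Ici ν with hR
  have hRc : Convex ℝ R := (convex_singleton 0).prod (convex_Ici ν)
  have hRk : IsClosed R := isClosed_singleton.prod isClosed_Ici
  have hdisj : Disjoint D R := by
    rw [Set.disjoint_left]
    rintro _ ⟨⟨x, x''⟩, ⟨hx, hx''⟩, rfl⟩ ⟨h1, h2⟩
    have h3 : x + x'' = 0 := h1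
    have h4 : x'' = -x := by rw [add_comm] at h3; exact eq_neg_of_add_eq_zero_left h3
    have h5 := hcon x hx (by rw [← h4]; exact hx'')
    have h6 : ν ≤ toR l ⬝ᵥ x := h2
    linarith
  obtain ⟨f, u, v, hfu, huv, hvf⟩ := geometric_hahn_banach_compact_closed hDc hDk hRc hRk hdisj
  set φ : Fin n → ℝ := fun i => f (Pi.single i 1, 0) with hφ
  set τ : ℝ := f (0, 1) with hτ
  have hf : ∀ z r, f (z, r) = φ ⬝ᵥ z + r * τ := fun z r => clm_apply f z r
  have hvν : v < ν * τ := by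
    have := hvf (0, ν) ⟨rfl, Set.mem_Ici.mpr le_rfl⟩
    rw [hf] at this
    simpa using this
  have hPP : ∀ x ∈ P, ∀ x'' ∈ P, φ ⬝ᵥ (x + x'') + (toR l ⬝ᵥ x) * τ < u := by
    intro x hx x'' hx''
    have := hfu _ ⟨(x, x''), ⟨hx, hx''⟩, rfl⟩
    have e : L (x, x'') = (x + x'', toR l ⬝ᵥ x) := rfl
    rw [e, hf] at this
    exact this
  have hu0 : 0 < u := by
    have := hPP 0 h0 0 h0
    simpa using this
  have hτpos : 0 < τ := by
    by_contra hc
    push Not at hc
    nlinarith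
  have hmem : ∀ x ∈ V, toR x ∈ P := by
    intro x hx; rw [hP]; exact subset_convexHull ℝ _ ⟨x, hx, rfl⟩
  obtain ⟨v1, hv1, hm1⟩ := Finset.exists_max_image V (fun v => (φ + τ • toR l) ⬝ᵥ toR v) hV
  obtain ⟨v2, hv2, hm2⟩ := Finset.exists_max_image V (fun v => φ ⬝ᵥ toR v) hV
  have h1 := hPP _ (hmem v1 hv1) _ (hmem v2 hv2)
  have h2 := real_of_int hV h (τ⁻¹ • (φ + τ • toR l)) (τ⁻¹ * ((φ + τ • toR l) ⬝ᵥ toR v1))
    (τ⁻¹ * (φ ⬝ᵥ toR v2)) (by
      intro v hv
      rw [smul_dotProduct, smul_eq_mul]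
      exact mul_le_mul_of_nonneg_left (hm1 v hv) (by positivity)) (by
      intro v hv
      have e : τ⁻¹ • (φ + τ • toR l) - toR l = τ⁻¹ • φ := by
        rw [smul_add, smul_smul, inv_mul_cancel₀ hτpos.ne', one_smul]; abel
      rw [e, smul_dotProduct, smul_eq_mul]
      exact mul_le_mul_of_nonneg_left (hm2 v hv) (by positivity))
  rw [← mul_add, inv_mul_eq_div, le_div_iff₀ hτpos] at h2
  rw [add_dotProduct, smul_dotProduct, smul_eq_mul] at h2
  rw [dotProduct_add] at h1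
  nlinarith

end Pool.Agent.helper356_nill
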