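import Mathlib
import Pool.Agent.helper356_nill.Faces

/-!
Minkowski's theorem for the integer lattice and cross-polytopes.
-/

namespace Pool.Agent.helper356_nill

open Matrix MeasureTheory

variable {n : ℕ}

theorem mink_int [NeZero n] {s : Set (Fin n → ℝ)} (h_symm : ∀ x ∈ s, -x ∈ s)
    (h_conv : Convex ℝ s) (h_cpt : IsCompact s) (h : 2 ^ n ≤ volume s) :
    ∃ x : Fin n → ℤ, x ≠ 0 ∧ toR x ∈ s := by
  set L := (Submodule.span ℤ (Set.range (Pi.basisFun ℝ (Fin n)))).toAddSubgroup with hL
  have hcount : Countable L := by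
    change Countable (Submodule.span ℤ (Set.range (Pi.basisFun ℝ (Fin n))))
    infer_instance
  have hdisc : DiscreteTopology L := by
    change DiscreteTopology (Submodule.span ℤ (Set.range (Pi.basisFun ℝ (Fin n))))
    infer_instance
  have fund := ZSpan.isAddFundamentalDomain' (Pi.basisFun ℝ (Fin n)) volume
  have hvol : volume (ZSpan.fundamentalDomain (Pi.basisFun ℝ (Fin n))) = 1 := by
    rw [ZSpan.fundamentalDomain_pi_basisFun, volume_pi, Measure.pi_pi, Real.volume_Ico, sub_zero,
      ENNReal.ofReal_one, Finset.prod_const_one]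
  obtain ⟨x, hx0, hxs⟩ := exists_ne_zero_mem_lattice_of_measure_mul_two_pow_le_measure
    (μ := volume) (L := L) fund h_symm h_conv h_cpt (by
      rw [hvol, one_mul, Module.finrank_fin_fun]; exact h)
  have hxL : (x : Fin n → ℝ) ∈ Submodule.span ℤ (Set.range (Pi.basisFun ℝ (Fin n))) := x.2
  rw [Module.Basis.mem_span_iff_repr_mem] at hxL
  choose z hz using hxL
  have hxz : toR z = (x : Fin n → ℝ) := by
    ext i
    have := hz i
    simpa [toR] using this
  refine ⟨z, ?_, by rw [hxz]; exact hxs⟩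
  rintro rfl
  apply hx0
  ext i
  rw [← hxz]; simp [toR]

/-- volume of the cross-polytope -/
theorem volume_cross [NeZero n] {r : ℝ} (hr : 0 ≤ r) :
    volume {x : Fin n → ℝ | ∑ i, |x i| ≤ r} = ENNReal.ofReal ((2 * r) ^ n / n.factorial) := by
  have : Nonempty (Fin n) := ⟨⟨0, Nat.pos_of_ne_zero (NeZero.ne n)⟩⟩
  have h := MeasureTheory.volume_sum_rpow_le (ι := Fin n) (p := 1) le_rfl r
  simp only [Real.rpow_one, div_one, Fintype.card_fin] at h
  rw [h]
  have h2 : Real.Gamma (1 + 1) = 1 := by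
    have := Real.Gamma_nat_eq_factorial 1
    norm_num at this ⊢
  rw [h2, Real.Gamma_nat_eq_factorial, mul_one, ← ENNReal.ofReal_pow hr,
    ← ENNReal.ofReal_mul (by positivity), mul_pow]
  congr 1
  ring

theorem cross_compact (r : ℝ) : IsCompact {x : Fin n → ℝ | ∑ i, |x i| ≤ r} := by
  apply Metric.isCompact_of_isClosed_isBounded
  · apply isClosed_le (by fun_prop) continuous_const
  · rw [isBounded_iff_forall_norm_le]
    refine ⟨r, ?_⟩
    intro x hx
    have hx' : ∑ i, |x i| ≤ r := hx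
    have h0 : 0 ≤ r := le_trans (Finset.sum_nonneg (fun i _ => abs_nonneg _)) hx'
    rw [pi_norm_le_iff_of_nonneg h0]
    intro i
    rw [Real.norm_eq_abs]
    exact le_trans (Finset.single_le_sum (f := fun i => |x i|) (fun j _ => abs_nonneg _)
      (Finset.mem_univ i)) hx'

theorem cross_convex (r : ℝ) : Convex ℝ {x : Fin n → ℝ | ∑ i, |x i| ≤ r} := by
  intro x hx y hy a b ha hb hab
  have hx' : ∑ i, |x i| ≤ r := hx
  have hy' : ∑ i, |y i| ≤ r := hy
  show ∑ i, |(a • x + b • y) i| ≤ r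
  calc ∑ i, |(a • x + b • y) i| ≤ ∑ i, (a * |x i| + b * |y i|) := by
        apply Finset.sum_le_sum
        intro i _
        simp only [Pi.add_apply, Pi.smul_apply, smul_eq_mul]
        refine (abs_add_le _ _).trans ?_
        rw [abs_mul, abs_mul, abs_of_nonneg ha, abs_of_nonneg hb]
    _ = a * ∑ i, |x i| + b * ∑ i, |y i| := by
        rw [Finset.sum_add_distrib, Finset.mul_sum, Finset.mul_sum]
    _ ≤ a * r + b * r := by gcongr
    _ = r := by rw [← add_mul, hab, one_mul]

/-- Linear forms version of Minkowski's theorem for the `ℓ¹` norm. -/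
theorem mink_forms [NeZero n] (f : (Fin n → ℝ) →ₗ[ℝ] (Fin n → ℝ)) (hf : LinearMap.det f ≠ 0)
    {r : ℝ} (hr : 0 ≤ r) (h : |LinearMap.det f| * n.factorial ≤ r ^ n) :
    ∃ x : Fin n → ℤ, x ≠ 0 ∧ ∑ i, |f (toR x) i| ≤ r := by
  have hfc : Continuous f := f.continuous_of_finiteDimensional
  set e := f.equivOfDetNeZero hf with he
  have heq : f ⁻¹' {x : Fin n → ℝ | ∑ i, |x i| ≤ r} = e.symm '' {x : Fin n → ℝ | ∑ i, |x i| ≤ r} := by
    rw [LinearEquiv.image_symm_eq_preimage]; rfl
  obtain ⟨x, hx0, hx⟩ := mink_int (s := f ⁻¹' {x : Fin n → ℝ | ∑ i, |x i| ≤ r}) (by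
      intro x hx
      show ∑ i, |f (-x) i| ≤ r
      have hx' : ∑ i, |f x i| ≤ r := hx
      simpa [map_neg] using hx') ((cross_convex r).linear_preimage f) (by
      rw [heq]
      exact (cross_compact r).image (LinearMap.continuous_of_finiteDimensional (e.symm : (Fin n → ℝ) →ₗ[ℝ] (Fin n → ℝ)))) (by
      rw [Measure.addHaar_preimage_linearMap volume hf, volume_cross hr,
        ← ENNReal.ofReal_mul (abs_nonneg _)]
      rw [show (2 : ENNReal) ^ n = ENNReal.ofReal (2 ^ n) by
        rw [ENNReal.ofReal_pow (by norm_num)]; norm_num]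
      apply ENNReal.ofReal_le_ofReal
      rw [abs_inv, mul_pow, mul_div_assoc, inv_mul_eq_div, le_div_iff₀ (abs_pos.mpr hf)]
      have h1 : (0 : ℝ) < n.factorial := by exact_mod_cast n.factorial_pos
      have h2 : |LinearMap.det f| ≤ r ^ n / n.factorial := by
        rw [le_div_iff₀ h1]; exact h
      exact mul_le_mul_of_nonneg_left h2 (by positivity))
  exact ⟨x, hx0, hx⟩

end Pool.Agent.helper356_nill
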