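import Mathlib
import Pool.Agent.helper356_nill.Mink
import Pool.Agent.helper356_nill.Support

/-!
Symmetric convex bodies, all of whose widths in lattice directions are large, contain short
lattice vectors.
-/

namespace Pool.Agent.helper356_nill

open Matrix MeasureTheory

variable {n : ℕ}

structure SymBody (K : Set (Fin n → ℝ)) : Prop where
  convex : Convex ℝ K
  compact : IsCompact K
  symm : ∀ x ∈ K, -x ∈ K
  int : (0 : Fin n → ℝ) ∈ interior K

def Wide (K : Set (Fin n → ℝ)) (ν : ℝ) : Prop :=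
  ∀ l : Fin n → ℤ, l ≠ 0 → ∃ z ∈ K, ν ≤ toR l ⬝ᵥ z

theorem SymBody.zero_mem {K : Set (Fin n → ℝ)} (hK : SymBody K) : (0 : Fin n → ℝ) ∈ K :=
  interior_subset hK.int

theorem SymBody.smul_mem {K : Set (Fin n → ℝ)} (hK : SymBody K) {t : ℝ} (ht : |t| ≤ 1)
    {x : Fin n → ℝ} (hx : x ∈ K) : t • x ∈ K := by
  rcases le_total 0 t with h | h
  · rw [abs_of_nonneg h] at ht
    exact hK.convex.smul_mem_of_zero_mem hK.zero_mem hx ⟨h, ht⟩
  · rw [abs_of_nonpos h] at ht
    have h2 := hK.convex.smul_mem_of_zero_mem hK.zero_mem (hK.symm x hx)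
      (⟨by linarith, ht⟩ : -t ∈ Set.Icc (0 : ℝ) 1)
    simpa using h2

theorem SymBody.sum_mem {K : Set (Fin n → ℝ)} (hK : SymBody K) {ι : Type*} [Fintype ι]
    (s : ι → ℝ) (X : ι → (Fin n → ℝ)) (hX : ∀ i, X i ∈ K) (hs : ∑ i, |s i| ≤ 1) :
    ∑ i, s i • X i ∈ K := by
  rcases (Finset.sum_nonneg (fun i (_ : i ∈ Finset.univ) => abs_nonneg (s i))).eq_or_lt with h0 | h0
  · have h1 : ∀ i, s i = 0 := by
      intro i
      have := (Finset.sum_eq_zero_iff_of_nonneg (fun i _ => abs_nonneg (s i))).mp h0.symm i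
        (Finset.mem_univ i)
      exact abs_eq_zero.mp this
    have : ∑ i, s i • X i = 0 := Finset.sum_eq_zero (fun i _ => by rw [h1 i, zero_smul])
    rw [this]; exact hK.zero_mem
  · set S := ∑ i, |s i| with hS
    have h1 : ∑ i, (|s i| / S) • (SignType.sign (s i) : ℝ) • X i ∈ K := by
      apply hK.convex.sum_mem
      · intro i _; positivity
      · rw [← Finset.sum_div]; exact div_self h0.ne'
      · intro i _
        apply hK.smul_mem _ (hX i)
        rcases lt_trichotomy (s i) 0 with h | h | h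
        · simp [h]
        · simp [h]
        · simp [h]
    have h2 := hK.smul_mem (t := S) (by rw [abs_of_pos h0]; exact hs) h1
    convert h2 using 1
    rw [Finset.smul_sum]
    apply Finset.sum_congr rfl
    intro i _
    rw [smul_smul, smul_smul]
    congr 1
    rw [mul_div_cancel₀ _ h0.ne', abs_mul_sign]

theorem maxdet {K : Set (Fin n → ℝ)} (hK : SymBody K) :
    ∃ X : Matrix (Fin n) (Fin n) ℝ, (∀ i, X i ∈ K) ∧ 0 < X.det ∧
      ∀ z ∈ K, ∃ ζ : Fin n → ℝ, (∀ i, |ζ i| ≤ 1) ∧ z = ∑ i, ζ i • X i := by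
  have hS : IsCompact (Set.pi Set.univ (fun _ : Fin n => K)) :=
    isCompact_univ_pi (fun _ => hK.compact)
  have hne : (Set.pi Set.univ (fun _ : Fin n => K)).Nonempty :=
    ⟨fun _ => 0, fun i _ => hK.zero_mem⟩
  have hcont : Continuous (fun X : Fin n → (Fin n → ℝ) => Matrix.det (Matrix.of X)) := by
    apply Continuous.matrix_det
    exact continuous_id
  obtain ⟨X, hX, hmax⟩ := hS.exists_isMaxOn hne hcont.continuousOn
  have hmax' : ∀ Y : Fin n → (Fin n → ℝ), (∀ i, Y i ∈ K) →
      Matrix.det (Matrix.of Y) ≤ Matrix.det (Matrix.of X) := by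
    intro Y hY
    exact hmax (fun i _ => hY i)
  have hpos : 0 < Matrix.det (Matrix.of X) := by
    have h1 : ∀ i : Fin n, ∃ t : ℝ, 0 < t ∧ t • (Pi.single i (1 : ℝ) : Fin n → ℝ) ∈ K :=
      fun i => exists_pos_smul_mem hK.int _
    choose t ht htK using h1
    refine lt_of_lt_of_le ?_ (hmax' (fun i => t i • Pi.single i 1) htK)
    have : Matrix.of (fun i => t i • (Pi.single i (1 : ℝ) : Fin n → ℝ)) = Matrix.diagonal t := by
      ext i j
      simp only [Matrix.of_apply, Pi.smul_apply, smul_eq_mul, Matrix.diagonal_apply]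
      by_cases h : i = j
      · subst h; simp
      · simp [h]
    rw [this, Matrix.det_diagonal]
    exact Finset.prod_pos (fun i _ => ht i)
  refine ⟨Matrix.of X, fun i => hX i (Set.mem_univ i), hpos, ?_⟩
  intro z hz
  set A := Matrix.of X with hA
  refine ⟨fun i => (A.updateRow i z).det / A.det, ?_, ?_⟩
  · intro i
    have hup : ∀ y ∈ K, (A.updateRow i y).det ≤ A.det := by
      intro y hy
      apply hmax' (A.updateRow i y)
      intro j
      by_cases hj : j = i
      · subst hj; rw [Matrix.updateRow_self]; exact hy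
      · rw [Matrix.updateRow_ne hj]; exact hX j (Set.mem_univ j)
    have h1 := hup z hz
    have h2 := hup (-z) (hK.symm z hz)
    have h3 : (A.updateRow i (-z)).det = -(A.updateRow i z).det := by
      have := Matrix.det_updateRow_smul A i (-1 : ℝ) z
      simpa using this
    rw [h3] at h2
    rw [abs_div, abs_of_pos hpos, div_le_one hpos, abs_le]
    constructor <;> linarith
  · have h1 := Matrix.mulVec_cramer Aᵀ z
    rw [Matrix.det_transpose] at h1
    have h2 : z = A.det⁻¹ • (Aᵀ *ᵥ (Aᵀ.cramer z)) := by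
      rw [h1, smul_smul, inv_mul_cancel₀ hpos.ne', one_smul]
    rw [h2]
    ext k
    simp only [Pi.smul_apply, smul_eq_mul, Matrix.mulVec, dotProduct, Matrix.transpose_apply,
      Finset.sum_apply, Finset.mul_sum]
    apply Finset.sum_congr rfl
    intro i _
    rw [Matrix.cramer_transpose_apply, ← h2]
    ring

theorem exists_short [NeZero n] {K : Set (Fin n → ℝ)} (hK : SymBody K) {ν κ : ℝ} (hν : 0 < ν)
    (hw : Wide K ν) (hκ : 0 < κ) (hκn : (n.factorial : ℝ) ^ 2 ≤ κ ^ n) :
    ∃ x : Fin n → ℤ, x ≠ 0 ∧ ∃ y ∈ K, toR x = (κ / ν) • y := by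
  obtain ⟨X, hXK, hdet, hcoord⟩ := maxdet hK
  have hfac : (0 : ℝ) < n.factorial := by exact_mod_cast n.factorial_pos
  have hn : n ≠ 0 := NeZero.ne n
  -- lower bound for the determinant
  have h1 : ν ^ n ≤ n.factorial * X.det := by
    by_contra hcon
    push Not at hcon
    set r : ℝ := ((n.factorial : ℝ) * X.det) ^ ((n : ℝ)⁻¹) with hr
    have hr0 : 0 ≤ r := by positivity
    have hrn : r ^ n = n.factorial * X.det := by
      rw [hr]; exact Real.rpow_inv_natCast_pow (by positivity) hn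
    have hrν : r < ν := by
      apply lt_of_pow_lt_pow_left₀ n hν.le
      rw [hrn]; exact hcon
    obtain ⟨l, hl0, hl⟩ := mink_forms (Matrix.toLin' X) (by
      rw [LinearMap.det_toLin']; exact hdet.ne') hr0 (by
      rw [LinearMap.det_toLin', abs_of_pos hdet, hrn, mul_comm])
    obtain ⟨z, hz, hzν⟩ := hw l hl0
    obtain ⟨ζ, hζ, hzζ⟩ := hcoord z hz
    have h2 : toR l ⬝ᵥ z ≤ r := by
      refine le_trans ?_ hl
      rw [hzζ, dotProduct_sum]
      apply Finset.sum_le_sum
      intro i _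
      rw [dotProduct_smul, smul_eq_mul, Matrix.toLin'_apply]
      have h3 : (X *ᵥ toR l) i = toR l ⬝ᵥ X i := by
        rw [Matrix.mulVec, dotProduct_comm]
      rw [h3]
      calc ζ i * (toR l ⬝ᵥ X i) ≤ |ζ i * (toR l ⬝ᵥ X i)| := le_abs_self _
        _ = |ζ i| * |toR l ⬝ᵥ X i| := abs_mul _ _
        _ ≤ 1 * |toR l ⬝ᵥ X i| := mul_le_mul_of_nonneg_right (hζ i) (abs_nonneg _)
        _ = |toR l ⬝ᵥ X i| := one_mul _
    linarith
  -- a short lattice vector
  set r : ℝ := κ / ν with hr
  have hr0 : 0 < r := by positivity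
  have hdetT : (Xᵀ⁻¹).det = X.det⁻¹ := by
    rw [Matrix.det_nonsing_inv, Matrix.det_transpose, Ring.inverse_eq_inv']
  obtain ⟨x, hx0, hx⟩ := mink_forms (Matrix.toLin' (Xᵀ⁻¹)) (by
      rw [LinearMap.det_toLin', hdetT]; exact (inv_pos.mpr hdet).ne') hr0.le (by
      rw [LinearMap.det_toLin', hdetT, abs_of_pos (inv_pos.mpr hdet), hr, div_pow,
        le_div_iff₀ (by positivity), inv_mul_eq_div, div_mul_eq_mul_div, div_le_iff₀ hdet]
      nlinarith)
  refine ⟨x, hx0, ?_⟩
  set t : Fin n → ℝ := Matrix.toLin' (Xᵀ⁻¹) (toR x) with ht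
  have hxt : toR x = ∑ i, t i • X i := by
    have h2 : Xᵀ *ᵥ t = toR x := by
      rw [ht, Matrix.toLin'_apply, Matrix.mulVec_mulVec, Matrix.mul_nonsing_inv, Matrix.one_mulVec]
      rw [Matrix.det_transpose]; exact hdet.ne'.isUnit
    rw [← h2]
    ext k
    simp only [Matrix.mulVec, dotProduct, Matrix.transpose_apply, Finset.sum_apply, Pi.smul_apply,
      smul_eq_mul]
    apply Finset.sum_congr rfl
    intro i _
    ring
  refine ⟨∑ i, (t i / r) • X i, ?_, ?_⟩
  · apply hK.sum_mem _ _ hXK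
    have : ∑ i, |t i / r| = (∑ i, |t i|) / r := by
      rw [Finset.sum_div]
      apply Finset.sum_congr rfl
      intro i _
      rw [abs_div, abs_of_pos hr0]
    rw [this, div_le_one hr0]
    exact hx
  · rw [hxt, Finset.smul_sum]
    apply Finset.sum_congr rfl
    intro i _
    rw [smul_smul, mul_div_cancel₀ _ hr0.ne']

end Pool.Agent.helper356_nill
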