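import Mathlib
import Pool.Agent.helper356_nill.Body

/-!
Transference: a symmetric convex body with large widths in all lattice directions contains a
lattice basis.
-/

namespace Pool.Agent.helper356_nill

open Matrix

theorem bezout {n : ℕ} {d : Fin n → ℤ} (hd : IsPrimitive d) : ∃ a : Fin n → ℤ, a ⬝ᵥ d = 1 := by
  have hpr : (Ideal.span (Set.range d)).IsPrincipal := inferInstance
  obtain ⟨g, hg⟩ := hpr
  have h1 : ∀ i, ∃ e, d i = g * e := by
    intro i
    have h2 : d i ∈ Ideal.span (Set.range d) := Ideal.subset_span ⟨i, rfl⟩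
    rw [hg] at h2
    obtain ⟨e, he⟩ := Submodule.mem_span_singleton.mp h2
    exact ⟨e, by rw [← he, smul_eq_mul, mul_comm]⟩
  choose e he using h1
  have h3 := hd.2 g e (by ext i; rw [Pi.smul_apply, smul_eq_mul]; exact he i)
  have h4 : (1 : ℤ) ∈ Ideal.span (Set.range d) := by
    rw [hg]
    rcases h3 with h | h
    · rw [h]; exact Submodule.mem_span_singleton_self 1
    · rw [h]; exact Submodule.mem_span_singleton.mpr ⟨-1, by norm_num⟩
  rw [Ideal.mem_span_range_iff_exists_fun] at h4
  obtain ⟨c, hc⟩ := h4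
  exact ⟨c, hc⟩

/-- a primitive vector is the first vector of a lattice basis -/
theorem exists_basis_zero {n : ℕ} {d : Fin (n + 1) → ℤ} (hd : IsPrimitive d) :
    ∃ B : Module.Basis (Fin (n + 1)) ℤ (Fin (n + 1) → ℤ), B 0 = d := by
  obtain ⟨a, ha⟩ := bezout hd
  let φ : (Fin (n + 1) → ℤ) →ₗ[ℤ] ℤ :=
    { toFun := fun z => a ⬝ᵥ z
      map_add' := fun x y => dotProduct_add a x y
      map_smul' := fun c x => dotProduct_smul c a x }
  have hφ : ∀ z, φ z = a ⬝ᵥ z := fun z => rfl
  obtain ⟨m, ⟨bN⟩⟩ := Submodule.nonempty_basis_of_pid (Pi.basisFun ℤ (Fin (n + 1))) (LinearMap.ker φ)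
  have hli : ∀ (c : ℤ), ∀ x ∈ LinearMap.ker φ, c • d + x = 0 → c = 0 := by
    intro c x hx h
    have h1 : φ (c • d + x) = 0 := by rw [h, map_zero]
    rw [map_add, map_smul, LinearMap.mem_ker.mp hx, hφ, ha] at h1
    simpa using h1
  have hsp : ∀ z : Fin (n + 1) → ℤ, ∃ c : ℤ, z + c • d ∈ LinearMap.ker φ := by
    intro z
    refine ⟨-(φ z), ?_⟩
    rw [LinearMap.mem_ker, map_add, map_smul, hφ d, ha]
    simp
  let B' := Module.Basis.mkFinCons d bN hli hsp
  have hcard : m + 1 = n + 1 := by
    have h1 := Module.finrank_eq_card_basis B'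
    have h2 : Module.finrank ℤ (Fin (n + 1) → ℤ) = n + 1 := Module.finrank_fin_fun ℤ
    rw [h2, Fintype.card_fin] at h1
    exact h1.symm
  have hm : m = n := by omega
  subst hm
  refine ⟨B', ?_⟩
  have := Module.Basis.coe_mkFinCons d bN hli hsp
  rw [show (B' 0) = (Module.Basis.mkFinCons d bN hli hsp : Fin (m + 1) → _) 0 from rfl, this]
  rfl

/-- coordinates with respect to a lattice basis, over the reals -/
theorem real_repr {n : ℕ} (B : Module.Basis (Fin n) ℤ (Fin n → ℤ)) (z : Fin n → ℝ) :
    z = ∑ i, (-(toR (dualVec B i) ⬝ᵥ z)) • toR (B i) := by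
  -- it suffices to check on the standard basis
  have hz : z = ∑ k, z k • toR (Pi.single k (1 : ℤ)) := by
    ext j
    simp only [Finset.sum_apply, Pi.smul_apply, toR, smul_eq_mul, Pi.single_apply]
    simp
  have h1 : ∀ k : Fin n, toR (Pi.single k (1 : ℤ)) =
      ∑ i, (-(toR (dualVec B i) ⬝ᵥ toR (Pi.single k (1 : ℤ)))) • toR (B i) := by
    intro k
    conv_lhs => rw [← B.sum_repr (Pi.single k (1 : ℤ))]
    rw [toR_sum]
    apply Finset.sum_congr rfl
    intro i _
    rw [toR_smul, toR_dot, dualVec_dot]
    push_cast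
    rw [neg_neg]
  calc z = ∑ k, z k • toR (Pi.single k (1 : ℤ)) := hz
    _ = ∑ k, z k • ∑ i, (-(toR (dualVec B i) ⬝ᵥ toR (Pi.single k (1 : ℤ)))) • toR (B i) := by
        apply Finset.sum_congr rfl
        intro k _
        rw [← h1 k]
    _ = ∑ i, (-(toR (dualVec B i) ⬝ᵥ ∑ k, z k • toR (Pi.single k (1 : ℤ)))) • toR (B i) := by
        simp only [Finset.smul_sum, smul_smul]
        rw [Finset.sum_comm]
        apply Finset.sum_congr rfl
        intro i _
        rw [← Finset.sum_smul, dotProduct_sum, ← Finset.sum_neg_distrib]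
        congr 1
        apply Finset.sum_congr rfl
        intro k _
        rw [dotProduct_smul, smul_eq_mul]; ring
    _ = _ := by rw [← hz]

theorem SymBody.add_mem {n : ℕ} {K : Set (Fin n → ℝ)} (hK : SymBody K) {a b : ℝ} (ha : 0 ≤ a)
    (hb : 0 ≤ b) {x y : Fin n → ℝ} (hx : x ∈ K) (hy : y ∈ K) {c : ℝ} (hab : a + b ≤ c) :
    ∃ w ∈ K, a • x + b • y = c • w := by
  rcases (by linarith : 0 ≤ c).eq_or_lt with h0 | h0
  · have ha0 : a = 0 := by linarith
    have hb0 : b = 0 := by linarith
    exact ⟨x, hx, by rw [ha0, hb0, ← h0]; simp⟩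
  · refine ⟨∑ i : Fin 2, (![a / c, b / c] i) • (![x, y] i), ?_, ?_⟩
    · apply hK.sum_mem
      · intro i; fin_cases i
        · exact hx
        · exact hy
      · simp only [Fin.sum_univ_two, Matrix.cons_val_zero, Matrix.cons_val_one]
        rw [abs_of_nonneg (by positivity), abs_of_nonneg (by positivity), ← add_div,
          div_le_one h0]
        exact hab
    · simp only [Fin.sum_univ_two, Matrix.cons_val_zero, Matrix.cons_val_one]
      rw [smul_add, smul_smul, smul_smul, mul_div_cancel₀ _ h0.ne', mul_div_cancel₀ _ h0.ne']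

theorem transference (C κ : ℕ → ℝ) (hκpos : ∀ n, 0 < κ n)
    (hκ : ∀ n, (n.factorial : ℝ) ^ 2 ≤ κ n ^ n) (hC0 : ∀ n, 0 ≤ C n)
    (hC1 : ∀ n, κ (n + 1) ≤ C (n + 1)) (hC2 : ∀ n, C n + κ (n + 1) / 2 ≤ C (n + 1)) :
    ∀ (n : ℕ) (K : Set (Fin n → ℝ)) (ν : ℝ), SymBody K → 0 < ν → Wide K ν →
      ∃ x : Module.Basis (Fin n) ℤ (Fin n → ℤ), ∀ i, ∃ y ∈ K, toR (x i) = (C n / ν) • y := by
  intro n
  induction n with
  | zero =>
    intro K ν hK hν hw
    exact ⟨Pi.basisFun ℤ (Fin 0), fun i => i.elim0⟩
  | succ n ih =>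
    intro K ν hK hν hw
    -- a short primitive vector
    obtain ⟨x0, hx0, y0, hy0, hxy0⟩ := exists_short hK hν hw (hκpos (n + 1)) (hκ (n + 1))
    obtain ⟨k, d, hk, hd, hkd⟩ := exists_primitive hx0
    have hkR : (1 : ℝ) ≤ k := by exact_mod_cast hk
    set r1 : ℝ := κ (n + 1) / ν with hr1
    have hr1pos : 0 < r1 := div_pos (hκpos _) hν
    have hdmem : ∃ z ∈ K, toR d = r1 • z := by
      refine ⟨(k : ℝ)⁻¹ • y0, hK.smul_mem ?_ hy0, ?_⟩
      · rw [abs_of_pos (by positivity)]; exact inv_le_one_of_one_le₀ hkR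
      · have h1 : toR x0 = (k : ℝ) • toR d := by rw [hkd, toR_smul]
        rw [h1] at hxy0
        have hk0 : (k : ℝ) ≠ 0 := by positivity
        rw [smul_comm, ← hxy0, smul_smul, inv_mul_cancel₀ hk0, one_smul]
    obtain ⟨z0, hz0, hdz0⟩ := hdmem
    obtain ⟨B, hB0⟩ := exists_basis_zero hd
    -- the projection
    let pr : (Fin (n + 1) → ℝ) →ₗ[ℝ] (Fin n → ℝ) :=
      { toFun := fun z i => -(toR (dualVec B i.succ) ⬝ᵥ z)
        map_add' := by
          intro x y; ext i; simp only [Pi.add_apply]; rw [dotProduct_add]; ring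
        map_smul' := by
          intro c x; ext i
          simp only [Pi.smul_apply, RingHom.id_apply, smul_eq_mul]
          rw [dotProduct_smul, smul_eq_mul]; ring }
    have hpr : ∀ z i, pr z i = -(toR (dualVec B i.succ) ⬝ᵥ z) := fun z i => rfl
    have hprc : Continuous pr := pr.continuous_of_finiteDimensional
    have hprB : ∀ (k : Fin n), pr (toR (B k.succ)) = Pi.single k 1 := by
      intro k
      ext i
      rw [hpr, toR_dot, dualVec_dot_basis]
      by_cases h : i = k
      · subst h; simp
      · have h' : k.succ ≠ i.succ := fun hh => h (Fin.succ_injective _ hh).symm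
        simp [h, h']
    have hprsurj : Function.Surjective pr := by
      intro y
      refine ⟨∑ k : Fin n, y k • toR (B k.succ), ?_⟩
      rw [map_sum]
      simp only [map_smul, hprB]
      ext j
      simp [Finset.sum_apply, Pi.single_apply]
    have hK' : SymBody (pr '' K) := by
      refine ⟨hK.convex.linear_image pr, hK.compact.image hprc, ?_, ?_⟩
      · rintro _ ⟨z, hz, rfl⟩
        exact ⟨-z, hK.symm z hz, by rw [map_neg]⟩
      · have hopen : IsOpenMap pr := LinearMap.isOpenMap_of_finiteDimensional pr hprsurj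
        have h1 := hopen.image_interior_subset K
        apply h1
        exact ⟨0, hK.int, map_zero pr⟩
    have hw' : Wide (pr '' K) ν := by
      intro l hl
      set L : Fin (n + 1) → ℤ := ∑ i : Fin n, l i • (-(dualVec B i.succ)) with hL
      have hLdot : ∀ z : Fin (n + 1) → ℝ, toR L ⬝ᵥ z = toR l ⬝ᵥ pr z := by
        intro z
        rw [hL, toR_sum, sum_dotProduct]
        simp only [dotProduct]
        apply Finset.sum_congr rfl
        intro i _
        rw [hpr, toR_smul, toR_neg]
        show ((l i : ℝ) • (-toR (dualVec B i.succ))) ⬝ᵥ z = _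
        rw [smul_dotProduct, neg_dotProduct, smul_eq_mul]; rfl
      have hL0 : L ≠ 0 := by
        intro h
        apply hl
        apply toR_injective
        ext k
        have h1 := hLdot (toR (B k.succ))
        rw [h, toR_zero, zero_dotProduct, hprB] at h1
        simp only [dotProduct_single, mul_one] at h1
        rw [← h1, toR_zero]; rfl
      obtain ⟨z, hz, hzν⟩ := hw L hL0
      exact ⟨pr z, ⟨z, hz, rfl⟩, by rw [← hLdot]; exact hzν⟩
    obtain ⟨x', hx'⟩ := ih (pr '' K) ν hK' hν hw'
    -- lifting
    have hlift : ∀ i : Fin n, ∃ m : ℤ, ∃ w ∈ K,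
        toR (∑ k : Fin n, x' i k • B k.succ + m • B 0) = (C (n + 1) / ν) • w := by
      intro i
      obtain ⟨_, ⟨z, hz, rfl⟩, hxz⟩ := hx' i
      set r : ℝ := C n / ν with hr
      have hr0 : 0 ≤ r := div_nonneg (hC0 n) hν.le
      set τ : ℝ := -(toR (dualVec B 0) ⬝ᵥ (r • z)) with hτ
      have hrep := real_repr B (r • z)
      rw [Fin.sum_univ_succ] at hrep
      have h1 : ∀ k : Fin n, -(toR (dualVec B k.succ) ⬝ᵥ (r • z)) = (x' i k : ℝ) := by
        intro k
        have h2 := congrFun hxz k
        rw [← hpr, map_smul, ← h2]; rfl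
      simp only [h1] at hrep
      refine ⟨round τ, ?_⟩
      have h3 : toR (∑ k : Fin n, x' i k • B k.succ + (round τ) • B 0) =
          r • z + ((round τ : ℝ) - τ) • toR d := by
        rw [hrep, toR_add, toR_sum, toR_smul, hB0]
        simp only [toR_smul]
        rw [sub_smul]
        abel
      rw [h3, hdz0, smul_smul]
      have hth : |(round τ : ℝ) - τ| ≤ 1 / 2 := by
        rw [abs_sub_comm]; exact abs_sub_round τ
      have hCn : r + (1 / 2) * r1 ≤ C (n + 1) / ν := by
        rw [hr, hr1, le_div_iff₀ hν]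
        have := hC2 n
        field_simp
        linarith
      -- write the second term with a nonnegative coefficient
      have hsgn : (((round τ : ℝ) - τ) * r1) • z0 =
          ((1 / 2) * r1) • ((((round τ : ℝ) - τ) * 2) • z0) := by
        rw [smul_smul]; congr 1; ring
      rw [hsgn]
      apply hK.add_mem hr0 (by positivity) hz _ hCn
      apply hK.smul_mem _ hz0
      rw [abs_mul, abs_two]; linarith
    choose m w hwK hmw using hlift
    set X : Fin (n + 1) → (Fin (n + 1) → ℤ) :=
      Fin.cons d (fun i => ∑ k : Fin n, x' i k • B k.succ + m i • B 0) with hX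
    have hX0 : X 0 = d := rfl
    have hXs : ∀ i : Fin n, X i.succ = ∑ k : Fin n, x' i k • B k.succ + m i • B 0 := fun i => rfl
    -- coordinates of the new vectors
    have hcoord : ∀ (i k : Fin n), dualVec B k.succ ⬝ᵥ X i.succ = -(x' i k) := by
      intro i k
      rw [hXs, dotProduct_add, dotProduct_sum, dotProduct_smul, dualVec_dot_basis]
      simp only [dotProduct_smul, dualVec_dot_basis, smul_eq_mul]
      rw [Finset.sum_eq_single k]
      · have : (0 : Fin (n + 1)) ≠ k.succ := (Fin.succ_ne_zero k).symm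
        simp [this]
      · intro j _ hjk
        have : j.succ ≠ k.succ := fun hh => hjk (Fin.succ_injective _ hh)
        simp [this]
      · intro h; exact absurd (Finset.mem_univ k) h
    have hcoord0 : ∀ k : Fin n, dualVec B k.succ ⬝ᵥ X 0 = 0 := by
      intro k
      rw [hX0, ← hB0, dualVec_dot_basis]
      have : (0 : Fin (n + 1)) ≠ k.succ := (Fin.succ_ne_zero k).symm
      simp [this]
    have hli : LinearIndependent ℤ X := by
      rw [Fintype.linearIndependent_iff]
      intro g hg
      rw [Fin.sum_univ_succ] at hg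
      have h1 : ∑ i : Fin n, g i.succ • x' i = 0 := by
        ext k
        have h2 := congrArg (fun v => dualVec B k.succ ⬝ᵥ v) hg
        simp only [dotProduct_add, dotProduct_smul, dotProduct_sum, hcoord0, hcoord,
          dotProduct_zero, smul_eq_mul, mul_zero, zero_add] at h2
        simp only [Finset.sum_apply, Pi.smul_apply, smul_eq_mul, Pi.zero_apply]
        have h3 : ∑ i : Fin n, g i.succ * x' i k = -∑ i : Fin n, g i.succ * -(x' i k) := by
          rw [← Finset.sum_neg_distrib]
          apply Finset.sum_congr rfl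
          intro i _; ring
        rw [h3, h2, neg_zero]
      have h2 := (Fintype.linearIndependent_iff.mp x'.linearIndependent) (fun i => g i.succ) h1
      have h3 : g 0 = 0 := by
        have h4 : g 0 • X 0 = 0 := by
          have : ∑ i : Fin n, g i.succ • X i.succ = 0 :=
            Finset.sum_eq_zero (fun i _ => by rw [h2 i, zero_smul])
          rw [this, add_zero] at hg
          exact hg
        rcases smul_eq_zero.mp h4 with h5 | h5
        · exact h5
        · exact absurd h5 (by rw [hX0]; exact hd.1)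
      intro i
      refine Fin.cases h3 (fun j => h2 j) i
    have hsp : ⊤ ≤ Submodule.span ℤ (Set.range X) := by
      have h0 : B 0 ∈ Submodule.span ℤ (Set.range X) := by
        rw [hB0, ← hX0]; exact Submodule.subset_span ⟨0, rfl⟩
      have hs : ∀ k : Fin n, B k.succ ∈ Submodule.span ℤ (Set.range X) := by
        intro k
        have h1 : (Pi.single k (1 : ℤ) : Fin n → ℤ) = ∑ i, x'.repr (Pi.single k 1) i • x' i :=
          (x'.sum_repr _).symm
        have h2 : B k.succ = ∑ i, x'.repr (Pi.single k 1) i • X i.succ -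
            (∑ i, x'.repr (Pi.single k 1) i * m i) • B 0 := by
          have h3 : ∑ i, x'.repr (Pi.single k 1) i • X i.succ =
              ∑ j : Fin n, (∑ i, x'.repr (Pi.single k 1) i • x' i) j • B j.succ +
              (∑ i, x'.repr (Pi.single k 1) i * m i) • B 0 := by
            simp only [hXs, smul_add, Finset.sum_add_distrib, Finset.smul_sum, smul_smul,
              Finset.sum_smul, Finset.sum_apply, Pi.smul_apply, smul_eq_mul]
            congr 1
            rw [Finset.sum_comm]
          rw [h3, ← h1, add_sub_cancel_right]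
          rw [Finset.sum_eq_single k]
          · simp
          · intro j _ hjk; simp [hjk]
          · intro h; exact absurd (Finset.mem_univ k) h
        rw [h2]
        apply Submodule.sub_mem
        · apply Submodule.sum_mem
          intro i _
          exact Submodule.smul_mem _ _ (Submodule.subset_span ⟨i.succ, rfl⟩)
        · exact Submodule.smul_mem _ _ h0
      rw [← B.span_eq, Submodule.span_le]
      rintro _ ⟨i, rfl⟩
      refine Fin.cases h0 (fun j => hs j) i
    refine ⟨Module.Basis.mk hli hsp, ?_⟩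
    intro i
    rw [Module.Basis.mk_apply]
    refine Fin.cases ?_ (fun j => ?_) i
    · rw [hX0]
      refine ⟨(κ (n + 1) / C (n + 1)) • z0, hK.smul_mem ?_ hz0, ?_⟩
      · have h1 := hC1 n
        have h2 := hκpos (n + 1)
        have h3 : 0 < C (n + 1) := by linarith
        rw [abs_of_pos (by positivity), div_le_one h3]; exact h1
      · rw [hdz0, smul_smul, hr1]
        congr 1
        have h1 := hC1 n
        have h2 := hκpos (n + 1)
        have h3 : 0 < C (n + 1) := by linarith
        field_simp
    · exact ⟨w j, hwK j, hmw j⟩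

end Pool.Agent.helper356_nill
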