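import Mathlib
import Pool.Agent.helper356_nill.Trans
import Pool.Agent.helper356_nill.Duality

/-!
Explicit constants and the main consequences.
-/

namespace Pool.Agent.helper356_nill

open Matrix

/-- `(n!) ^ (2 / n)` -/
noncomputable def kap (n : ℕ) : ℝ := (n.factorial : ℝ) ^ ((2 : ℝ) / n)

/-- `(1 + ∑_{j = 1}^{n} (j!) ^ (2 / j)) / 2` -/
noncomputable def cst (n : ℕ) : ℝ := (1 + ∑ j ∈ Finset.Icc 1 n, (j.factorial : ℝ) ^ ((2 : ℝ) / j)) / 2

theorem kap_pos (n : ℕ) : 0 < kap n := by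
  have : (0 : ℝ) < n.factorial := by exact_mod_cast n.factorial_pos
  exact Real.rpow_pos_of_pos this _

theorem kap_pow {n : ℕ} (hn : n ≠ 0) : kap n ^ n = (n.factorial : ℝ) ^ 2 := by
  have h : (0 : ℝ) < n.factorial := by exact_mod_cast n.factorial_pos
  have hn' : (n : ℝ) ≠ 0 := by exact_mod_cast hn
  rw [kap, ← Real.rpow_natCast, ← Real.rpow_mul h.le, div_mul_cancel₀ _ hn']
  norm_cast

theorem kap_succ_le {m : ℕ} (hm : 1 ≤ m) : kap (m + 1) ≤ 2 * kap m := by
  have h1 := kap_pos (m + 1)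
  have h2 := kap_pos m
  have hN : m * (m + 1) ≠ 0 := by positivity
  rw [← pow_le_pow_iff_left₀ h1.le (by positivity) hN]
  have e1 : kap (m + 1) ^ (m * (m + 1)) = ((m + 1).factorial : ℝ) ^ (2 * m) := by
    rw [mul_comm m (m + 1), pow_mul, kap_pow (by omega), ← pow_mul]
  have e2 : (2 * kap m) ^ (m * (m + 1)) = 2 ^ (m * (m + 1)) * (m.factorial : ℝ) ^ (2 * (m + 1)) := by
    rw [mul_pow, pow_mul (kap m), kap_pow (by omega), ← pow_mul]
  rw [e1, e2]
  have key : (m + 1) ^ (2 * m) ≤ 2 ^ (m * (m + 1)) * m.factorial ^ 2 := by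
    rcases Nat.lt_or_ge m 3 with h | h
    · interval_cases m <;> decide
    · have h3 : (m + 1) ^ 2 ≤ 2 ^ (m + 1) := by
        have : ∀ k, 4 ≤ k → k ^ 2 ≤ 2 ^ k := by
          intro k hk
          induction k, hk using Nat.le_induction with
          | base => decide
          | succ k hk ih => rw [pow_succ 2 k]; nlinarith
        exact this (m + 1) (by omega)
      calc (m + 1) ^ (2 * m) = ((m + 1) ^ 2) ^ m := by rw [pow_mul]
        _ ≤ (2 ^ (m + 1)) ^ m := Nat.pow_le_pow_left h3 m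
        _ = 2 ^ (m * (m + 1)) := by rw [← pow_mul, mul_comm]
        _ ≤ 2 ^ (m * (m + 1)) * m.factorial ^ 2 :=
            Nat.le_mul_of_pos_right _ (by have := m.factorial_pos; positivity)
  have key' : ((m : ℝ) + 1) ^ (2 * m) ≤ 2 ^ (m * (m + 1)) * (m.factorial : ℝ) ^ 2 := by
    exact_mod_cast key
  rw [Nat.factorial_succ]
  push_cast
  rw [mul_pow, mul_add 2 m 1, pow_add (m.factorial : ℝ)]
  have h3 : (0 : ℝ) < (m.factorial : ℝ) ^ (2 * m) := by
    have : (0 : ℝ) < m.factorial := by exact_mod_cast m.factorial_pos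
    positivity
  have h4 := mul_le_mul_of_nonneg_right key' h3.le
  calc ((m : ℝ) + 1) ^ (2 * m) * (m.factorial : ℝ) ^ (2 * m)
      ≤ 2 ^ (m * (m + 1)) * (m.factorial : ℝ) ^ 2 * (m.factorial : ℝ) ^ (2 * m) := h4
    _ = _ := by ring

theorem cst_zero : cst 0 = 1 / 2 := by simp [cst]

theorem cst_succ (n : ℕ) : cst (n + 1) = cst n + kap (n + 1) / 2 := by
  rw [cst, cst, Finset.sum_Icc_succ_top (by omega), kap]
  ring

theorem cst_nonneg (n : ℕ) : 0 ≤ cst n := by
  induction n with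
  | zero => rw [cst_zero]; norm_num
  | succ n ih => rw [cst_succ]; have := kap_pos (n + 1); linarith

theorem kap_one : kap 1 = 1 := by simp [kap]

theorem kap_le_cst (n : ℕ) : kap (n + 1) ≤ cst (n + 1) := by
  induction n with
  | zero => rw [cst_succ, cst_zero, kap_one]; norm_num
  | succ n ih =>
    have h1 := kap_succ_le (m := n + 1) (by omega)
    rw [cst_succ]
    linarith

/-- The symmetric part of a smooth polytope. -/
theorem symBody_inter {n : ℕ} {P : Set (Fin n → ℝ)} (hP : IsLatticePolytope P)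
    (h0 : (0 : Fin n → ℝ) ∈ interior P) : SymBody {x | x ∈ P ∧ -x ∈ P} := by
  obtain ⟨V, hV⟩ := hP
  have hPc : Convex ℝ P := by rw [hV]; exact convex_convexHull ℝ _
  have hPk : IsCompact P := by
    rw [hV]; exact (V.finite_toSet.image toR).isCompact_convexHull (𝕜 := ℝ)
  have heq : {x | x ∈ P ∧ -x ∈ P} = P ∩ Neg.neg ⁻¹' P := rfl
  have hcont : Continuous (fun x : Fin n → ℝ => -x) := continuous_neg
  refine ⟨?_, ?_, ?_, ?_⟩
  · rw [heq]
    apply hPc.inter
    intro x hx y hy a b ha hb hab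
    show -(a • x + b • y) ∈ P
    have := hPc hx hy ha hb hab
    convert this using 1
    rw [smul_neg, smul_neg]; abel
  · rw [heq]
    exact hPk.inter_right (hPk.isClosed.preimage hcont)
  · intro x hx
    exact ⟨hx.2, by rw [neg_neg]; exact hx.1⟩
  · rw [heq, interior_inter]
    refine ⟨h0, ?_⟩
    apply preimage_interior_subset_interior_preimage hcont
    show -(0 : Fin n → ℝ) ∈ interior P
    rw [neg_zero]; exact h0

theorem nonempty_of_interior {n : ℕ} {P : Set (Fin n → ℝ)} {V : Finset (Fin n → ℤ)}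
    (hP : P = convexHull ℝ (toR '' (V : Set (Fin n → ℤ))))
    (h0 : (0 : Fin n → ℝ) ∈ interior P) : V.Nonempty := by
  have h1 : (0 : Fin n → ℝ) ∈ P := interior_subset h0
  rw [hP] at h1
  have h2 : (convexHull ℝ (toR '' (V : Set (Fin n → ℤ)))).Nonempty := ⟨0, h1⟩
  rw [convexHull_nonempty_iff] at h2
  obtain ⟨_, v, hv, -⟩ := h2
  exact ⟨v, hv⟩

/-- Widths of the symmetric part. -/
theorem wide_inter {n : ℕ} {P : Set (Fin n → ℝ)} (hP : IsLatticePolytope P)
    (hs : IsSmooth P) (h0 : (0 : Fin n → ℝ) ∈ interior P) (β s : ℕ) (hs1 : 1 ≤ s)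
    (hβs : s * (2 * s - 1) ≤ 2 * β)
    (hβ : β ≤ 1 ∨ ∀ u, IsFacetNormal P u → ∀ x ∈ faceOf P (toR u), (β : ℝ) ≤ toR u ⬝ᵥ x) :
    Wide {x | x ∈ P ∧ -x ∈ P} s := by
  intro l hl
  obtain ⟨V, hV⟩ := hP
  have hVne := nonempty_of_interior hV h0
  have hgood := goodSupport hVne hV h0 hs (β : ℤ) (by
    rcases hβ with h | h
    · left; exact_mod_cast h
    · right; exact_mod_cast h)
  have hcast : (s : ℤ) * (2 * s - 1) ≤ 2 * β := by
    have h1 : ((s * (2 * s - 1) : ℕ) : ℤ) ≤ ((2 * β : ℕ) : ℤ) := by exact_mod_cast hβs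
    push_cast [show 1 ≤ 2 * s by omega] at h1
    exact h1
  have hs1' : (1 : ℤ) ≤ s := by exact_mod_cast hs1
  have hsβ : (s : ℤ) ≤ β := by nlinarith
  have hmain := fun (Y : Fin n → ℤ) (J : ℕ) =>
    hgood.main (by omega) hl Y J s hs1 hcast hsβ
  obtain ⟨x, hx, hx', hxl⟩ := exists_point hVne hV (interior_subset h0) (l := l) (ν := (s : ℝ))
    (C0 := ((s : ℝ) * (2 * s - 1))) (by exact_mod_cast hs1) (by
      intro Y J
      have := hmain Y J
      have h2 : (((s : ℤ) * J - s * (2 * s - 1) : ℤ) : ℝ) ≤ ((bZ V hVne Y + bZ V hVne (Y - J • l) : ℤ) : ℝ) := by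
        exact_mod_cast this
      push_cast at h2
      exact h2)
  exact ⟨x, ⟨hx, hx'⟩, hxl⟩

/-- Lattice bases in dilates of the symmetric part. -/
theorem basis_inter {n : ℕ} {P : Set (Fin n → ℝ)} (hP : IsLatticePolytope P)
    (h0 : (0 : Fin n → ℝ) ∈ interior P) {s k : ℕ} (hs1 : 1 ≤ s) (hk1 : 1 ≤ k)
    (hw : Wide {x | x ∈ P ∧ -x ∈ P} s) (hc : cst n ≤ k * s) :
    ∃ b : Module.Basis (Fin n) ℤ (Fin n → ℤ), ∀ i,
      ∃ y, y ∈ P ∧ -y ∈ P ∧ toR (b i) = (k : ℝ) • y := by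
  have hsR : (1 : ℝ) ≤ s := by exact_mod_cast hs1
  have hkR : (1 : ℝ) ≤ k := by exact_mod_cast hk1
  have hbody := symBody_inter hP h0
  obtain ⟨x, hx⟩ := transference cst kap kap_pos (fun n => by
      rcases Nat.eq_zero_or_pos n with h | h
      · subst h; simp
      · rw [kap_pow (by omega)]) cst_nonneg kap_le_cst (fun n => by rw [cst_succ]) n _ (s : ℝ)
      hbody (by linarith) hw
  refine ⟨x, ?_⟩
  intro i
  obtain ⟨y, hy, hxy⟩ := hx i
  have hmem : (cst n / s / k) • y ∈ {x | x ∈ P ∧ -x ∈ P} := by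
    apply hbody.smul_mem _ hy
    have := cst_nonneg n
    rw [abs_of_nonneg (by positivity), div_div, div_le_one (by positivity)]
    linarith
  refine ⟨_, hmem.1, hmem.2, ?_⟩
  rw [hxy, smul_smul, mul_div_cancel₀ _ (by positivity)]

end Pool.Agent.helper356_nill
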