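import Mathlib
import Pool.Agent.helper356_nill.Support

/-!
Vertices of a smooth lattice polytope: lexicographic vertices, lattice neighbours along the edges,
dual vectors and facet normals.
-/

namespace Pool.Agent.helper356_nill

open Matrix

variable {n : ℕ}

/-- a vertex maximizing `g1` and, among the maximizers of `g1`, maximizing `g2` -/
theorem exists_vertex_lex {V : Finset (Fin n → ℤ)} (hV : V.Nonempty) (g1 g2 : Fin n → ℝ) :
    ∃ v ∈ V, IsVertex (convexHull ℝ (toR '' (V : Set (Fin n → ℤ)))) (toR v) ∧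
      (∀ y ∈ convexHull ℝ (toR '' (V : Set (Fin n → ℤ))), g1 ⬝ᵥ y ≤ g1 ⬝ᵥ toR v) ∧
      (∀ y ∈ convexHull ℝ (toR '' (V : Set (Fin n → ℤ))), g1 ⬝ᵥ y = g1 ⬝ᵥ toR v →
        g2 ⬝ᵥ y ≤ g2 ⬝ᵥ toR v) := by
  classical
  obtain ⟨s0, hs0, hmax0⟩ := Finset.exists_max_image V (fun x => g1 ⬝ᵥ toR x) hV
  set F : Finset (Fin n → ℝ) :=
    (V.filter (fun x => g1 ⬝ᵥ toR x = g1 ⬝ᵥ toR s0)).image toR with hF
  have hFne : F.Nonempty := ⟨toR s0, Finset.mem_image_of_mem _ (by simp [hs0])⟩
  obtain ⟨s, hs, T, hmax, huniq⟩ := exists_exposed F hFne g2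
  obtain ⟨v, hv, rfl⟩ := Finset.mem_image.mp hs
  have hvV := (Finset.mem_filter.mp hv).1
  have hgv := (Finset.mem_filter.mp hv).2
  set g3 : Fin n → ℝ := T • g2 + toR v with hg3
  have hexp : ∀ (N : ℝ) (y : Fin n → ℝ), (N • g1 + g3) ⬝ᵥ y = N * (g1 ⬝ᵥ y) + g3 ⬝ᵥ y := by
    intro N y
    rw [add_dotProduct (N • g1) g3 y, smul_dotProduct, smul_eq_mul]
  have hev : ∀ t ∈ V, ∀ᶠ N : ℝ in Filter.atTop,
      t ≠ v → (N • g1 + g3) ⬝ᵥ toR t < (N • g1 + g3) ⬝ᵥ toR v := by
    intro t ht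
    by_cases hgt : g1 ⬝ᵥ toR t = g1 ⬝ᵥ toR s0
    · apply Filter.Eventually.of_forall
      intro N hts
      have h1 := huniq (toR t) (Finset.mem_image_of_mem _ (by simp [ht, hgt]))
        (fun h => hts (toR_injective h))
      rw [hexp, hexp, hgt, hgv]
      linarith
    · have hlt : g1 ⬝ᵥ toR t < g1 ⬝ᵥ toR v := by
        rw [hgv]; exact lt_of_le_of_ne (hmax0 t ht) hgt
      filter_upwards [Filter.eventually_gt_atTop
        ((g3 ⬝ᵥ toR t - g3 ⬝ᵥ toR v) / (g1 ⬝ᵥ toR v - g1 ⬝ᵥ toR t))] with N hN _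
      rw [div_lt_iff₀ (by linarith)] at hN
      rw [hexp, hexp]
      linarith
  rw [← Filter.eventually_all_finset] at hev
  obtain ⟨N, hN⟩ := hev.exists
  have hle : ∀ x ∈ toR '' (V : Set (Fin n → ℤ)),
      (N • g1 + g3) ⬝ᵥ x ≤ (N • g1 + g3) ⬝ᵥ toR v := by
    rintro _ ⟨t, ht, rfl⟩
    by_cases htv : t = v
    · rw [htv]
    · exact (hN t ht htv).le
  have hg1 : ∀ x ∈ toR '' (V : Set (Fin n → ℤ)), g1 ⬝ᵥ x ≤ g1 ⬝ᵥ toR v := by
    rintro _ ⟨t, ht, rfl⟩
    rw [hgv]; exact hmax0 t ht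
  refine ⟨v, hvV, ⟨N • g1 + g3, ?_⟩, fun y hy => dot_le_of_convexHull hg1 hy, ?_⟩
  · rw [faceOf_convexHull hle ⟨toR v, ⟨v, hvV, rfl⟩, rfl⟩]
    have : {x | x ∈ toR '' (V : Set (Fin n → ℤ)) ∧
        (N • g1 + g3) ⬝ᵥ x = (N • g1 + g3) ⬝ᵥ toR v} = {toR v} := by
      ext x
      simp only [Set.mem_ofPred_eq, Set.mem_singleton_iff]
      constructor
      · rintro ⟨⟨t, ht, rfl⟩, hxe⟩
        by_contra hxv
        have := hN t ht (fun h => hxv (by rw [h]))
        linarith
      · rintro rfl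
        exact ⟨⟨v, hvV, rfl⟩, rfl⟩
    rw [this, convexHull_singleton]
  · intro y hy hyg
    have hface := faceOf_convexHull hg1 ⟨toR v, ⟨v, hvV, rfl⟩, rfl⟩
    have hyf : y ∈ faceOf (convexHull ℝ (toR '' (V : Set (Fin n → ℤ)))) g1 :=
      ⟨hy, fun y' hy' => by rw [hyg]; exact dot_le_of_convexHull hg1 hy'⟩
    rw [hface] at hyf
    refine dot_le_of_convexHull ?_ hyf
    rintro _ ⟨⟨t, ht, rfl⟩, hte⟩
    apply hmax
    apply Finset.mem_image_of_mem
    rw [Finset.mem_filter]
    exact ⟨ht, by rw [hte, hgv]⟩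

theorem vertex_mem {P : Set (Fin n → ℝ)} {v : Fin n → ℝ} (hv : IsVertex P v) : v ∈ P := by
  obtain ⟨φ, hφ⟩ := hv
  have : v ∈ faceOf P φ := by rw [hφ]; rfl
  exact this.1

/-- the dual vectors are maximal at the vertex -/
theorem dual_max {P : Set (Fin n → ℝ)} {V : Finset (Fin n → ℤ)}
    (hP : P = convexHull ℝ (toR '' (V : Set (Fin n → ℤ)))) {v : Fin n → ℤ}
    (hvert : IsVertex P (toR v)) (b : Module.Basis (Fin n) ℤ (Fin n → ℤ))
    (hb : Set.range b = edgeDirs P (toR v)) (j : Fin n) :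
    ∀ x ∈ P, toR (dualVec b j) ⬝ᵥ x ≤ toR (dualVec b j) ⬝ᵥ toR v := by
  intro x hx
  rw [hP] at hx hvert
  apply cone_at_vertex hvert (toR (dualVec b j)) _ hx
  rw [← hP, ← hb]
  rintro _ ⟨k, rfl⟩
  rw [toR_dot, dualVec_dot_basis]
  split_ifs <;> norm_num

/-- a functional maximal at the vertex does not increase along the edges -/
theorem slope_nonpos {P : Set (Fin n → ℝ)} {v : Fin n → ℝ}
    {b : Module.Basis (Fin n) ℤ (Fin n → ℤ)}
    (hb : Set.range b = edgeDirs P v) {g : Fin n → ℝ} (hg : ∀ y ∈ P, g ⬝ᵥ y ≤ g ⬝ᵥ v)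
    (j : Fin n) : g ⬝ᵥ toR (b j) ≤ 0 := by
  have hbe : b j ∈ edgeDirs P v := by rw [← hb]; exact Set.mem_range_self j
  obtain ⟨-, x, hx, t, ht, hxt⟩ := hbe
  have h3 := hg x (edge_mem hx)
  rw [hxt, dotProduct_add, dotProduct_smul, smul_eq_mul] at h3
  by_contra hcon
  push Not at hcon
  have := mul_pos ht hcon
  linarith

/-- expansion in the basis of edge directions -/
theorem real_expand (b : Module.Basis (Fin n) ℤ (Fin n → ℤ)) (g x : Fin n → ℝ) :
    g ⬝ᵥ x = -∑ j, (toR (dualVec b j) ⬝ᵥ x) * (g ⬝ᵥ toR (b j)) := by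
  classical
  have key : ∀ z : Fin n → ℤ,
      g ⬝ᵥ toR z = -∑ j, (toR (dualVec b j) ⬝ᵥ toR z) * (g ⬝ᵥ toR (b j)) := by
    intro z
    conv_lhs => rw [← b.sum_repr z]
    rw [toR_sum, dotProduct_sum, ← Finset.sum_neg_distrib]
    apply Finset.sum_congr rfl
    intro j _
    rw [toR_smul, dotProduct_smul, toR_dot, dualVec_dot, smul_eq_mul]
    push_cast; ring
  have hx : x = ∑ i, x i • toR (Pi.single i (1 : ℤ) : Fin n → ℤ) := by
    ext k
    simp [Finset.sum_apply, toR, Pi.single_apply]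
  have e1 : ∀ g' : Fin n → ℝ, g' ⬝ᵥ x = ∑ i, x i * (g' ⬝ᵥ toR (Pi.single i (1 : ℤ) : Fin n → ℤ)) := by
    intro g'
    conv_lhs => rw [hx]
    rw [dotProduct_sum]
    apply Finset.sum_congr rfl
    intro i _
    rw [dotProduct_smul, smul_eq_mul]
  rw [e1 g]
  simp_rw [e1 (toR (dualVec b _)), Finset.sum_mul]
  rw [Finset.sum_comm, ← Finset.sum_neg_distrib]
  apply Finset.sum_congr rfl
  intro i _
  rw [key, mul_neg, Finset.mul_sum]
  congr 1
  apply Finset.sum_congr rfl
  intro j _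
  ring

/-- the lattice neighbour along an edge lies in the polytope -/
theorem step_mem {P : Set (Fin n → ℝ)} {V : Finset (Fin n → ℤ)}
    (hP : P = convexHull ℝ (toR '' (V : Set (Fin n → ℤ)))) {v : Fin n → ℤ}
    (hvert : IsVertex P (toR v)) (b : Module.Basis (Fin n) ℤ (Fin n → ℤ))
    (hb : Set.range b = edgeDirs P (toR v)) (j : Fin n) : toR (v + b j) ∈ P := by
  have hPc : Convex ℝ P := by rw [hP]; exact convex_convexHull ℝ _
  have hbe : b j ∈ edgeDirs P (toR v) := by rw [← hb]; exact Set.mem_range_self j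
  obtain ⟨-, x, hx, t, ht, hxt⟩ := hbe
  have hxP := edge_mem hx
  have hvert' := hvert
  rw [hP] at hvert'
  have hlt : (-toR (dualVec b j)) ⬝ᵥ toR v < (-toR (dualVec b j)) ⬝ᵥ x := by
    rw [hxt, neg_dotProduct, neg_dotProduct, dotProduct_add, dotProduct_smul, toR_dot (dualVec b j) (b j),
      dualVec_dot_basis]
    simp only [if_true, smul_eq_mul]
    push_cast
    linarith
  obtain ⟨w, ⟨w', hw', rfl⟩, hedge, hgw⟩ :=
    exists_edge_up (V.finite_toSet.image _) hvert' (-toR (dualVec b j)) (by rw [← hP]; exact hxP) hlt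
  have hz : w' - v ≠ 0 := by
    intro h
    rw [sub_eq_zero] at h
    rw [h] at hgw
    exact lt_irrefl _ hgw
  obtain ⟨k, d, hk, hd, hkd⟩ := exists_primitive hz
  have hkR : (0 : ℝ) < k := by exact_mod_cast hk
  have h1 : toR w' = toR v + (k : ℝ) • toR d := by
    rw [← toR_smul, ← hkd, toR_sub]; abel
  have hdm : d ∈ edgeDirs P (toR v) := by
    refine ⟨hd, toR w', ?_, (k : ℝ), hkR, h1⟩
    rw [hP]; exact hedge
  rw [← hb] at hdm
  obtain ⟨i, rfl⟩ := hdm
  have hij : i = j := by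
    by_contra hij
    rw [h1, neg_dotProduct, neg_dotProduct, dotProduct_add, dotProduct_smul,
      toR_dot (dualVec b j) (b i), dualVec_dot_basis] at hgw
    simp [hij] at hgw
  subst hij
  have hk1 : (1 : ℝ) ≤ k := by exact_mod_cast hk
  have hw'P : toR w' ∈ P := by rw [hP]; exact subset_convexHull ℝ _ ⟨w', hw', rfl⟩
  have := hPc (vertex_mem hvert) hw'P (a := 1 - 1 / (k : ℝ)) (b := 1 / (k : ℝ))
    (by rw [sub_nonneg, div_le_one hkR]; exact hk1) (by positivity) (by ring)
  convert this using 1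
  rw [h1, toR_add, smul_add, smul_smul, one_div, inv_mul_cancel₀ hkR.ne', one_smul, ← add_assoc,
    ← add_smul]
  congr 1
  rw [sub_add_cancel, one_smul]

theorem dual_facetNormal {P : Set (Fin n → ℝ)} {V : Finset (Fin n → ℤ)}
    (hP : P = convexHull ℝ (toR '' (V : Set (Fin n → ℤ)))) {v : Fin n → ℤ}
    (hvert : IsVertex P (toR v)) (b : Module.Basis (Fin n) ℤ (Fin n → ℤ))
    (hb : Set.range b = edgeDirs P (toR v)) (j : Fin n) : IsFacetNormal P (dualVec b j) := by
  classical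
  have hmax := dual_max hP hvert b hb j
  refine ⟨dualVec_primitive b j, fun k => if k = j then toR v else toR (v + b k), ?_, ?_⟩
  · rw [affineIndependent_iff_linearIndependent_vsub ℝ _ j]
    have hlin : LinearIndependent ℝ (fun k : Fin n => toR (b k)) := by
      rw [Fintype.linearIndependent_iff]
      intro a ha k
      have h3 : toR (dualVec b k) ⬝ᵥ (∑ i, a i • toR (b i)) = 0 := by
        rw [ha, dotProduct_zero]
      rw [dotProduct_sum, Finset.sum_eq_single k] at h3
      · rw [dotProduct_smul, toR_dot, dualVec_dot_basis] at h3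
        simp only [if_true, smul_eq_mul] at h3
        push_cast at h3; linarith
      · intro i _ hik
        rw [dotProduct_smul, toR_dot, dualVec_dot_basis]
        simp [hik]
      · intro h; exact absurd (Finset.mem_univ k) h
    have h7 := hlin.comp (fun i : {y // y ≠ j} => (i : Fin n)) Subtype.val_injective
    have h10 : (fun i : {y // y ≠ j} =>
        ((if (i : Fin n) = j then toR v else toR (v + b (i : Fin n))) -ᵥ
          (if j = j then toR v else toR (v + b j)) : Fin n → ℝ)) =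
        (fun k : Fin n => toR (b k)) ∘ (fun i : {y // y ≠ j} => (i : Fin n)) := by
      ext i k
      have h8 : (i : Fin n) ≠ j := i.2
      simp only [h8, if_false, if_true, Function.comp, toR_add]
      simp
    rw [h10]
    exact h7
  · intro k
    by_cases hkj : k = j
    · simp only [hkj, if_true]; exact ⟨vertex_mem hvert, hmax⟩
    · simp only [hkj, if_false]
      refine ⟨step_mem hP hvert b hb k, ?_⟩
      intro y hy
      have h3 : toR (dualVec b j) ⬝ᵥ toR (v + b k) = toR (dualVec b j) ⬝ᵥ toR v := by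
        rw [toR_add, dotProduct_add, toR_dot _ (b k), dualVec_dot_basis]
        simp [hkj]
      rw [h3]
      exact hmax y hy

/-- every facet through a vertex comes from a dual vector of the edge basis -/
theorem facetNormal_at_vertex {P : Set (Fin n → ℝ)} {V : Finset (Fin n → ℤ)}
    (hP : P = convexHull ℝ (toR '' (V : Set (Fin n → ℤ)))) {v : Fin n → ℤ}
    (hvert : IsVertex P (toR v)) (b : Module.Basis (Fin n) ℤ (Fin n → ℤ))
    (hb : Set.range b = edgeDirs P (toR v)) {u : Fin n → ℤ} (hu : IsFacetNormal P u)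
    (hvu : ∀ y ∈ P, toR u ⬝ᵥ y ≤ toR u ⬝ᵥ toR v) : ∃ j, u = dualVec b j := by
  classical
  obtain ⟨⟨hu0, hprim⟩, p, hp, hpf⟩ := hu
  have hslope : ∀ k, toR u ⬝ᵥ toR (b k) ≤ 0 := fun k => slope_nonpos hb hvu k
  have hpv : ∀ i, toR u ⬝ᵥ p i = toR u ⬝ᵥ toR v := fun i =>
    le_antisymm (hvu _ (hpf i).1) ((hpf i).2 _ (vertex_mem hvert))
  -- coordinates of the points of the facet
  have hcoord : ∀ i k, toR u ⬝ᵥ toR (b k) ≠ 0 →
      toR (dualVec b k) ⬝ᵥ p i = toR (dualVec b k) ⬝ᵥ toR v := by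
    intro i k hk
    have h1 := real_expand b (toR u) (p i - toR v)
    rw [dotProduct_sub, hpv, sub_self] at h1
    have h2 : ∑ j, (toR (dualVec b j) ⬝ᵥ (p i - toR v)) * (toR u ⬝ᵥ toR (b j)) = 0 := by
      linarith
    have h3 : ∀ j ∈ Finset.univ, 0 ≤ (toR (dualVec b j) ⬝ᵥ (p i - toR v)) * (toR u ⬝ᵥ toR (b j)) := by
      intro j _
      apply mul_nonneg_of_nonpos_of_nonpos _ (hslope j)
      rw [dotProduct_sub]
      have := dual_max hP hvert b hb j _ (hpf i).1
      linarith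
    rw [Finset.sum_eq_zero_iff_of_nonneg h3] at h2
    have h4 := h2 k (Finset.mem_univ k)
    rcases mul_eq_zero.mp h4 with h5 | h5
    · rw [dotProduct_sub] at h5; linarith
    · exact absurd h5 hk
  -- some slope is nonzero
  obtain ⟨j, hj⟩ : ∃ j, toR u ⬝ᵥ toR (b j) ≠ 0 := by
    by_contra hcon
    push Not at hcon
    have h1 := real_expand b (toR u) (toR u)
    simp only [hcon, mul_zero, Finset.sum_const_zero, neg_zero] at h1
    apply hu0
    apply toR_injective
    rw [toR_zero]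
    by_contra h2
    exact absurd h1 (dot_pos h2).ne'
  -- only one slope is nonzero
  have huniq : ∀ k, k ≠ j → toR u ⬝ᵥ toR (b k) = 0 := by
    intro k hkj
    by_contra hk
    have hfj : ∀ i, toR (dualVec b j) ⬝ᵥ p i = toR (dualVec b j) ⬝ᵥ toR v := fun i => hcoord i j hj
    have hfk : ∀ i, toR (dualVec b k) ⬝ᵥ p i = toR (dualVec b k) ⬝ᵥ toR v := fun i => hcoord i k hk
    let A : (Fin n → ℝ) →ₗ[ℝ] (Fin 2 → ℝ) :=
      { toFun := fun x => ![toR (dualVec b j) ⬝ᵥ x, toR (dualVec b k) ⬝ᵥ x]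
        map_add' := by intro x y; ext i; fin_cases i <;> simp [dotProduct_add]
        map_smul' := by intro c x; ext i; fin_cases i <;> simp [dotProduct_smul] }
    have hsurj : Function.Surjective A := by
      intro y
      refine ⟨-(y 0) • toR (b j) - (y 1) • toR (b k), ?_⟩
      ext i
      have e1 : toR (dualVec b j) ⬝ᵥ toR (b j) = -1 := by
        rw [toR_dot, dualVec_dot_basis]; simp
      have e2 : toR (dualVec b k) ⬝ᵥ toR (b k) = -1 := by
        rw [toR_dot, dualVec_dot_basis]; simp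
      have e3 : toR (dualVec b j) ⬝ᵥ toR (b k) = 0 := by
        rw [toR_dot, dualVec_dot_basis]; simp [hkj]
      have e4 : toR (dualVec b k) ⬝ᵥ toR (b j) = 0 := by
        rw [toR_dot, dualVec_dot_basis]; simp [hkj.symm]
      fin_cases i
      · show toR (dualVec b j) ⬝ᵥ (-(y 0) • toR (b j) - (y 1) • toR (b k)) = y 0
        rw [dotProduct_sub, dotProduct_smul, dotProduct_smul, e1, e3]; simp
      · show toR (dualVec b k) ⬝ᵥ (-(y 0) • toR (b j) - (y 1) • toR (b k)) = y 1
        rw [dotProduct_sub, dotProduct_smul, dotProduct_smul, e2, e4]; simp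
    have hrank := A.finrank_range_add_finrank_ker
    rw [LinearMap.range_eq_top.mpr hsurj, finrank_top] at hrank
    simp only [Module.finrank_fin_fun] at hrank
    have hsub : vectorSpan ℝ (Set.range p) ≤ LinearMap.ker A := by
      rw [vectorSpan_def, Submodule.span_le]
      rintro _ ⟨_, ⟨i1, rfl⟩, _, ⟨i2, rfl⟩, rfl⟩
      rw [SetLike.mem_coe, LinearMap.mem_ker]
      ext i
      fin_cases i
      · show toR (dualVec b j) ⬝ᵥ (p i1 - p i2) = 0
        rw [dotProduct_sub, hfj, hfj, sub_self]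
      · show toR (dualVec b k) ⬝ᵥ (p i1 - p i2) = 0
        rw [dotProduct_sub, hfk, hfk, sub_self]
    have hle := Submodule.finrank_mono hsub
    have hn1 : 0 < n := by have := j.2; omega
    have h5 : Module.finrank ℝ (vectorSpan ℝ (Set.range p)) = n - 1 := by
      apply hp.finrank_vectorSpan
      rw [Fintype.card_fin]; omega
    have hn2 : 2 ≤ n := by
      by_contra hcon
      have hn3 : n = 1 := by omega
      subst hn3
      exact hkj (Subsingleton.elim _ _)
    omega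
  -- hence `u` is a multiple of the dual vector
  refine ⟨j, ?_⟩
  have hmul : u = (-(u ⬝ᵥ b j)) • dualVec b j := by
    apply toR_injective
    rw [toR_smul]
    ext i
    have h1 := real_expand b (toR u) (toR (Pi.single i (1 : ℤ) : Fin n → ℤ))
    rw [Finset.sum_eq_single j] at h1
    · rw [toR_dot, toR_dot, toR_dot] at h1
      simp only [dotProduct_single, mul_one] at h1
      show ((u i : ℤ) : ℝ) = ((-(u ⬝ᵥ b j) : ℤ) : ℝ) * ((dualVec b j i : ℤ) : ℝ)
      rw [h1]; push_cast; ring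
    · intro k _ hk
      rw [huniq k hk, mul_zero]
    · intro h; exact absurd (Finset.mem_univ j) h
  rcases hprim _ _ hmul with h1 | h1
  · rw [h1, one_smul] at hmul; exact hmul
  · exfalso
    have h2 := hslope j
    rw [toR_dot] at h2
    have h3 : u ⬝ᵥ b j ≤ 0 := by exact_mod_cast h2
    omega

theorem dualVec_injective (b : Module.Basis (Fin n) ℤ (Fin n → ℤ)) {i j : Fin n}
    (h : dualVec b i = dualVec b j) : i = j := by
  have h1 := dualVec_dot_basis b i j
  rw [h, dualVec_dot_basis] at h1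
  by_contra hij
  simp [Ne.symm hij] at h1

end Pool.Agent.helper356_nill
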