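import Mathlib
import Pool.Agent.helper356_nill.Local

/-!
Membership criteria for points near a facet at lattice distance one from the origin.
-/

namespace Pool.Agent.helper356_nill

open Matrix

variable {n : ℕ}

/-- Separation data for a point outside of `P`: a vertex of the facet with normal `h` which is
maximal on the facet for a separating functional. -/
theorem separation {P : Set (Fin n → ℝ)} {V : Finset (Fin n → ℤ)}
    (hP : P = convexHull ℝ (toR '' (V : Set (Fin n → ℤ)))) (hV : V.Nonempty)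
    (hs : IsSmooth P) {h : Fin n → ℤ}
    (hh : IsFacetNormal P h) {z : Fin n → ℝ} (hzP : z ∉ P) :
    ∃ (w : Fin n → ℝ) (v0 : Fin n → ℤ) (b : Module.Basis (Fin n) ℤ (Fin n → ℤ)) (j0 : Fin n),
      (∀ y ∈ P, w ⬝ᵥ y < w ⬝ᵥ z) ∧ IsVertex P (toR v0) ∧ Set.range b = edgeDirs P (toR v0) ∧
      toR v0 ∈ faceOf P (toR h) ∧ h = dualVec b j0 ∧
      (∀ j, j ≠ j0 → w ⬝ᵥ toR (b j) ≤ 0) ∧
      w ⬝ᵥ z = w ⬝ᵥ toR v0 + (toR h ⬝ᵥ toR v0 - toR h ⬝ᵥ z) * (w ⬝ᵥ toR (b j0)) +
        ∑ j ∈ Finset.univ.erase j0,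
          (toR (dualVec b j) ⬝ᵥ (toR v0 - z)) * (w ⬝ᵥ toR (b j)) := by
  classical
  have hPc : Convex ℝ P := by rw [hP]; exact convex_convexHull ℝ _
  have hPk : IsCompact P := by
    rw [hP]; exact (V.finite_toSet.image toR).isCompact_convexHull (𝕜 := ℝ)
  obtain ⟨f, c, hfc, hcz⟩ := geometric_hahn_banach_closed_point hPc hPk.isClosed hzP
  set w : Fin n → ℝ := fun i => f (Pi.single i 1) with hw
  have hfw : ∀ y, f y = w ⬝ᵥ y := by
    intro y
    have hy : y = ∑ i, y i • (Pi.single i (1 : ℝ) : Fin n → ℝ) := by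
      ext k
      simp [Finset.sum_apply, Pi.single_apply]
    conv_lhs => rw [hy]
    rw [map_sum]
    simp only [map_smul, smul_eq_mul, dotProduct, hw]
    apply Finset.sum_congr rfl
    intro i _
    ring
  have hwz : ∀ y ∈ P, w ⬝ᵥ y < w ⬝ᵥ z := by
    intro y hy
    have h2 := hfc y hy
    rw [hfw] at h2 hcz
    linarith
  obtain ⟨v0, hv0V, hvert0, hmax0, hlex0⟩ := exists_vertex_lex hV (toR h) w
  rw [← hP] at hvert0 hmax0 hlex0
  have hv0F : toR v0 ∈ faceOf P (toR h) := ⟨vertex_mem hvert0, hmax0⟩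
  obtain ⟨-, b, hb⟩ := hs _ hvert0
  obtain ⟨j0, hj0⟩ := facetNormal_at_vertex hP hvert0 b hb hh hmax0
  refine ⟨w, v0, b, j0, hwz, hvert0, hb, hv0F, hj0, ?_, ?_⟩
  · intro j hj
    have h2 := hlex0 _ (step_mem hP hvert0 b hb j) (by
      rw [toR_add, dotProduct_add, hj0, toR_dot _ (b j), dualVec_dot_basis, if_neg hj]
      simp)
    rw [toR_add, dotProduct_add] at h2
    linarith
  · have h2 := real_expand b w (z - toR v0)
    rw [← Finset.add_sum_erase _ _ (Finset.mem_univ j0), ← hj0, dotProduct_sub,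
      dotProduct_sub] at h2
    have h3 : ∑ j ∈ Finset.univ.erase j0,
          (toR (dualVec b j) ⬝ᵥ (toR v0 - z)) * (w ⬝ᵥ toR (b j)) =
        -∑ j ∈ Finset.univ.erase j0,
          (toR (dualVec b j) ⬝ᵥ (z - toR v0)) * (w ⬝ᵥ toR (b j)) := by
      rw [← Finset.sum_neg_distrib]
      apply Finset.sum_congr rfl
      intro j _
      rw [dotProduct_sub, dotProduct_sub]; ring
    rw [h3]
    linarith

/-- Points between the levels `0` and `1`. -/
theorem level_mem {P : Set (Fin n → ℝ)} {V : Finset (Fin n → ℤ)}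
    (hP : P = convexHull ℝ (toR '' (V : Set (Fin n → ℤ)))) (hV : V.Nonempty)
    (hs : IsSmooth P) {h : Fin n → ℤ}
    (hh : IsFacetNormal P h) (h1 : ∀ x ∈ faceOf P (toR h), toR h ⬝ᵥ x = 1)
    {z : Fin n → ℝ} (hz0 : 0 ≤ toR h ⬝ᵥ z) (hz1 : toR h ⬝ᵥ z ≤ 1)
    (hadj : ∀ u, IsFacetNormal P u → u ≠ h → (faceOf P (toR u) ∩ faceOf P (toR h)).Nonempty →
      ∀ y ∈ faceOf P (toR u), toR u ⬝ᵥ z ≤ toR u ⬝ᵥ y) : z ∈ P := by
  classical
  by_contra hzP
  obtain ⟨w, v0, b, j0, hwz, hvert0, hb, hv0F, hj0, hwb, hexp⟩ := separation hP hV hs hh hzP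
  have hsum : ∑ j ∈ Finset.univ.erase j0,
      (toR (dualVec b j) ⬝ᵥ (toR v0 - z)) * (w ⬝ᵥ toR (b j)) ≤ 0 := by
    apply Finset.sum_nonpos
    intro j hj
    have hjj := Finset.ne_of_mem_erase hj
    have hvj : toR v0 ∈ faceOf P (toR (dualVec b j)) :=
      ⟨vertex_mem hvert0, dual_max hP hvert0 b hb j⟩
    have h2 := hadj (dualVec b j) (dual_facetNormal hP hvert0 b hb j) (by
      rw [hj0]; intro h; exact hjj (dualVec_injective b h)) ⟨toR v0, hvj, hv0F⟩ _ hvj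
    apply mul_nonpos_of_nonneg_of_nonpos _ (hwb j hjj)
    rw [dotProduct_sub]
    linarith
  rw [h1 _ hv0F] at hexp
  have h3 := hwz _ (vertex_mem hvert0)
  have h4 := hwz _ (step_mem hP hvert0 b hb j0)
  rw [toR_add, dotProduct_add] at h4
  by_cases hp : w ⬝ᵥ toR (b j0) ≤ 0
  · have : (1 - toR h ⬝ᵥ z) * (w ⬝ᵥ toR (b j0)) ≤ 0 :=
      mul_nonpos_of_nonneg_of_nonpos (by linarith) hp
    linarith
  · push Not at hp
    have : (1 - toR h ⬝ᵥ z) * (w ⬝ᵥ toR (b j0)) ≤ 1 * (w ⬝ᵥ toR (b j0)) :=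
      mul_le_mul_of_nonneg_right (by linarith) hp.le
    linarith

/-- at a vertex where `h` is not minimal, some edge direction goes down -/
theorem exists_down {P : Set (Fin n → ℝ)} {V : Finset (Fin n → ℤ)}
    (hP : P = convexHull ℝ (toR '' (V : Set (Fin n → ℤ)))) {v : Fin n → ℤ}
    (hvert : IsVertex P (toR v)) (b : Module.Basis (Fin n) ℤ (Fin n → ℤ))
    (hb : Set.range b = edgeDirs P (toR v)) {h : Fin n → ℤ} {y : Fin n → ℝ} (hy : y ∈ P)
    (hlt : toR h ⬝ᵥ y < toR h ⬝ᵥ toR v) :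
    ∃ k, h ⬝ᵥ b k ≤ -1 ∧ toR (dualVec b k) ⬝ᵥ y < toR (dualVec b k) ⬝ᵥ toR v := by
  have h2 := real_expand b (toR h) (y - toR v)
  rw [dotProduct_sub] at h2
  by_contra hcon
  push Not at hcon
  have h3 : ∑ j, (toR (dualVec b j) ⬝ᵥ (y - toR v)) * (toR h ⬝ᵥ toR (b j)) ≤ 0 := by
    apply Finset.sum_nonpos
    intro j _
    have hmax := dual_max hP hvert b hb j _ hy
    by_cases hj : h ⬝ᵥ b j ≤ -1
    · have h4 := hcon j hj
      have h5 : toR (dualVec b j) ⬝ᵥ (y - toR v) = 0 := by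
        rw [dotProduct_sub]; linarith
      rw [h5, zero_mul]
    · have h4 : 0 ≤ toR h ⬝ᵥ toR (b j) := by
        rw [toR_dot]
        have : 0 ≤ h ⬝ᵥ b j := by omega
        exact_mod_cast this
      apply mul_nonpos_of_nonpos_of_nonneg _ h4
      rw [dotProduct_sub]; linarith
  linarith

/-- Comparison criterion at level `-1`: if `z0 ∈ P` has level `-1`, and `z` has level `-1`, lies on
the right side of all facets meeting the facet `F` at distance one, and has distance at least one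
from those of these facets which do not contain `z0`, then `z ∈ P`. -/
theorem comparison {P : Set (Fin n → ℝ)} {V : Finset (Fin n → ℤ)}
    (hP : P = convexHull ℝ (toR '' (V : Set (Fin n → ℤ)))) (hV : V.Nonempty)
    (hs : IsSmooth P) {h : Fin n → ℤ}
    (hh : IsFacetNormal P h) (h1 : ∀ x ∈ faceOf P (toR h), toR h ⬝ᵥ x = 1)
    {z z0 : Fin n → ℝ} (hz : toR h ⬝ᵥ z = -1) (hz0P : z0 ∈ P) (hz0 : toR h ⬝ᵥ z0 = -1)
    (hadj : ∀ u, IsFacetNormal P u → u ≠ h → (faceOf P (toR u) ∩ faceOf P (toR h)).Nonempty →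
      ∀ y ∈ faceOf P (toR u), toR u ⬝ᵥ z ≤ toR u ⬝ᵥ y ∧
        (toR u ⬝ᵥ z0 < toR u ⬝ᵥ y → toR u ⬝ᵥ z + 1 ≤ toR u ⬝ᵥ y)) : z ∈ P := by
  classical
  by_contra hzP
  obtain ⟨w, v0, b, j0, hwz, hvert0, hb, hv0F, hj0, hwb, hexp⟩ := separation hP hV hs hh hzP
  have hhv0 := h1 _ hv0F
  have hhb : ∀ j, toR h ⬝ᵥ toR (b j) = if j = j0 then -1 else 0 := by
    intro j
    rw [hj0, toR_dot, dualVec_dot_basis]
    split_ifs <;> simp
  have hfn : ∀ j, j ≠ j0 → ∀ y ∈ faceOf P (toR (dualVec b j)),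
      toR (dualVec b j) ⬝ᵥ z ≤ toR (dualVec b j) ⬝ᵥ y ∧
        (toR (dualVec b j) ⬝ᵥ z0 < toR (dualVec b j) ⬝ᵥ y →
          toR (dualVec b j) ⬝ᵥ z + 1 ≤ toR (dualVec b j) ⬝ᵥ y) := by
    intro j hj
    have hvj : toR v0 ∈ faceOf P (toR (dualVec b j)) :=
      ⟨vertex_mem hvert0, dual_max hP hvert0 b hb j⟩
    exact hadj (dualVec b j) (dual_facetNormal hP hvert0 b hb j) (by
      rw [hj0]; intro h; exact hj (dualVec_injective b h)) ⟨toR v0, hvj, hv0F⟩
  have hvj : ∀ j, toR v0 ∈ faceOf P (toR (dualVec b j)) := fun j =>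
    ⟨vertex_mem hvert0, dual_max hP hvert0 b hb j⟩
  set p : ℝ := w ⬝ᵥ toR (b j0) with hp
  rw [hhv0, hz] at hexp
  set c : Fin n → ℝ := fun j => toR (dualVec b j) ⬝ᵥ (toR v0 - z) with hc
  have hc0 : ∀ j, j ≠ j0 → 0 ≤ c j := by
    intro j hj
    have := (hfn j hj _ (hvj j)).1
    simp only [hc]
    rw [dotProduct_sub]; linarith
  have hsum0 : ∑ j ∈ Finset.univ.erase j0, c j * (w ⬝ᵥ toR (b j)) ≤ 0 := by
    apply Finset.sum_nonpos
    intro j hj
    have hjj := Finset.ne_of_mem_erase hj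
    exact mul_nonpos_of_nonneg_of_nonpos (hc0 j hjj) (hwb j hjj)
  have hexp' : w ⬝ᵥ z = w ⬝ᵥ toR v0 + 2 * p +
      ∑ j ∈ Finset.univ.erase j0, c j * (w ⬝ᵥ toR (b j)) := by
    rw [hexp]; ring
  have hwv0 := hwz _ (vertex_mem hvert0)
  have hp0 : 0 < p := by
    by_contra hcon
    push Not at hcon
    linarith
  -- the face on which `w + p h` is maximal
  set g1 : Fin n → ℝ := w + p • toR h with hg1
  have hg1e : ∀ y, g1 ⬝ᵥ y = w ⬝ᵥ y + p * (toR h ⬝ᵥ y) := by
    intro y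
    rw [hg1, add_dotProduct w (p • toR h) y, smul_dotProduct, smul_eq_mul]
  have hg1b : ∀ j, g1 ⬝ᵥ toR (b j) = if j = j0 then 0 else w ⬝ᵥ toR (b j) := by
    intro j
    rw [hg1e, hhb]
    split_ifs with hj
    · rw [hj, ← hp]; ring
    · ring
  have hg1b' : ∀ j, g1 ⬝ᵥ toR (b j) ≤ 0 := by
    intro j
    rw [hg1b]
    split_ifs with hj
    · exact le_rfl
    · exact hwb j hj
  have hterm : ∀ y ∈ P, ∀ j, 0 ≤ (toR (dualVec b j) ⬝ᵥ (y - toR v0)) * (g1 ⬝ᵥ toR (b j)) := by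
    intro y hy j
    apply mul_nonneg_of_nonpos_of_nonpos _ (hg1b' j)
    rw [dotProduct_sub]
    have := dual_max hP hvert0 b hb j _ hy
    linarith
  have hg1max : ∀ y ∈ P, g1 ⬝ᵥ y ≤ g1 ⬝ᵥ toR v0 := by
    intro y hy
    have h2 := real_expand b g1 (y - toR v0)
    have h3 : 0 ≤ ∑ j, (toR (dualVec b j) ⬝ᵥ (y - toR v0)) * (g1 ⬝ᵥ toR (b j)) :=
      Finset.sum_nonneg (fun j _ => hterm y hy j)
    rw [dotProduct_sub] at h2
    linarith
  obtain ⟨v1, hv1V, hvert1, hmax1, hlex1⟩ := exists_vertex_lex hV g1 (-toR h)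
  rw [← hP] at hvert1 hmax1 hlex1
  have hv1P := vertex_mem hvert1
  have hg1v : g1 ⬝ᵥ toR v1 = g1 ⬝ᵥ toR v0 :=
    le_antisymm (hg1max _ hv1P) (hmax1 _ (vertex_mem hvert0))
  have hg1v0 : g1 ⬝ᵥ toR v0 = w ⬝ᵥ toR v0 + p := by rw [hg1e, hhv0, mul_one]
  have hwv1 : w ⬝ᵥ toR v1 = w ⬝ᵥ toR v0 + p - p * (toR h ⬝ᵥ toR v1) := by
    have h2 := hg1e (toR v1)
    rw [hg1v, hg1v0] at h2
    linarith
  have hlev : toR h ⬝ᵥ toR v1 ≤ 0 := by
    have hq := step_mem hP hvert0 b hb j0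
    have h2 := hlex1 _ hq (by
      rw [hg1v, toR_add, dotProduct_add, hg1b, if_pos rfl, add_zero])
    rw [neg_dotProduct, neg_dotProduct, toR_add, dotProduct_add, hhb, if_pos rfl, hhv0] at h2
    linarith
  have hlevZ : h ⬝ᵥ v1 ≤ 0 := by
    rw [toR_dot] at hlev; exact_mod_cast hlev
  rcases Int.lt_or_eq_of_le hlevZ with hneg | hzero
  · -- the face reaches level `-1`
    have h2 : toR h ⬝ᵥ toR v1 ≤ -1 := by
      rw [toR_dot]
      have : h ⬝ᵥ v1 ≤ -1 := by omega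
      exact_mod_cast this
    have h3 := hwz _ hv1P
    nlinarith
  · have hh1 : toR h ⬝ᵥ toR v1 = 0 := by rw [toR_dot, hzero]; simp
    rw [hh1, mul_zero, sub_zero] at hwv1
    obtain ⟨-, b', hb'⟩ := hs _ hvert1
    -- an edge going down
    obtain ⟨k, hkZ, hkz⟩ := exists_down hP hvert1 b' hb' (h := h) hz0P (by rw [hz0, hh1]; norm_num)
    have hk1 : toR h ⬝ᵥ toR (b' k) ≤ -1 := by
      rw [toR_dot]; exact_mod_cast hkZ
    have hq1 := step_mem hP hvert1 b' hb' k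
    have hg1k : g1 ⬝ᵥ toR (b' k) ≠ 0 := by
      intro hcon
      have h2 := hlex1 _ hq1 (by rw [toR_add, dotProduct_add, hcon, add_zero])
      rw [neg_dotProduct, neg_dotProduct, toR_add, dotProduct_add] at h2
      linarith
    -- facets containing the face contain `v1`
    have hmeet : ∀ j, g1 ⬝ᵥ toR (b j) ≠ 0 →
        toR (dualVec b j) ⬝ᵥ toR v1 = toR (dualVec b j) ⬝ᵥ toR v0 := by
      intro j hj
      have h2 := real_expand b g1 (toR v1 - toR v0)
      rw [dotProduct_sub, hg1v, sub_self] at h2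
      have h3 : ∑ j, (toR (dualVec b j) ⬝ᵥ (toR v1 - toR v0)) * (g1 ⬝ᵥ toR (b j)) = 0 := by
        linarith
      rw [Finset.sum_eq_zero_iff_of_nonneg (fun j _ => hterm _ hv1P j)] at h3
      have h4 := h3 j (Finset.mem_univ j)
      rcases mul_eq_zero.mp h4 with h5 | h5
      · rw [dotProduct_sub, sub_eq_zero] at h5
        exact h5
      · exact absurd h5 hj
    have hfac : ∀ j, g1 ⬝ᵥ toR (b j) ≠ 0 → ∃ i, dualVec b j = dualVec b' i := by
      intro j hj
      apply facetNormal_at_vertex hP hvert1 b' hb' (dual_facetNormal hP hvert0 b hb j)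
      rw [hmeet j hj]
      exact dual_max hP hvert0 b hb j
    obtain ⟨j1, hj1⟩ : ∃ j1, g1 ⬝ᵥ toR (b j1) ≠ 0 ∧ dualVec b j1 = dualVec b' k := by
      by_contra hcon
      push Not at hcon
      apply hg1k
      rw [real_expand b g1 (toR (b' k)), neg_eq_zero]
      apply Finset.sum_eq_zero
      intro j _
      by_cases hj : g1 ⬝ᵥ toR (b j) = 0
      · rw [hj, mul_zero]
      · obtain ⟨i, hi⟩ := hfac j hj
        have hik : k ≠ i := by
          intro h2
          exact hcon j hj (by rw [hi, h2])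
        rw [hi, toR_dot, dualVec_dot_basis, if_neg hik]
        simp
    have hj10 : j1 ≠ j0 := by
      intro h2
      apply hj1.1
      rw [hg1b, if_pos h2]
    have hg1k' : g1 ⬝ᵥ toR (b' k) = w ⬝ᵥ toR (b j1) := by
      rw [real_expand b g1 (toR (b' k)), Finset.sum_eq_single j1]
      · rw [hj1.2, toR_dot, dualVec_dot_basis, if_pos rfl, hg1b, if_neg hj10]
        push_cast; ring
      · intro j _ hjj
        by_cases hj : g1 ⬝ᵥ toR (b j) = 0
        · rw [hj, mul_zero]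
        · obtain ⟨i, hi⟩ := hfac j hj
          have hik : k ≠ i := by
            intro h2
            apply hjj
            apply dualVec_injective b
            rw [hi, hj1.2, h2]
          rw [hi, toR_dot, dualVec_dot_basis, if_neg hik]
          simp
      · intro h2; exact absurd (Finset.mem_univ j1) h2
    -- the facet left by the edge is at distance at least one from `z`
    have hcj1 : 1 ≤ c j1 := by
      have h2 := (hfn j1 hj10 _ (hvj j1)).2 (by
        rw [← hmeet j1 hj1.1, hj1.2]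
        exact hkz)
      simp only [hc]
      rw [dotProduct_sub]; linarith
    have hSle : ∑ j ∈ Finset.univ.erase j0, c j * (w ⬝ᵥ toR (b j)) ≤ w ⬝ᵥ toR (b j1) := by
      rw [← Finset.add_sum_erase _ _ (Finset.mem_erase.mpr ⟨hj10, Finset.mem_univ j1⟩)]
      have h2 : ∑ j ∈ (Finset.univ.erase j0).erase j1, c j * (w ⬝ᵥ toR (b j)) ≤ 0 := by
        apply Finset.sum_nonpos
        intro j hj
        have hjj := Finset.ne_of_mem_erase (Finset.mem_of_mem_erase hj)
        exact mul_nonpos_of_nonneg_of_nonpos (hc0 j hjj) (hwb j hjj)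
      have h3 := hwb j1 hj10
      nlinarith
    have h2 := hg1e (toR (b' k))
    rw [hg1k'] at h2
    have h3 := hwz _ hq1
    rw [toR_add, dotProduct_add, hwv1] at h3
    nlinarith

end Pool.Agent.helper356_nill
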