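import Mathlib
import Pool.Agent.helper356_nill.Compare

/-!
A basis in `P ∩ -P` from the combinatorial structure of a facet at lattice distance one which is a
product of simplices.
-/

namespace Pool.Agent.helper356_nill

open Matrix

variable {n : ℕ}

/-- integers with prescribed bounds and sum in a prescribed interval -/
theorem exists_sum_between {ι : Type*} [DecidableEq ι] (S : Finset ι) (L U : ι → ℤ)
    (hLU : ∀ i ∈ S, L i ≤ U i) :
    ∀ A B : ℤ, A ≤ B → ∑ i ∈ S, L i ≤ B → A ≤ ∑ i ∈ S, U i →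
      ∃ c : ι → ℤ, (∀ i ∈ S, L i ≤ c i ∧ c i ≤ U i) ∧ A ≤ ∑ i ∈ S, c i ∧ ∑ i ∈ S, c i ≤ B := by
  induction S using Finset.induction_on with
  | empty =>
    intro A B _ h1 h2
    exact ⟨fun _ => 0, by simp, by simpa using h2, by simpa using h1⟩
  | insert a S ha ih =>
    intro A B hAB h1 h2
    rw [Finset.sum_insert ha] at h1 h2
    have hS : ∑ i ∈ S, L i ≤ ∑ i ∈ S, U i :=
      Finset.sum_le_sum (fun i hi => hLU i (Finset.mem_insert_of_mem hi))
    have hLa := hLU a (Finset.mem_insert_self a S)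
    set x : ℤ := max (L a) (A - ∑ i ∈ S, U i) with hx
    have hx1 : L a ≤ x := le_max_left _ _
    have hx2 : A - ∑ i ∈ S, U i ≤ x := le_max_right _ _
    have hx3 : x ≤ U a := max_le hLa (by linarith)
    have hx4 : x ≤ B - ∑ i ∈ S, L i := max_le (by linarith) (by linarith)
    obtain ⟨c, hc, hc1, hc2⟩ := ih (fun i hi => hLU i (Finset.mem_insert_of_mem hi))
      (A - x) (B - x) (by linarith) (by linarith) (by linarith)
    have hcs : ∑ i ∈ S, (fun i => if i = a then x else c i) i = ∑ i ∈ S, c i := by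
      apply Finset.sum_congr rfl
      intro i hi
      have : i ≠ a := by rintro rfl; exact ha hi
      simp [this]
    refine ⟨fun i => if i = a then x else c i, ?_, ?_, ?_⟩
    · intro i hi
      rcases Finset.mem_insert.mp hi with hia | hiS
      · simp [hia, hx1, hx3]
      · have : i ≠ a := by rintro rfl; exact ha hiS
        simpa [this] using hc i hiS
    · rw [Finset.sum_insert ha, hcs]
      simp; linarith
    · rw [Finset.sum_insert ha, hcs]
      simp; linarith

/-- the other end of an edge is a vertex -/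
theorem edge_end_vertex {P : Set (Fin n → ℝ)} {V : Finset (Fin n → ℤ)}
    (hP : P = convexHull ℝ (toR '' (V : Set (Fin n → ℤ)))) (hV : V.Nonempty)
    {v w : Fin n → ℝ} (he : IsEdge P v w) : IsVertex P w := by
  obtain ⟨hvw, φ, hφ⟩ := he
  obtain ⟨v', -, hvert, hmax, hlex⟩ := exists_vertex_lex hV φ (w - v)
  rw [← hP] at hvert hmax hlex
  have hv' : toR v' ∈ segment ℝ v w := by
    rw [← hφ]; exact ⟨vertex_mem hvert, hmax⟩
  have hw : w ∈ faceOf P φ := by rw [hφ]; exact right_mem_segment ℝ v w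
  have h1 := hlex w hw.1 (le_antisymm (hmax w hw.1) (hw.2 _ (vertex_mem hvert)))
  rw [segment_eq_image'] at hv'
  obtain ⟨t, ⟨ht0, ht1⟩, ht⟩ := hv'
  have hpos : 0 < (w - v) ⬝ᵥ (w - v) := dot_pos (sub_ne_zero.mpr hvw.symm)
  have h2 : (w - v) ⬝ᵥ w = (w - v) ⬝ᵥ v + (w - v) ⬝ᵥ (w - v) := by
    rw [← dotProduct_add]; congr 1; abel
  have h3 : (w - v) ⬝ᵥ toR v' = (w - v) ⬝ᵥ v + t * ((w - v) ⬝ᵥ (w - v)) := by
    rw [← ht]
    show (w - v) ⬝ᵥ (v + t • (w - v)) = _
    rw [dotProduct_add, dotProduct_smul, smul_eq_mul]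
  rw [h2, h3] at h1
  have h4 : t = 1 := by
    have : (1 - t) * ((w - v) ⬝ᵥ (w - v)) ≤ 0 := by linarith
    by_contra hne
    have h5 : 0 < 1 - t := by
      rcases ht1.eq_or_lt with h | h
      · exact absurd h hne
      · linarith
    have := mul_pos h5 hpos
    linarith
  have h5 : toR v' = w := by
    rw [← ht, h4]
    show v + (1 : ℝ) • (w - v) = w
    rw [one_smul]; abel
  rw [← h5]; exact hvert

/-- the edge in direction `b j` ends at a lattice vertex `v + k b_j`, `k ≥ 1` -/
theorem edge_step {P : Set (Fin n → ℝ)} {V : Finset (Fin n → ℤ)}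
    (hP : P = convexHull ℝ (toR '' (V : Set (Fin n → ℤ)))) (hV : V.Nonempty) {v : Fin n → ℤ}
    (hvert : IsVertex P (toR v)) (b : Module.Basis (Fin n) ℤ (Fin n → ℤ))
    (hb : Set.range b = edgeDirs P (toR v)) (j : Fin n) :
    ∃ k : ℤ, 1 ≤ k ∧ IsVertex P (toR (v + k • b j)) := by
  have hbe : b j ∈ edgeDirs P (toR v) := by rw [← hb]; exact Set.mem_range_self j
  obtain ⟨-, x, hx, t, ht, hxt⟩ := hbe
  have hxP := edge_mem hx
  have hvert' := hvert
  rw [hP] at hvert'
  have hlt : (-toR (dualVec b j)) ⬝ᵥ toR v < (-toR (dualVec b j)) ⬝ᵥ x := by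
    rw [hxt, neg_dotProduct, neg_dotProduct, dotProduct_add, dotProduct_smul,
      toR_dot (dualVec b j) (b j), dualVec_dot_basis]
    simp only [if_true, smul_eq_mul]
    push_cast
    linarith
  obtain ⟨w, ⟨w', hw', rfl⟩, hedge, hgw⟩ :=
    exists_edge_up (V.finite_toSet.image _) hvert' (-toR (dualVec b j)) (by rw [← hP]; exact hxP) hlt
  have hz : w' - v ≠ 0 := by
    intro h
    rw [sub_eq_zero] at h
    rw [h] at hgw
    exact lt_irrefl _ hgw
  obtain ⟨k, d, hk, hd, hkd⟩ := exists_primitive hz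
  have hkR : (0 : ℝ) < k := by exact_mod_cast hk
  have h1 : toR w' = toR v + (k : ℝ) • toR d := by
    rw [← toR_smul, ← hkd, toR_sub]; abel
  rw [← hP] at hedge
  have hdm : d ∈ edgeDirs P (toR v) := ⟨hd, toR w', hedge, (k : ℝ), hkR, h1⟩
  rw [← hb] at hdm
  obtain ⟨i, rfl⟩ := hdm
  have hij : i = j := by
    by_contra hij
    rw [h1, neg_dotProduct, neg_dotProduct, dotProduct_add, dotProduct_smul,
      toR_dot (dualVec b j) (b i), dualVec_dot_basis] at hgw
    simp [hij] at hgw
  subst hij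
  refine ⟨k, by omega, ?_⟩
  have h2 : v + k • b i = w' := by rw [← hkd]; abel
  rw [h2]
  exact edge_end_vertex hP hV hedge

/-- the first lattice point of a lattice segment -/
theorem seg_mem {P : Set (Fin n → ℝ)} (hPc : Convex ℝ P) {q e : Fin n → ℤ} {m : ℤ} (hm : 1 ≤ m)
    (hq : toR q ∈ P) (hqm : toR (q + m • e) ∈ P) : toR (q + e) ∈ P := by
  have hkR : (0 : ℝ) < m := by exact_mod_cast (by omega : 0 < m)
  have hk1 : (1 : ℝ) ≤ m := by exact_mod_cast hm
  have := hPc hq hqm (a := 1 - 1 / (m : ℝ)) (b := 1 / (m : ℝ))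
    (by rw [sub_nonneg, div_le_one hkR]; exact hk1) (by positivity) (by ring)
  convert this using 1
  rw [toR_add, toR_add, toR_smul, smul_add, smul_smul, one_div, inv_mul_cancel₀ hkR.ne', one_smul,
    ← add_assoc, ← add_smul]
  congr 1
  rw [sub_add_cancel, one_smul]

/-- a facet functional is positive -/
theorem facet_pos {P : Set (Fin n → ℝ)} (h0 : (0 : Fin n → ℝ) ∈ interior P) {u v : Fin n → ℤ}
    (hu : u ≠ 0) (hmax : ∀ y ∈ P, toR u ⬝ᵥ y ≤ toR u ⬝ᵥ toR v) : 1 ≤ u ⬝ᵥ v := by
  obtain ⟨t, ht, htP⟩ := exists_pos_smul_mem h0 (toR u)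
  have h3 := hmax _ htP
  rw [dotProduct_smul, toR_dot, toR_dot, smul_eq_mul] at h3
  have h4 : 0 < toR u ⬝ᵥ toR u := by
    apply dot_pos
    intro h
    apply hu
    apply toR_injective
    rw [h, toR_zero]
  rw [toR_dot] at h4
  have h5 : (0 : ℝ) < ((u ⬝ᵥ v : ℤ) : ℝ) := lt_of_lt_of_le (mul_pos ht h4) h3
  have h6 : 0 < u ⬝ᵥ v := by exact_mod_cast h5
  omega

/-- expansion of an integer vector in a basis, by dual vectors -/
theorem int_expand (b : Module.Basis (Fin n) ℤ (Fin n → ℤ)) (g x : Fin n → ℤ) :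
    g ⬝ᵥ x = -∑ j, (dualVec b j ⬝ᵥ x) * (g ⬝ᵥ b j) := by
  conv_lhs => rw [← b.sum_repr x]
  rw [dotProduct_sum, ← Finset.sum_neg_distrib]
  apply Finset.sum_congr rfl
  intro j _
  rw [dotProduct_smul, dualVec_dot, smul_eq_mul]; ring

/-- replacing one member of a basis -/
theorem basis_replace (b : Module.Basis (Fin n) ℤ (Fin n → ℤ)) (j0 : Fin n) (x : Fin n → ℤ)
    (hx : b.repr x j0 = -1) :
    ∃ c : Module.Basis (Fin n) ℤ (Fin n → ℤ), ∀ j, c j = if j = j0 then x else b j := by
  classical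
  set c : Fin n → (Fin n → ℤ) := fun j => if j = j0 then x else b j with hc
  have hli : LinearIndependent ℤ c := by
    rw [Fintype.linearIndependent_iff]
    intro a ha
    have hrep : ∀ k, ∑ j, a j * (b.repr (c j) k) = 0 := by
      intro k
      have h2 := congrArg (fun y => b.repr y k) ha
      simp only [map_sum, map_smul, Finsupp.coe_finsetSum, Finset.sum_apply, Finsupp.smul_apply,
        smul_eq_mul, map_zero, Finsupp.zero_apply] at h2
      exact h2
    have ha0 : a j0 = 0 := by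
      have h2 := hrep j0
      rw [Finset.sum_eq_single j0] at h2
      · simp only [hc, if_true, hx] at h2; omega
      · intro j _ hj
        simp [hc, hj, b.repr_self]
      · intro h; exact absurd (Finset.mem_univ j0) h
    intro k
    by_cases hk : k = j0
    · rw [hk]; exact ha0
    · have h2 := hrep k
      rw [Finset.sum_eq_single k] at h2
      · simpa [hc, hk, b.repr_self] using h2
      · intro j _ hj
        by_cases hj0 : j = j0
        · rw [hj0, ha0, zero_mul]
        · simp [hc, hj0, b.repr_self, hj]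
      · intro h; exact absurd (Finset.mem_univ k) h
  have hspan : ⊤ ≤ Submodule.span ℤ (Set.range c) := by
    have hxs : x ∈ Submodule.span ℤ (Set.range c) := by
      apply Submodule.subset_span
      exact ⟨j0, by simp [hc]⟩
    have hbj : ∀ j, j ≠ j0 → b j ∈ Submodule.span ℤ (Set.range c) := by
      intro j hj
      apply Submodule.subset_span
      exact ⟨j, by simp [hc, hj]⟩
    have hb0 : b j0 ∈ Submodule.span ℤ (Set.range c) := by
      have h2 := b.sum_repr x
      rw [← Finset.add_sum_erase _ _ (Finset.mem_univ j0), hx] at h2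
      have h3 : b j0 = (∑ j ∈ Finset.univ.erase j0, (b.repr x j) • b j) - x := by
        generalize (∑ j ∈ Finset.univ.erase j0, (b.repr x j) • b j) = T at h2 ⊢
        rw [← h2, neg_one_smul]; abel
      rw [h3]
      refine Submodule.sub_mem _ (Submodule.sum_mem _ (fun j hj => ?_)) hxs
      exact Submodule.smul_mem _ _ (hbj j (Finset.ne_of_mem_erase hj))
    rw [← b.span_eq, Submodule.span_le]
    rintro _ ⟨j, rfl⟩
    by_cases hj : j = j0
    · rw [hj]; exact hb0
    · exact hbj j hj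
  refine ⟨Module.Basis.mk hli hspan, fun i => ?_⟩
  rw [Module.Basis.mk_apply]

/-- A facet at lattice distance one whose neighbouring facets form the fan of a product of
projective spaces yields a basis in `P ∩ -P`. -/
theorem basis_of_structure {P : Set (Fin n → ℝ)} {V : Finset (Fin n → ℤ)}
    (hP : P = convexHull ℝ (toR '' (V : Set (Fin n → ℤ)))) (hV : V.Nonempty)
    (h0 : (0 : Fin n → ℝ) ∈ interior P) (hs : IsSmooth P) {h : Fin n → ℤ}
    (hh : IsFacetNormal P h) (h1 : ∀ x ∈ faceOf P (toR h), toR h ⬝ᵥ x = 1)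
    {v : Fin n → ℤ} (hvert : IsVertex P (toR v)) (hvF : toR v ∈ faceOf P (toR h))
    (b : Module.Basis (Fin n) ℤ (Fin n → ℤ)) (hb : Set.range b = edgeDirs P (toR v))
    {i0 : Fin n} (hi0 : h = dualVec b i0) {m : ℕ} (σ : Fin n → Fin m)
    (q : Fin m → (Fin n → ℤ))
    (hq : ∀ s, (∃ l, l ≠ i0 ∧ σ l = s) → IsFacetNormal P (q s) ∧
      ∀ l, l ≠ i0 → q s ⬝ᵥ b l = if σ l = s then 1 else 0)
    (hcover : ∀ u, IsFacetNormal P u → u ≠ h →
      (faceOf P (toR u) ∩ faceOf P (toR h)).Nonempty →
        (∃ l, l ≠ i0 ∧ u = dualVec b l) ∨ (∃ s, (∃ l, l ≠ i0 ∧ σ l = s) ∧ u = q s)) :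
    ∃ c : Module.Basis (Fin n) ℤ (Fin n → ℤ), ∀ i, toR (c i) ∈ P ∧ -toR (c i) ∈ P := by
  classical
  have hPc : Convex ℝ P := by rw [hP]; exact convex_convexHull ℝ _
  -- distances of the neighbouring facets from the origin
  set β : Fin n → ℤ := fun l => dualVec b l ⬝ᵥ v with hβ
  have hβ1 : ∀ l, 1 ≤ β l := fun l =>
    facet_pos h0 (dualVec_ne_zero b l) (dual_max hP hvert b hb l)
  have hY : ∀ s, ∃ y : Fin n → ℤ, toR y ∈ P ∧ ∀ x ∈ P, toR (q s) ⬝ᵥ x ≤ toR (q s) ⬝ᵥ toR y := by
    intro s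
    obtain ⟨y, -, hy, hmax, -⟩ := exists_vertex_lex hV (toR (q s)) 0
    rw [← hP] at hy hmax
    exact ⟨y, vertex_mem hy, hmax⟩
  choose Y hYP hYmax using hY
  set γ : Fin m → ℤ := fun s => q s ⬝ᵥ Y s with hγ
  have hγ1 : ∀ s, (∃ l, l ≠ i0 ∧ σ l = s) → 1 ≤ γ s := fun s hs' =>
    facet_pos h0 (hq s hs').1.1.1 (hYmax s)
  have hhv : h ⬝ᵥ v = 1 := by
    have := h1 _ hvF
    rw [toR_dot] at this; exact_mod_cast this
  have hhb : ∀ j, h ⬝ᵥ b j = if j = i0 then -1 else 0 := by
    intro j; rw [hi0, dualVec_dot_basis]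
  have hdual_le : ∀ z : Fin n → ℤ, toR z ∈ P → ∀ l, dualVec b l ⬝ᵥ z ≤ β l := by
    intro z hz l
    have := dual_max hP hvert b hb l _ hz
    rw [toR_dot, toR_dot] at this
    exact_mod_cast this
  have hq_le : ∀ z : Fin n → ℤ, toR z ∈ P → ∀ s, q s ⬝ᵥ z ≤ γ s := by
    intro z hz s
    have := hYmax s _ hz
    rw [toR_dot, toR_dot] at this
    exact_mod_cast this
  -- membership at levels between 0 and 1
  have hlevel : ∀ z : Fin n → ℤ, 0 ≤ h ⬝ᵥ z → h ⬝ᵥ z ≤ 1 → (∀ l, l ≠ i0 → dualVec b l ⬝ᵥ z ≤ β l) →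
      (∀ s, (∃ l, l ≠ i0 ∧ σ l = s) → q s ⬝ᵥ z ≤ γ s) → toR z ∈ P := by
    intro z hz0 hz1 hzd hzq
    apply level_mem hP hV hs hh h1
    · rw [toR_dot]; exact_mod_cast hz0
    · rw [toR_dot]; exact_mod_cast hz1
    · intro u hu huh hmeet y hy
      rcases hcover u hu huh hmeet with ⟨l, hl, rfl⟩ | ⟨s, hs', rfl⟩
      · have h2 := hy.2 _ (vertex_mem hvert)
        have h3 := hzd l hl
        have h4 : toR (dualVec b l) ⬝ᵥ toR z ≤ toR (dualVec b l) ⬝ᵥ toR v := by
          rw [toR_dot, toR_dot]; exact_mod_cast h3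
        linarith
      · have h2 := hy.2 _ (hYP s)
        have h3 := hzq s hs'
        have h4 : toR (q s) ⬝ᵥ toR z ≤ toR (q s) ⬝ᵥ toR (Y s) := by
          rw [toR_dot, toR_dot]; exact_mod_cast h3
        linarith
  -- the block functionals in terms of the dual vectors
  set blk : Fin m → Finset (Fin n) := fun s => Finset.univ.filter (fun l => l ≠ i0 ∧ σ l = s)
    with hblk
  have hqz : ∀ s, (∃ l, l ≠ i0 ∧ σ l = s) → ∀ z : Fin n → ℤ,
      q s ⬝ᵥ z = -(h ⬝ᵥ z) * (q s ⬝ᵥ b i0) - ∑ l ∈ blk s, dualVec b l ⬝ᵥ z := by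
    intro s hs' z
    rw [int_expand b (q s) z, ← Finset.add_sum_erase _ _ (Finset.mem_univ i0), ← hi0]
    have h2 : ∑ l ∈ Finset.univ.erase i0, (dualVec b l ⬝ᵥ z) * (q s ⬝ᵥ b l) =
        ∑ l ∈ blk s, dualVec b l ⬝ᵥ z := by
      rw [hblk]
      simp only
      rw [Finset.sum_filter, ← Finset.add_sum_erase Finset.univ
        (fun l => if l ≠ i0 ∧ σ l = s then dualVec b l ⬝ᵥ z else 0) (Finset.mem_univ i0)]
      simp only [ne_eq, not_true_eq_false, false_and, if_false, zero_add]
      apply Finset.sum_congr rfl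
      intro l hl
      have hl' := Finset.ne_of_mem_erase hl
      rw [(hq s hs').2 l hl']
      simp [hl']
    rw [h2]; ring
  have hblk_mem : ∀ s l, l ∈ blk s ↔ l ≠ i0 ∧ σ l = s := by
    intro s l; simp [hblk]
  -- the edge vectors inside the facet lie in `P ∩ -P`
  have hroot : ∀ l, l ≠ i0 → toR (b l) ∈ P ∧ -toR (b l) ∈ P := by
    intro l hl
    constructor
    · apply hlevel
      · rw [hhb, if_neg hl]
      · rw [hhb, if_neg hl]; norm_num
      · intro l' _
        rw [dualVec_dot_basis]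
        have := hβ1 l'
        split_ifs <;> omega
      · intro s hs'
        rw [(hq s hs').2 l hl]
        have := hγ1 s hs'
        split_ifs <;> omega
    · rw [← toR_neg]
      apply hlevel
      · rw [dotProduct_neg, hhb, if_neg hl]; norm_num
      · rw [dotProduct_neg, hhb, if_neg hl]; norm_num
      · intro l' _
        rw [dotProduct_neg, dualVec_dot_basis]
        have := hβ1 l'
        split_ifs <;> omega
      · intro s hs'
        rw [dotProduct_neg, (hq s hs').2 l hl]
        have := hγ1 s hs'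
        split_ifs <;> omega
  -- a lattice point of `P` at level `-1`
  obtain ⟨z0, hz0P, hz0⟩ : ∃ z0 : Fin n → ℤ, toR z0 ∈ P ∧ h ⬝ᵥ z0 = -1 := by
    obtain ⟨k, hk1, hkv⟩ := edge_step hP hV hvert b hb i0
    by_cases hk : 2 ≤ k
    · refine ⟨v + b i0 + b i0, ?_, ?_⟩
      · apply seg_mem hPc (m := k - 1) (by omega) (step_mem hP hvert b hb i0)
        have : v + b i0 + (k - 1) • b i0 = v + k • b i0 := by
          rw [sub_smul, one_smul]; abel
        rw [this]; exact vertex_mem hkv
      · rw [dotProduct_add, dotProduct_add, hhv, hhb, if_pos rfl]; norm_num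
    · have hk' : k = 1 := by omega
      subst hk'
      rw [one_smul] at hkv
      have hhv1 : h ⬝ᵥ (v + b i0) = 0 := by
        rw [dotProduct_add, hhv, hhb, if_pos rfl]; norm_num
      obtain ⟨-, b', hb'⟩ := hs _ hkv
      obtain ⟨t, ht, htP⟩ := exists_pos_smul_mem h0 (-toR h)
      obtain ⟨κ, hκ, -⟩ := exists_down hP hkv b' hb' (h := h) htP (by
        rw [toR_dot h (v + b i0), hhv1, dotProduct_smul, dotProduct_neg, smul_eq_mul]
        have h4 : 0 < toR h ⬝ᵥ toR h := by
          apply dot_pos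
          intro h5
          apply hh.1.1
          apply toR_injective
          rw [h5, toR_zero]
        have := mul_pos ht h4
        push_cast
        linarith)
      have hd := step_mem hP hkv b' hb' κ
      have hτ : ∀ l, l ≠ i0 → ∃ τ, dualVec b l = dualVec b' τ := by
        intro l hl
        apply facetNormal_at_vertex hP hkv b' hb' (dual_facetNormal hP hvert b hb l)
        intro y hy
        have h2 := dual_max hP hvert b hb l y hy
        have h3 : toR (dualVec b l) ⬝ᵥ toR (v + b i0) = toR (dualVec b l) ⬝ᵥ toR v := by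
          rw [toR_add, dotProduct_add, toR_dot _ (b i0), dualVec_dot_basis, if_neg hl.symm]
          simp
        rw [h3]; exact h2
      have hdz : ∀ l, l ≠ i0 → dualVec b l ≠ dualVec b' κ → dualVec b l ⬝ᵥ b' κ = 0 := by
        intro l hl hne
        obtain ⟨τ, hτ'⟩ := hτ l hl
        rw [hτ', dualVec_dot_basis, if_neg]
        rintro rfl
        exact hne hτ'
      set M : ℤ := -(h ⬝ᵥ b' κ) with hM
      have hM1 : 1 ≤ M := by omega
      by_cases hl : ∃ l, l ≠ i0 ∧ dualVec b l = dualVec b' κ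
      · obtain ⟨l, hl0, hlκ⟩ := hl
        have hdec : b' κ = b l + M • b i0 := by
          rw [← b.sum_repr (b' κ), ← Finset.add_sum_erase _ _ (Finset.mem_univ i0),
            Finset.sum_eq_single l]
          · have e1 : b.repr (b' κ) i0 = M := by
              have := dualVec_dot b i0 (b' κ)
              rw [← hi0] at this; omega
            have e2 : b.repr (b' κ) l = 1 := by
              have := dualVec_dot b l (b' κ)
              rw [hlκ, dualVec_dot_basis, if_pos rfl] at this; omega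
            rw [e1, e2, one_smul]; abel
          · intro l' hl' hne
            have hl'0 := Finset.ne_of_mem_erase hl'
            have e3 : b.repr (b' κ) l' = 0 := by
              have := dualVec_dot b l' (b' κ)
              rw [hdz l' hl'0 (by rw [← hlκ]; intro h; exact hne (dualVec_injective b h))] at this
              omega
            rw [e3, zero_smul]
          · intro hcon; exact absurd (Finset.mem_erase.mpr ⟨hl0, Finset.mem_univ l⟩) hcon
        have hq'h : h ⬝ᵥ (v + b i0 + b l) = 0 := by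
          rw [dotProduct_add, hhv1, hhb, if_neg hl0]; norm_num
        have hq'd : ∀ l', l' ≠ i0 → dualVec b l' ⬝ᵥ (v + b i0 + b l) ≤ β l' ∧
            0 ≤ dualVec b l' ⬝ᵥ (v + b i0 + b l) := by
          intro l' hl'
          rw [dotProduct_add, dotProduct_add, dualVec_dot_basis, dualVec_dot_basis,
            if_neg hl'.symm]
          have := hβ1 l'
          simp only [hβ] at this ⊢
          split_ifs <;> omega
        have hq'P : toR (v + b i0 + b l) ∈ P := by
          apply hlevel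
          · rw [hq'h]
          · rw [hq'h]; norm_num
          · intro l' hl'; exact (hq'd l' hl').1
          · intro s hs'
            rw [hqz s hs', hq'h, neg_zero, zero_mul, zero_sub]
            have h2 : 0 ≤ ∑ l' ∈ blk s, dualVec b l' ⬝ᵥ (v + b i0 + b l) :=
              Finset.sum_nonneg (fun l' hl' => (hq'd l' ((hblk_mem s l').mp hl').1).2)
            have := hγ1 s hs'
            omega
        refine ⟨v + b i0 + b l + b i0, ?_, ?_⟩
        · apply seg_mem hPc hM1 hq'P
          have : v + b i0 + b l + M • b i0 = v + b i0 + b' κ := by rw [hdec]; abel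
          rw [this]; exact hd
        · rw [dotProduct_add, hq'h, hhb, if_pos rfl]; norm_num
      · push Not at hl
        have hdec : b' κ = M • b i0 := by
          rw [← b.sum_repr (b' κ), Finset.sum_eq_single i0]
          · have e1 : b.repr (b' κ) i0 = M := by
              have := dualVec_dot b i0 (b' κ)
              rw [← hi0] at this; omega
            rw [e1]
          · intro l' _ hl'0
            have e3 : b.repr (b' κ) l' = 0 := by
              have := dualVec_dot b l' (b' κ)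
              rw [hdz l' hl'0 (hl l' hl'0)] at this
              omega
            rw [e3, zero_smul]
          · intro hcon; exact absurd (Finset.mem_univ i0) hcon
        refine ⟨v + b i0 + b i0, ?_, ?_⟩
        · apply seg_mem hPc hM1 (vertex_mem hkv)
          rw [← hdec]; exact hd
        · rw [dotProduct_add, hhv1, hhb, if_pos rfl]; norm_num
  -- choice of the new distances
  set L : Fin n → ℤ := fun l => if dualVec b l ⬝ᵥ z0 < β l then 1 else 0 with hL
  have hL2 : ∀ l, L l ≤ 2 * β l := by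
    intro l
    have := hβ1 l
    simp only [hL]
    split_ifs <;> omega
  have hL0 : ∀ l, 0 ≤ L l := by
    intro l
    simp only [hL]
    split_ifs <;> omega
  have hLz : ∀ l, L l ≤ β l - dualVec b l ⬝ᵥ z0 := by
    intro l
    have := hdual_le z0 hz0P l
    simp only [hL]
    split_ifs <;> omega
  have hchoice : ∀ s, ∃ c : Fin n → ℤ, (∃ l, l ≠ i0 ∧ σ l = s) →
      (∀ l ∈ blk s, L l ≤ c l ∧ c l ≤ 2 * β l) ∧
      -γ s ≤ q s ⬝ᵥ b i0 - ∑ l ∈ blk s, β l + ∑ l ∈ blk s, c l ∧
      q s ⬝ᵥ b i0 - ∑ l ∈ blk s, β l + ∑ l ∈ blk s, c l ≤ γ s ∧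
      (q s ⬝ᵥ z0 < γ s → q s ⬝ᵥ b i0 - ∑ l ∈ blk s, β l + ∑ l ∈ blk s, c l ≤ γ s - 1) := by
    intro s
    by_cases hs' : ∃ l, l ≠ i0 ∧ σ l = s
    · set ε : ℤ := if q s ⬝ᵥ z0 < γ s then 1 else 0 with hε
      have hε1 : ε ≤ 1 := by simp only [hε]; split_ifs <;> omega
      have hε0 : 0 ≤ ε := by simp only [hε]; split_ifs <;> omega
      have hεz : q s ⬝ᵥ z0 ≤ γ s - ε := by
        have := hq_le z0 hz0P s
        simp only [hε]; split_ifs <;> omega
      have hγs := hγ1 s hs'
      have hz0q := hqz s hs' z0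
      rw [hz0] at hz0q
      have hvq := hqz s hs' v
      rw [hhv] at hvq
      have hvle := hq_le v (vertex_mem hvert) s
      have hβsum : ∑ l ∈ blk s, dualVec b l ⬝ᵥ v = ∑ l ∈ blk s, β l := rfl
      have hLsum : ∑ l ∈ blk s, L l ≤ ∑ l ∈ blk s, (β l - dualVec b l ⬝ᵥ z0) :=
        Finset.sum_le_sum (fun l _ => hLz l)
      rw [Finset.sum_sub_distrib] at hLsum
      obtain ⟨c, hc, hc1, hc2⟩ := exists_sum_between (blk s) L (fun l => 2 * β l)
        (fun l _ => hL2 l) (-γ s + ∑ l ∈ blk s, β l - q s ⬝ᵥ b i0)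
        (γ s - ε + ∑ l ∈ blk s, β l - q s ⬝ᵥ b i0) (by linarith) (by linarith)
        (by rw [← Finset.mul_sum]; linarith)
      refine ⟨c, fun _ => ⟨hc, by linarith, by linarith, fun hlt => ?_⟩⟩
      have hε' : ε = 1 := by simp only [hε]; rw [if_pos hlt]
      linarith
    · exact ⟨fun _ => 0, fun h => absurd h hs'⟩
  choose c hc using hchoice
  set C : Fin n → ℤ := fun l => c (σ l) l with hC
  have hCsum : ∀ s, ∑ l ∈ blk s, C l = ∑ l ∈ blk s, c s l := by
    intro s
    apply Finset.sum_congr rfl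
    intro l hl
    simp only [hC, ((hblk_mem s l).mp hl).2]
  set z : Fin n → ℤ := v + (∑ l ∈ Finset.univ.erase i0, C l • b l) + (2 : ℤ) • b i0 with hz
  have hzd : ∀ l, l ≠ i0 → dualVec b l ⬝ᵥ z = β l - C l := by
    intro l hl
    rw [hz, dotProduct_add, dotProduct_add, dotProduct_smul, dualVec_dot_basis, if_neg hl.symm,
      dotProduct_sum, Finset.sum_eq_single l]
    · rw [dotProduct_smul, dualVec_dot_basis, if_pos rfl]
      simp only [hβ, smul_eq_mul]; ring
    · intro j _ hj
      rw [dotProduct_smul, dualVec_dot_basis, if_neg hj, smul_zero]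
    · intro hcon; exact absurd (Finset.mem_erase.mpr ⟨hl, Finset.mem_univ l⟩) hcon
  have hzh : h ⬝ᵥ z = -1 := by
    rw [hz, dotProduct_add, dotProduct_add, dotProduct_smul, hhb, if_pos rfl, hhv,
      dotProduct_sum, Finset.sum_eq_zero]
    · simp
    · intro j hj
      rw [dotProduct_smul, hhb, if_neg (Finset.ne_of_mem_erase hj), smul_zero]
  have hzq : ∀ s, (∃ l, l ≠ i0 ∧ σ l = s) →
      q s ⬝ᵥ z = q s ⬝ᵥ b i0 - ∑ l ∈ blk s, β l + ∑ l ∈ blk s, c s l := by
    intro s hs'
    rw [hqz s hs' z, hzh, ← hCsum]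
    have : ∑ l ∈ blk s, dualVec b l ⬝ᵥ z = ∑ l ∈ blk s, (β l - C l) :=
      Finset.sum_congr rfl (fun l hl => hzd l ((hblk_mem s l).mp hl).1)
    rw [this, Finset.sum_sub_distrib]; ring
  have hCl : ∀ l, l ≠ i0 → L l ≤ C l ∧ C l ≤ 2 * β l := by
    intro l hl
    exact (hc (σ l) ⟨l, hl, rfl⟩).1 l ((hblk_mem (σ l) l).mpr ⟨hl, rfl⟩)
  have hzP : toR z ∈ P := by
    apply comparison hP hV hs hh h1 (z0 := toR z0)
    · rw [toR_dot, hzh]; norm_num
    · exact hz0P
    · rw [toR_dot, hz0]; norm_num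
    · intro u hu huh hmeet y hy
      rcases hcover u hu huh hmeet with ⟨l, hl, rfl⟩ | ⟨s, hs', rfl⟩
      · have h2 := hy.2 _ (vertex_mem hvert)
        have h2' := dual_max hP hvert b hb l _ hy.1
        have h3 : toR (dualVec b l) ⬝ᵥ y = ((β l : ℤ) : ℝ) := by
          rw [← toR_dot (dualVec b l) v] ; exact le_antisymm h2' h2
        rw [h3, toR_dot, toR_dot, hzd l hl]
        have h4 := hL0 l
        have h5 := (hCl l hl).1
        refine ⟨by exact_mod_cast (by omega : β l - C l ≤ β l), fun hlt => ?_⟩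
        have h6 : dualVec b l ⬝ᵥ z0 < β l := by exact_mod_cast hlt
        have h7 : L l = 1 := by simp only [hL]; rw [if_pos h6]
        exact_mod_cast (by omega : β l - C l + 1 ≤ β l)
      · have h2 := hy.2 _ (hYP s)
        have h2' := hYmax s _ hy.1
        have h3 : toR (q s) ⬝ᵥ y = ((γ s : ℤ) : ℝ) := by
          rw [← toR_dot (q s) (Y s)]; exact le_antisymm h2' h2
        obtain ⟨-, hc1, hc2, hc3⟩ := hc s hs'
        rw [h3, toR_dot, toR_dot]
        have h4 := hzq s hs'
        refine ⟨by exact_mod_cast (by omega : q s ⬝ᵥ z ≤ γ s), fun hlt => ?_⟩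
        have h6 : q s ⬝ᵥ z0 < γ s := by exact_mod_cast hlt
        have h7 := hc3 h6
        exact_mod_cast (by omega : q s ⬝ᵥ z + 1 ≤ γ s)
  have hznP : toR (-z) ∈ P := by
    apply hlevel
    · rw [dotProduct_neg, hzh]; norm_num
    · rw [dotProduct_neg, hzh]; norm_num
    · intro l hl
      rw [dotProduct_neg, hzd l hl]
      have := (hCl l hl).2
      omega
    · intro s hs'
      rw [dotProduct_neg, hzq s hs']
      have := (hc s hs').2.1
      omega
  obtain ⟨B, hB⟩ := basis_replace b i0 (-z) (by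
    have h2 := dualVec_dot b i0 (-z)
    rw [← hi0, dotProduct_neg, hzh] at h2
    omega)
  refine ⟨B, fun i => ?_⟩
  rw [hB]
  by_cases hi : i = i0
  · rw [if_pos hi]
    refine ⟨hznP, ?_⟩
    rw [toR_neg, neg_neg]; exact hzP
  · rw [if_neg hi]
    exact hroot i hi

end Pool.Agent.helper356_nill
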