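import Mathlib
import Pool.Agent.helper356_nill.Product

/-!
The neighbouring facets of a facet which is a product of dilated unimodular simplices.
-/

namespace Pool.Agent.helper356_nill

open Matrix

variable {n : ℕ}

/-- `F` is a product of dilated unimodular simplices of total dimension `n - 1`: there are an
integer vector `v`, a basis `e` of the integer lattice with one index `j0` left out, a partition
`σ` of the indices into blocks, and positive integers `k s`, such that `F` consists of the points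
`v + ∑ j, t j • e j` with `t j ≥ 0`, `t j0 = 0` and, for every block `s`, sum of the `t j` over
the block at most `k s`. -/
def IsProductOfSimplices {n : ℕ} (F : Set (Fin n → ℝ)) : Prop :=
  ∃ (v : Fin n → ℤ) (e : Module.Basis (Fin n) ℤ (Fin n → ℤ)) (j0 : Fin n) (m : ℕ)
    (σ : Fin n → Fin m) (k : Fin m → ℕ), (∀ s, 1 ≤ k s) ∧
    F = {x | ∃ t : Fin n → ℝ, (∀ j, 0 ≤ t j) ∧ t j0 = 0 ∧
      (∀ s, ∑ j ∈ Finset.univ.filter (fun j => σ j = s), t j ≤ k s) ∧
      x = toR v + ∑ j, t j • toR (e j)}

/-- a vertex in the intersection of two facets which meet -/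
theorem vertex_in_both {P : Set (Fin n → ℝ)} {V : Finset (Fin n → ℤ)}
    (hP : P = convexHull ℝ (toR '' (V : Set (Fin n → ℤ)))) (hV : V.Nonempty) {u h : Fin n → ℤ}
    (hmeet : (faceOf P (toR u) ∩ faceOf P (toR h)).Nonempty) :
    ∃ v : Fin n → ℤ, IsVertex P (toR v) ∧ toR v ∈ faceOf P (toR u) ∧ toR v ∈ faceOf P (toR h) := by
  obtain ⟨v, -, hvert, hmax, -⟩ := exists_vertex_lex hV (toR u + toR h) 0
  rw [← hP] at hvert hmax
  obtain ⟨y, ⟨hyP, hyu⟩, ⟨-, hyh⟩⟩ := hmeet
  have h1 := hmax y hyP
  rw [add_dotProduct, add_dotProduct] at h1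
  have h2 := hyu _ (vertex_mem hvert)
  have h3 := hyh _ (vertex_mem hvert)
  refine ⟨v, hvert, ⟨vertex_mem hvert, fun x hx => ?_⟩, ⟨vertex_mem hvert, fun x hx => ?_⟩⟩
  · have := hyu x hx; linarith
  · have := hyh x hx; linarith

/-- a facet meeting the facet with normal `h` is determined by the restriction of its normal -/
theorem facet_unique {P : Set (Fin n → ℝ)} {V : Finset (Fin n → ℤ)}
    (hP : P = convexHull ℝ (toR '' (V : Set (Fin n → ℤ)))) (hV : V.Nonempty) (hs : IsSmooth P)
    {h : Fin n → ℤ} (hh : IsFacetNormal P h)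
    (b : Module.Basis (Fin n) ℤ (Fin n → ℤ)) {i0 : Fin n} (hi0 : h = dualVec b i0)
    {u u' : Fin n → ℤ} (hu : IsFacetNormal P u) (huh : u ≠ h)
    (hm : (faceOf P (toR u) ∩ faceOf P (toR h)).Nonempty) (hu' : IsFacetNormal P u')
    (hm' : (faceOf P (toR u') ∩ faceOf P (toR h)).Nonempty)
    (heq : ∀ l, l ≠ i0 → u ⬝ᵥ b l = u' ⬝ᵥ b l) : u = u' := by
  have hexp : ∀ x : Fin n → ℤ, u ⬝ᵥ x - u' ⬝ᵥ x = -(h ⬝ᵥ x) * (u ⬝ᵥ b i0 - u' ⬝ᵥ b i0) := by
    intro x
    rw [int_expand b u x, int_expand b u' x, neg_sub_neg, ← Finset.sum_sub_distrib,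
      Finset.sum_eq_single i0]
    · rw [← hi0]; ring
    · intro j _ hj
      rw [heq j hj]; ring
    · intro hcon; exact absurd (Finset.mem_univ i0) hcon
  obtain ⟨v, hvert, hvu, hvh⟩ := vertex_in_both hP hV hm
  obtain ⟨v', hvert', hvu', hvh'⟩ := vertex_in_both hP hV hm'
  -- `v` also lies in the face of `u'`
  have hhv : h ⬝ᵥ v = h ⬝ᵥ v' := by
    have e1 := hvh.2 _ hvh'.1
    have e2 := hvh'.2 _ hvh.1
    rw [toR_dot, toR_dot] at e1 e2
    have e3 : h ⬝ᵥ v' ≤ h ⬝ᵥ v := by exact_mod_cast e1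
    have e4 : h ⬝ᵥ v ≤ h ⬝ᵥ v' := by exact_mod_cast e2
    omega
  have huv : u ⬝ᵥ v' ≤ u ⬝ᵥ v := by
    have e1 := hvu.2 _ hvu'.1
    rw [toR_dot, toR_dot] at e1
    exact_mod_cast e1
  have hu'v : u' ⬝ᵥ v' ≤ u' ⬝ᵥ v := by
    have e1 := hexp v
    have e2 := hexp v'
    rw [hhv] at e1
    linarith
  have hvmax' : ∀ y ∈ P, toR u' ⬝ᵥ y ≤ toR u' ⬝ᵥ toR v := by
    intro y hy
    have e1 := hvu'.2 y hy
    have e2 : toR u' ⬝ᵥ toR v' ≤ toR u' ⬝ᵥ toR v := by
      rw [toR_dot, toR_dot]; exact_mod_cast hu'v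
    linarith
  obtain ⟨-, b', hb'⟩ := hs _ hvert
  obtain ⟨i1, hi1⟩ := facetNormal_at_vertex hP hvert b' hb' hu hvu.2
  obtain ⟨i2, hi2⟩ := facetNormal_at_vertex hP hvert b' hb' hu' hvmax'
  obtain ⟨i3, hi3⟩ := facetNormal_at_vertex hP hvert b' hb' hh hvh.2
  have h13 : i1 ≠ i3 := by
    rintro rfl; exact huh (by rw [hi1, ← hi3])
  by_contra hne
  have h12 : i1 ≠ i2 := by
    rintro rfl; exact hne (by rw [hi1, ← hi2])
  have e1 := hexp (b' i1)
  rw [hi1, hi2, hi3, dualVec_dot_basis, dualVec_dot_basis, dualVec_dot_basis, if_pos rfl,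
    if_neg h12, if_neg h13] at e1
  simp at e1

theorem basis_of_product {P : Set (Fin n → ℝ)} {V : Finset (Fin n → ℤ)}
    (hP : P = convexHull ℝ (toR '' (V : Set (Fin n → ℤ)))) (hV : V.Nonempty)
    (h0 : (0 : Fin n → ℝ) ∈ interior P) (hs : IsSmooth P) {h : Fin n → ℤ}
    (hh : IsFacetNormal P h) (h1 : ∀ x ∈ faceOf P (toR h), toR h ⬝ᵥ x = 1)
    (hprod : IsProductOfSimplices (faceOf P (toR h))) :
    ∃ c : Module.Basis (Fin n) ℤ (Fin n → ℤ), ∀ i, toR (c i) ∈ P ∧ -toR (c i) ∈ P := by
  classical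
  obtain ⟨v, e, j0, m, σ, k, hk, hF⟩ := hprod
  -- membership in the facet
  have hFP : ∀ y ∈ faceOf P (toR h), y ∈ P := fun y hy => hy.1
  have hmemF : ∀ t : Fin n → ℝ, (∀ j, 0 ≤ t j) → t j0 = 0 →
      (∀ s, ∑ j ∈ Finset.univ.filter (fun j => σ j = s), t j ≤ k s) →
      toR v + ∑ j, t j • toR (e j) ∈ faceOf P (toR h) := by
    intro t ht0 ht1 ht2
    rw [hF]
    exact ⟨t, ht0, ht1, ht2, rfl⟩
  have hedual : ∀ j l, toR (dualVec e j) ⬝ᵥ toR (e l) = if l = j then -1 else 0 := by
    intro j l
    rw [toR_dot, dualVec_dot_basis]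
    split_ifs <;> simp
  set tt : (Fin n → ℝ) → Fin n → ℝ := fun y j => toR (dualVec e j) ⬝ᵥ (toR v - y) with htt
  have hcoord : ∀ y ∈ faceOf P (toR h), (∀ j, 0 ≤ tt y j) ∧ tt y j0 = 0 ∧
      (∀ s, ∑ j ∈ Finset.univ.filter (fun j => σ j = s), tt y j ≤ k s) ∧
      y = toR v + ∑ j, tt y j • toR (e j) := by
    intro y hy
    rw [hF] at hy
    obtain ⟨t, ht0, ht1, ht2, hyt⟩ := hy
    have htt' : ∀ j, tt y j = t j := by
      intro j
      simp only [htt]
      rw [hyt, sub_add_cancel_left, dotProduct_neg, dotProduct_sum, Finset.sum_eq_single j]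
      · rw [dotProduct_smul, hedual, if_pos rfl]; simp
      · intro l _ hl
        rw [dotProduct_smul, hedual, if_neg hl, smul_zero]
      · intro hcon; exact absurd (Finset.mem_univ j) hcon
    simp only [htt']
    exact ⟨ht0, ht1, ht2, hyt⟩
  have hvF : toR v ∈ faceOf P (toR h) := by
    have := hmemF (fun _ => 0) (fun _ => le_rfl) rfl (fun s => by simp)
    simpa using this
  have heF : ∀ j, j ≠ j0 → toR (v + e j) ∈ faceOf P (toR h) := by
    intro j hj
    have h2 := hmemF (Pi.single j 1) (fun l => by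
        by_cases hl : l = j
        · subst hl; simp
        · simp [hl]) (by simp [hj.symm]) (fun s => by
        have h3 : ∑ l ∈ Finset.univ.filter (fun l => σ l = s), (Pi.single j (1 : ℝ) : Fin n → ℝ) l ≤
            ∑ l, (Pi.single j (1 : ℝ) : Fin n → ℝ) l := by
          apply Finset.sum_le_sum_of_subset_of_nonneg (Finset.filter_subset _ _)
          intro l _ _
          by_cases hl : l = j
          · subst hl; simp
          · simp [hl]
        have h4 : ∑ l, (Pi.single j (1 : ℝ) : Fin n → ℝ) l = 1 := by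
          simp
        have h5 : (1 : ℝ) ≤ k s := by exact_mod_cast hk s
        linarith)
    have h3 : ∑ l, (Pi.single j (1 : ℝ) : Fin n → ℝ) l • toR (e l) = toR (e j) := by
      rw [Finset.sum_eq_single j]
      · simp
      · intro l _ hl; simp [hl]
      · intro hcon; exact absurd (Finset.mem_univ j) hcon
    rw [h3] at h2
    rw [toR_add]; exact h2
  have hhv : h ⬝ᵥ v = 1 := by
    have := h1 _ hvF
    rw [toR_dot] at this; exact_mod_cast this
  have hhe : ∀ j, j ≠ j0 → h ⬝ᵥ e j = 0 := by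
    intro j hj
    have := h1 _ (heF j hj)
    rw [toR_dot, dotProduct_add, hhv] at this
    have h2 : (1 : ℤ) + h ⬝ᵥ e j = 1 := by exact_mod_cast this
    omega
  have hhe0 : h ⬝ᵥ e j0 ≠ 0 := by
    intro hcon
    apply hh.1.1
    have h2 : ∀ x : Fin n → ℤ, h ⬝ᵥ x = 0 := by
      intro x
      rw [int_expand e h x, neg_eq_zero]
      apply Finset.sum_eq_zero
      intro j _
      by_cases hj : j = j0
      · rw [hj, hcon, mul_zero]
      · rw [hhe j hj, mul_zero]
    ext i
    have := h2 (Pi.single i 1)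
    simpa using this
  -- functionals agreeing on the `e j`, `j ≠ j0`, agree at level zero
  have hZ : ∀ φ φ' : Fin n → ℤ, (∀ j, j ≠ j0 → φ ⬝ᵥ e j = φ' ⬝ᵥ e j) →
      ∀ x : Fin n → ℤ, h ⬝ᵥ x = 0 → φ ⬝ᵥ x = φ' ⬝ᵥ x := by
    intro φ φ' hφ x hx
    have h2 : dualVec e j0 ⬝ᵥ x = 0 := by
      rw [int_expand e h x, neg_eq_zero, Finset.sum_eq_single j0] at hx
      · rcases mul_eq_zero.mp hx with h3 | h3
        · exact h3
        · exact absurd h3 hhe0
      · intro j _ hj; rw [hhe j hj, mul_zero]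
      · intro hcon; exact absurd (Finset.mem_univ j0) hcon
    rw [int_expand e φ x, int_expand e φ' x]
    congr 1
    apply Finset.sum_congr rfl
    intro j _
    by_cases hj : j = j0
    · rw [hj, h2, zero_mul, zero_mul]
    · rw [hφ j hj]
  -- classification of the neighbouring facets
  have hclass : ∀ u, IsFacetNormal P u → u ≠ h →
      (faceOf P (toR u) ∩ faceOf P (toR h)).Nonempty →
      (∃ j, j ≠ j0 ∧ ∀ l, l ≠ j0 → u ⬝ᵥ e l = if l = j then -1 else 0) ∨
      (∃ l0, l0 ≠ j0 ∧ ∀ l, l ≠ j0 → u ⬝ᵥ e l = if σ l = σ l0 then 1 else 0) := by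
    intro u hu huh hmeet
    obtain ⟨v', hvert', hv'u, hv'h⟩ := vertex_in_both hP hV hmeet
    obtain ⟨-, b', hb'⟩ := hs _ hvert'
    obtain ⟨i, hi⟩ := facetNormal_at_vertex hP hvert' b' hb' hu hv'u.2
    obtain ⟨i', hi'⟩ := facetNormal_at_vertex hP hvert' b' hb' hh hv'h.2
    have hii : i ≠ i' := by
      rintro rfl; exact huh (by rw [hi, ← hi'])
    have hstepF : ∀ l, l ≠ i' → toR (v' + b' l) ∈ faceOf P (toR h) := by
      intro l hl
      refine ⟨step_mem hP hvert' b' hb' l, fun y hy => ?_⟩
      have e1 := hv'h.2 y hy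
      have e2 : toR h ⬝ᵥ toR (v' + b' l) = toR h ⬝ᵥ toR v' := by
        rw [toR_add, dotProduct_add, hi', toR_dot _ (b' l), dualVec_dot_basis, if_neg hl]
        simp
      rw [e2]; exact e1
    have hstepu : ∀ l, l ≠ i → toR (v' + b' l) ∈ faceOf P (toR u) := by
      intro l hl
      refine ⟨step_mem hP hvert' b' hb' l, fun y hy => ?_⟩
      have e1 := hv'u.2 y hy
      have e2 : toR u ⬝ᵥ toR (v' + b' l) = toR u ⬝ᵥ toR v' := by
        rw [toR_add, dotProduct_add, hi, toR_dot _ (b' l), dualVec_dot_basis, if_neg hl]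
        simp
      rw [e2]; exact e1
    -- functionals constant on the ridge are combinations of `u` and `h`
    have hcomb : ∀ (φ : Fin n → ℤ) (c : ℝ),
        (∀ y, y ∈ faceOf P (toR u) → y ∈ faceOf P (toR h) → toR φ ⬝ᵥ y = c) →
        ∀ l, l ≠ j0 → φ ⬝ᵥ e l = -(φ ⬝ᵥ b' i) * (u ⬝ᵥ e l) := by
      intro φ c hφ l hl
      have hzero : ∀ l', l' ≠ i → l' ≠ i' → φ ⬝ᵥ b' l' = 0 := by
        intro l' h2 h3
        have e1 := hφ _ (hstepu l' h2) (hstepF l' h3)
        have e2 := hφ _ hv'u hv'h
        rw [toR_add, dotProduct_add, e2, toR_dot] at e1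
        have e3 : ((φ ⬝ᵥ b' l' : ℤ) : ℝ) = 0 := by linarith
        exact_mod_cast e3
      rw [int_expand b' φ (e l), ← Finset.add_sum_erase _ _ (Finset.mem_univ i),
        Finset.sum_eq_zero, ← hi]
      · ring
      · intro l' hl'
        have h2 := Finset.ne_of_mem_erase hl'
        by_cases h3 : l' = i'
        · rw [h3, ← hi', hhe l hl, zero_mul]
        · rw [hzero l' h2 h3, mul_zero]
    by_cases hneg : ∃ j, j ≠ j0 ∧ u ⬝ᵥ e j < 0
    · left
      obtain ⟨j, hj, hjn⟩ := hneg
      have hc1 := hcomb (dualVec e j) (toR (dualVec e j) ⬝ᵥ toR v) (by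
        intro y hyu hyh
        obtain ⟨ht0, ht1, ht2, hyt⟩ := hcoord y hyh
        have htj : tt y j = 0 := by
          by_contra hne
          have hpos : 0 < tt y j := lt_of_le_of_ne (ht0 j) (Ne.symm hne)
          have hsg : ∀ l, (0 : ℝ) ≤ (Pi.single j (tt y j) : Fin n → ℝ) l := by
            intro l
            by_cases hl : l = j
            · subst hl; simpa using hpos.le
            · simp [hl]
          have h2 := hmemF (fun l => tt y l - (Pi.single j (tt y j) : Fin n → ℝ) l) (by
            intro l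
            by_cases hl : l = j
            · subst hl; simp
            · simpa [hl] using ht0 l) (by
            simp [hj.symm, ht1]) (by
            intro s
            refine le_trans ?_ (ht2 s)
            apply Finset.sum_le_sum
            intro l _
            have := hsg l
            linarith)
          have h3 : toR v + ∑ l, (tt y l - (Pi.single j (tt y j) : Fin n → ℝ) l) • toR (e l) =
              y - (tt y j) • toR (e j) := by
            conv_rhs => rw [hyt]
            simp_rw [sub_smul]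
            rw [Finset.sum_sub_distrib]
            have h4 : ∑ l, (Pi.single j (tt y j) : Fin n → ℝ) l • toR (e l) =
                tt y j • toR (e j) := by
              rw [Finset.sum_eq_single j]
              · simp
              · intro l _ hl; simp [hl]
              · intro hcon; exact absurd (Finset.mem_univ j) hcon
            have h5 : tt (toR v + ∑ l, tt y l • toR (e l)) j = tt y j := by rw [← hyt]
            rw [h4, h5]; abel
          rw [h3] at h2
          have h6 := hyu.2 _ h2.1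
          rw [dotProduct_sub, dotProduct_smul, toR_dot, smul_eq_mul] at h6
          have h7 : ((u ⬝ᵥ e j : ℤ) : ℝ) < 0 := by exact_mod_cast hjn
          nlinarith
        simp only [htt] at htj
        rw [dotProduct_sub] at htj
        linarith)
      have h2 := hc1 j hj
      rw [dualVec_dot_basis, if_pos rfl] at h2
      have h3 : (dualVec e j ⬝ᵥ b' i) * (u ⬝ᵥ e j) = 1 := by linarith
      have h4 : u ⬝ᵥ e j = -1 ∧ dualVec e j ⬝ᵥ b' i = -1 := by
        rcases Int.eq_one_or_neg_one_of_mul_eq_one' h3 with ⟨_, h5⟩ | ⟨h5, h6⟩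
        · omega
        · exact ⟨h6, h5⟩
      refine ⟨j, hj, fun l hl => ?_⟩
      by_cases hlj : l = j
      · rw [hlj, if_pos rfl]; exact h4.1
      · have h5 := hc1 l hl
        rw [dualVec_dot_basis, if_neg hlj, h4.2] at h5
        rw [if_neg hlj]; omega
    · right
      push Not at hneg
      obtain ⟨l0, hl0, hl0p⟩ : ∃ l0, l0 ≠ j0 ∧ 0 < u ⬝ᵥ e l0 := by
        by_contra hcon
        push Not at hcon
        have h2 := hZ u 0 (fun j hj => by
          have := hneg j hj
          have := hcon j hj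
          rw [zero_dotProduct]; omega) (b' i) (by
          rw [hi', dualVec_dot_basis, if_neg hii])
        rw [hi, dualVec_dot_basis, if_pos rfl, zero_dotProduct] at h2
        omega
      set ψ : Fin n → ℤ := ∑ j ∈ Finset.univ.filter (fun j => σ j = σ l0), dualVec e j with hψ
      have hψe : ∀ l, ψ ⬝ᵥ e l = if σ l = σ l0 then -1 else 0 := by
        intro l
        rw [hψ, sum_dotProduct]
        by_cases hl : σ l = σ l0
        · rw [if_pos hl, Finset.sum_eq_single l]
          · rw [dualVec_dot_basis, if_pos rfl]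
          · intro j _ hj; rw [dualVec_dot_basis, if_neg hj.symm]
          · intro hcon; exact absurd (by simp [hl]) hcon
        · rw [if_neg hl]
          apply Finset.sum_eq_zero
          intro j hj
          rw [dualVec_dot_basis, if_neg]
          rintro rfl
          simp at hj; exact hl hj
      have hc1 := hcomb ψ (toR ψ ⬝ᵥ toR v - k (σ l0)) (by
        intro y hyu hyh
        obtain ⟨ht0, ht1, ht2, hyt⟩ := hcoord y hyh
        have hsum : ∑ j ∈ Finset.univ.filter (fun j => σ j = σ l0), tt y j = k (σ l0) := by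
          by_contra hne
          have hlt := lt_of_le_of_ne (ht2 (σ l0)) hne
          set δ : ℝ := k (σ l0) - ∑ j ∈ Finset.univ.filter (fun j => σ j = σ l0), tt y j with hδ
          have hδ0 : 0 < δ := by linarith
          have hsg : ∀ l, (0 : ℝ) ≤ (Pi.single l0 δ : Fin n → ℝ) l := by
            intro l
            by_cases hl : l = l0
            · subst hl; simpa using hδ0.le
            · simp [hl]
          have h2 := hmemF (fun l => tt y l + (Pi.single l0 δ : Fin n → ℝ) l) (by
            intro l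
            have := hsg l
            have := ht0 l
            positivity) (by
            simp [hl0.symm, ht1]) (by
            intro s
            rw [Finset.sum_add_distrib]
            by_cases hs' : σ l0 = s
            · have h4 : ∑ l ∈ Finset.univ.filter (fun j => σ j = s), (Pi.single l0 δ : Fin n → ℝ) l
                  = δ := by
                rw [Finset.sum_eq_single l0]
                · simp
                · intro l _ hl; simp [hl]
                · intro hcon; exact absurd (by simp [hs']) hcon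
              rw [h4, ← hs', hδ]; linarith
            · have h4 : ∑ l ∈ Finset.univ.filter (fun j => σ j = s), (Pi.single l0 δ : Fin n → ℝ) l
                  = 0 := by
                apply Finset.sum_eq_zero
                intro l hl
                have : l ≠ l0 := by
                  rintro rfl
                  simp at hl; exact hs' hl
                simp [this]
              rw [h4, add_zero]; exact ht2 s)
          have h3 : toR v + ∑ l, (tt y l + (Pi.single l0 δ : Fin n → ℝ) l) • toR (e l) =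
              y + δ • toR (e l0) := by
            conv_rhs => rw [hyt]
            simp_rw [add_smul]
            rw [Finset.sum_add_distrib]
            have h4 : ∑ l, (Pi.single l0 δ : Fin n → ℝ) l • toR (e l) = δ • toR (e l0) := by
              rw [Finset.sum_eq_single l0]
              · simp
              · intro l _ hl; simp [hl]
              · intro hcon; exact absurd (Finset.mem_univ l0) hcon
            rw [h4]; abel
          rw [h3] at h2
          have h6 := hyu.2 _ h2.1
          rw [dotProduct_add, dotProduct_smul, toR_dot, smul_eq_mul] at h6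
          have h7 : (0 : ℝ) < ((u ⬝ᵥ e l0 : ℤ) : ℝ) := by exact_mod_cast hl0p
          nlinarith [mul_pos hδ0 h7]
        have h8 : toR ψ ⬝ᵥ (toR v - y) = k (σ l0) := by
          rw [← hsum, hψ, toR_sum, sum_dotProduct]
        rw [dotProduct_sub] at h8
        linarith)
      have h2 := hc1 l0 hl0
      rw [hψe, if_pos rfl] at h2
      have h3 : (ψ ⬝ᵥ b' i) * (u ⬝ᵥ e l0) = 1 := by linarith
      have h4 : u ⬝ᵥ e l0 = 1 ∧ ψ ⬝ᵥ b' i = 1 := by
        rcases Int.eq_one_or_neg_one_of_mul_eq_one' h3 with ⟨h5, h6⟩ | ⟨_, h5⟩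
        · exact ⟨h6, h5⟩
        · omega
      refine ⟨l0, hl0, fun l hl => ?_⟩
      have h5 := hc1 l hl
      rw [hψe, h4.2] at h5
      split_ifs at h5 ⊢ <;> omega
  -- `v` is a vertex of `P`
  have hvert : IsVertex P (toR v) := by
    obtain ⟨v', -, hvert', hmax', hlex'⟩ := exists_vertex_lex hV (toR h)
      (∑ j, toR (dualVec e j))
    rw [← hP] at hvert' hmax' hlex'
    have hv'F : toR v' ∈ faceOf P (toR h) := ⟨vertex_mem hvert', hmax'⟩
    have h2 := hlex' (toR v) hvF.1 (by rw [h1 _ hvF, h1 _ hv'F])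
    obtain ⟨ht0, ht1, ht2, hyt⟩ := hcoord _ hv'F
    have h3 : ∑ j, tt (toR v') j = (∑ j, toR (dualVec e j)) ⬝ᵥ (toR v - toR v') := by
      rw [sum_dotProduct]
    rw [dotProduct_sub] at h3
    have h4 : ∑ j, tt (toR v') j = 0 :=
      le_antisymm (by linarith) (Finset.sum_nonneg (fun j _ => ht0 j))
    rw [Finset.sum_eq_zero_iff_of_nonneg (fun j _ => ht0 j)] at h4
    have h5 : toR v' = toR v := by
      rw [hyt]
      rw [Finset.sum_eq_zero, add_zero]
      intro j hj
      rw [h4 j hj, zero_smul]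
    rw [← h5]; exact hvert'
  obtain ⟨-, b, hb⟩ := hs _ hvert
  obtain ⟨i0, hi0⟩ := facetNormal_at_vertex hP hvert b hb hh hvF.2
  have hhb : ∀ l, l ≠ i0 → h ⬝ᵥ b l = 0 := by
    intro l hl; rw [hi0, dualVec_dot_basis, if_neg hl]
  have hvdual : ∀ l, toR v ∈ faceOf P (toR (dualVec b l)) := fun l =>
    ⟨vertex_mem hvert, dual_max hP hvert b hb l⟩
  -- matching of the two bases
  have hmatch : ∀ l, l ≠ i0 → ∃ ρ, ρ ≠ j0 ∧
      ∀ j, j ≠ j0 → dualVec b l ⬝ᵥ e j = if j = ρ then -1 else 0 := by
    intro l hl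
    have h2 := hclass (dualVec b l) (dual_facetNormal hP hvert b hb l) (by
      rw [hi0]; intro h; exact hl (dualVec_injective b h)) ⟨toR v, hvdual l, hvF⟩
    rcases h2 with h2 | ⟨l0, hl0, h2⟩
    · exact h2
    · exfalso
      have h3 := h2 l0 hl0
      rw [if_pos rfl] at h3
      have h4 := dual_max hP hvert b hb l _ (heF l0 hl0).1
      rw [toR_dot, toR_dot, dotProduct_add, h3] at h4
      have h5 : dualVec b l ⬝ᵥ v + 1 ≤ dualVec b l ⬝ᵥ v := by exact_mod_cast h4
      omega
  choose! ρ hρ0 hρ using hmatch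
  have hρinj : ∀ l l', l ≠ i0 → l' ≠ i0 → ρ l = ρ l' → l = l' := by
    intro l l' hl hl' heq
    by_contra hne
    have h2 := hZ (dualVec b l) (dualVec b l') (fun j hj => by
      rw [hρ l hl j hj, hρ l' hl' j hj, heq]) (b l) (hhb l hl)
    rw [dualVec_dot_basis, dualVec_dot_basis, if_pos rfl, if_neg hne] at h2
    omega
  have heb : ∀ l, l ≠ i0 → e (ρ l) = b l := by
    intro l hl
    rw [← b.sum_repr (e (ρ l)), Finset.sum_eq_single l]
    · have h2 := dualVec_dot b l (e (ρ l))
      rw [hρ l hl _ (hρ0 l hl), if_pos rfl] at h2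
      have h3 : b.repr (e (ρ l)) l = 1 := by omega
      rw [h3, one_smul]
    · intro l' _ hl'
      have h2 := dualVec_dot b l' (e (ρ l))
      by_cases h3 : l' = i0
      · rw [h3, ← hi0, hhe _ (hρ0 l hl)] at h2
        rw [h3]
        have h4 : b.repr (e (ρ l)) i0 = 0 := by omega
        rw [h4, zero_smul]
      · rw [hρ l' h3 _ (hρ0 l hl), if_neg (fun h4 => hl' (hρinj l' l h3 hl h4.symm))] at h2
        have h4 : b.repr (e (ρ l)) l' = 0 := by omega
        rw [h4, zero_smul]
    · intro hcon; exact absurd (Finset.mem_univ l) hcon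
  -- classification in terms of the edge basis
  have hcover0 : ∀ u, IsFacetNormal P u → u ≠ h →
      (faceOf P (toR u) ∩ faceOf P (toR h)).Nonempty →
      (∃ l, l ≠ i0 ∧ u = dualVec b l) ∨
      (∃ s, (∃ l, l ≠ i0 ∧ σ (ρ l) = s) ∧ ∀ l, l ≠ i0 → u ⬝ᵥ b l = if σ (ρ l) = s then 1 else 0) := by
    intro u hu huh hmeet
    rcases hclass u hu huh hmeet with ⟨j, hj, hju⟩ | ⟨l0, hl0, hlu⟩
    · left
      have hvu : ∀ y ∈ P, toR u ⬝ᵥ y ≤ toR u ⬝ᵥ toR v := by
        obtain ⟨y0, hy0u, hy0h⟩ := hmeet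
        obtain ⟨ht0, ht1, ht2, hyt⟩ := hcoord y0 hy0h
        have h2 : toR u ⬝ᵥ y0 ≤ toR u ⬝ᵥ toR v := by
          rw [hyt, dotProduct_add, dotProduct_sum]
          have h3 : ∑ l, toR u ⬝ᵥ (tt y0 l • toR (e l)) ≤ 0 := by
            apply Finset.sum_nonpos
            intro l _
            rw [dotProduct_smul, toR_dot, smul_eq_mul]
            by_cases hl : l = j0
            · rw [hl, ht1, zero_mul]
            · rw [hju l hl]
              have := ht0 l
              split_ifs
              · push_cast; linarith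
              · push_cast; linarith
          linarith
        intro y hy
        have := hy0u.2 y hy
        linarith
      obtain ⟨l, hl⟩ := facetNormal_at_vertex hP hvert b hb hu hvu
      refine ⟨l, ?_, hl⟩
      rintro rfl
      exact huh (by rw [hl, ← hi0])
    · right
      have hub : ∀ l, l ≠ i0 → u ⬝ᵥ b l = if σ (ρ l) = σ l0 then 1 else 0 := by
        intro l hl
        rw [← heb l hl]
        exact hlu _ (hρ0 l hl)
      refine ⟨σ l0, ?_, hub⟩
      by_contra hcon
      push Not at hcon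
      have h2 : ∀ l, l ≠ i0 → u ⬝ᵥ b l = 0 := by
        intro l hl
        rw [hub l hl, if_neg (hcon l hl)]
      have h3 := hlu l0 hl0
      rw [if_pos rfl, int_expand b u (e l0), Finset.sum_eq_single i0, ← hi0, hhe l0 hl0] at h3
      · simp at h3
      · intro l _ hl; rw [h2 l hl, mul_zero]
      · intro hcon'; exact absurd (Finset.mem_univ i0) hcon'
  -- existence of the block facets
  have hqex : ∀ s, (∃ l, l ≠ i0 ∧ σ (ρ l) = s) → ∃ q : Fin n → ℤ, IsFacetNormal P q ∧ q ≠ h ∧
      (faceOf P (toR q) ∩ faceOf P (toR h)).Nonempty ∧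
      ∀ l, l ≠ i0 → q ⬝ᵥ b l = if σ (ρ l) = s then 1 else 0 := by
    rintro s ⟨l0, hl0, hl0s⟩
    set ψ : Fin n → ℤ :=
      -∑ l ∈ Finset.univ.filter (fun l => l ≠ i0 ∧ σ (ρ l) = s), dualVec b l with hψ
    have hψb : ψ ⬝ᵥ b l0 = 1 := by
      rw [hψ, neg_dotProduct, sum_dotProduct, Finset.sum_eq_single l0]
      · rw [dualVec_dot_basis, if_pos rfl]; norm_num
      · intro j _ hj; rw [dualVec_dot_basis, if_neg hj.symm]
      · intro hcon; exact absurd (by simp [hl0, hl0s]) hcon
    obtain ⟨v', -, hvert', hmax', hlex'⟩ := exists_vertex_lex hV (toR h) (toR ψ)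
    rw [← hP] at hvert' hmax' hlex'
    have hv'F : toR v' ∈ faceOf P (toR h) := ⟨vertex_mem hvert', hmax'⟩
    obtain ⟨-, b', hb'⟩ := hs _ hvert'
    obtain ⟨i', hi'⟩ := facetNormal_at_vertex hP hvert' b' hb' hh hmax'
    have hψle : ∀ l, l ≠ i' → ψ ⬝ᵥ b' l ≤ 0 := by
      intro l hl
      have h2 := hlex' _ (step_mem hP hvert' b' hb' l) (by
        rw [toR_add, dotProduct_add, hi', toR_dot _ (b' l), dualVec_dot_basis, if_neg hl]
        simp)
      rw [toR_add, dotProduct_add, toR_dot _ (b' l)] at h2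
      have h3 : ((ψ ⬝ᵥ b' l : ℤ) : ℝ) ≤ 0 := by linarith
      exact_mod_cast h3
    obtain ⟨j, hj⟩ : ∃ j, j ≠ i' ∧ 0 < dualVec b' j ⬝ᵥ b l0 := by
      by_contra hcon
      push Not at hcon
      have h2 := int_expand b' ψ (b l0)
      rw [hψb] at h2
      have h3 : 0 ≤ ∑ j, (dualVec b' j ⬝ᵥ b l0) * (ψ ⬝ᵥ b' j) := by
        apply Finset.sum_nonneg
        intro j _
        by_cases hj : j = i'
        · rw [hj, ← hi', hhb l0 hl0, zero_mul]
        · exact mul_nonneg_of_nonpos_of_nonpos (hcon j hj) (hψle j hj)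
      omega
    have hjh : dualVec b' j ≠ h := by
      rw [hi']; intro h; exact hj.1 (dualVec_injective b' h)
    have hjm : (faceOf P (toR (dualVec b' j)) ∩ faceOf P (toR h)).Nonempty :=
      ⟨toR v', ⟨vertex_mem hvert', dual_max hP hvert' b' hb' j⟩, hv'F⟩
    have hjf := dual_facetNormal hP hvert' b' hb' j
    refine ⟨dualVec b' j, hjf, hjh, hjm, ?_⟩
    rcases hcover0 _ hjf hjh hjm with ⟨l, hl, hlj⟩ | ⟨s', -, hs'⟩
    · exfalso
      have h2 := hj.2
      rw [hlj, dualVec_dot_basis] at h2
      split_ifs at h2 <;> omega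
    · have h2 := hj.2
      rw [hs' l0 hl0] at h2
      have h3 : σ (ρ l0) = s' := by
        by_contra hne
        rw [if_neg hne] at h2
        exact lt_irrefl _ h2
      rw [← h3, hl0s] at hs'
      exact hs'
  choose! q hq1 hq2 hq3 hq4 using hqex
  exact basis_of_structure hP hV h0 hs hh h1 hvert hvF b hb hi0 (fun l => σ (ρ l)) q
    (fun s hs' => ⟨hq1 s hs', hq4 s hs'⟩)
    (by
      intro u hu huh hmeet
      rcases hcover0 u hu huh hmeet with h2 | ⟨s, hs', hus⟩
      · left; exact h2
      · right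
        refine ⟨s, hs', ?_⟩
        apply facet_unique hP hV hs hh b hi0 hu huh hmeet (hq1 s hs') (hq3 s hs')
        intro l hl
        rw [hus l hl, hq4 s hs' l hl])

end Pool.Agent.helper356_nill
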